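import Pool.Agent.Helper84.Sn.Per
import Pool.Agent.Helper1.Stab.Tele

/-! MP_ab4156_gt. Morphisms from and to the telescopes, and the proofs of `tele_retract` and
`tele_sum` (statements of Tele.lean). -/

open CategoryTheory Topology Filter Set Opposite

noncomputable section

namespace Pool.Agent.Helper84.Sn

open Pool.Agent.Helper1.Stab

/-! ### Building morphisms of graded functors (packet TK-A) -/

/-- every morphism of test spaces is the class of a map -/
theorem test_hom_rep {K L : Test} (g : K ⟶ L) :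
    ∃ φ : PMap K.obj L.obj.plus, g = ObjectProperty.homMk φ.cls := by
  obtain ⟨z, rfl⟩ := ObjectProperty.homMk_surjective g
  obtain ⟨φ, hφ⟩ : ∃ φ : PMap K.obj L.obj.plus, φ.cls = z := Quotient.exists_rep z
  exact ⟨φ, by rw [hφ]⟩

/-- A family of homomorphisms, natural for pointed maps and compatible with `σ`, is a morphism.
(Every morphism of test spaces is `homMk φ.cls`: `HMap.ind`.) -/
theorem GF.ofMaps (G H : GF)
    (f : ∀ (b : ℕ) (K : Test), ((G.h b).obj (op K) : Type) →+ ((H.h b).obj (op K) : Type))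
    (hnat : ∀ (b : ℕ) (K L : Test) (φ : PMap K.obj L.obj.plus) (y : (G.h b).obj (op L)),
      f b K ((G.h b).map (Quiver.Hom.op (X := K) (Y := L) (ObjectProperty.homMk φ.cls)) y) =
        (H.h b).map (Quiver.Hom.op (X := K) (Y := L) (ObjectProperty.homMk φ.cls)) (f b L y))
    (hσ : ∀ (b : ℕ) (K : Test) (y : (G.h b).obj (op K)),
      f (b + 1) (Test.cx.obj K) (((G.σ b).hom.app (op K)) y) =
        ((H.σ b).hom.app (op K)) (f b K y)) :
    ∃ F : G ⟶ H, ∀ (b : ℕ) (K : Test) (y : (G.h b).obj (op K)),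
      (GF.ev b K).map F y = f b K y := by
  refine ⟨GF.Hom.mk' (fun b => { app := fun K => AddCommGrpCat.ofHom (f b K.unop)
                                 naturality := ?_ }) ?_, ?_⟩
  · intro L K g
    obtain ⟨φ, hφ⟩ := test_hom_rep g.unop
    have hg : g = Quiver.Hom.op (X := K.unop) (Y := L.unop) (ObjectProperty.homMk φ.cls) := by
      rw [← hφ]
      rfl
    rw [hg]
    ext y
    exact hnat b K.unop L.unop φ y
  · intro b K
    ext y
    exact hσ b K.unop y
  · intro b K y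
    rfl

section Lift
variable {P : Biv} {V : LC} {x : P.Hom V LC.point} (N : TeleGF P x)

/-- the class map of a stage as a homomorphism -/
def clsH65 (b n : ℕ) (K : Test) :
    P.Hom ((LC.ipow V n).prod K.obj) (Zb b) →+ ((N.H.h b).obj (op K) : Type) :=
  AddMonoidHom.mk' (fun y => N.cls n y) (fun y z => N.cls_add y z)

/-- `m` transition maps -/
def nexts65 (x : P.Hom V LC.point) {b n : ℕ} {K : Test}
    (y : P.Hom ((LC.ipow V n).prod K.obj) (Zb b)) (m : ℕ) :
    P.Hom ((LC.ipow V (n + m)).prod K.obj) (Zb b) :=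
  Nat.rec (motive := fun m => P.Hom ((LC.ipow V (n + m)).prod K.obj) (Zb b)) y
    (fun _ z => P.nextx x z) m

theorem cls_nexts65 {b n : ℕ} {K : Test} (y : P.Hom ((LC.ipow V n).prod K.obj) (Zb b)) (m : ℕ) :
    N.cls (n + m) (nexts65 x y m) = N.cls n y := by
  induction m with
  | zero => rfl
  | succ m ih => exact (N.cls_next (n := n + m) (nexts65 x y m)).trans ih

variable {A : Type} [AddCommGroup A] {b : ℕ} {K : Test}
  (ρ : ∀ n : ℕ, P.Hom ((LC.ipow V n).prod K.obj) (Zb b) →+ A)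
  (hnext : ∀ (n : ℕ) (y : P.Hom ((LC.ipow V n).prod K.obj) (Zb b)),
    ρ (n + 1) (P.nextx x y) = ρ n y)

include hnext in
theorem rho_nexts65 {n : ℕ} (y : P.Hom ((LC.ipow V n).prod K.obj) (Zb b)) (m : ℕ) :
    ρ (n + m) (nexts65 x y m) = ρ n y := by
  induction m with
  | zero => rfl
  | succ m ih => exact (hnext (n + m) (nexts65 x y m)).trans ih

include N hnext in
theorem rho_zero65 {n : ℕ} (y : P.Hom ((LC.ipow V n).prod K.obj) (Zb b)) (h : N.cls n y = 0) :
    ρ n y = 0 := by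
  obtain ⟨m, hm⟩ := N.eq_zero y h
  have h1 : nexts65 x y m = 0 := hm
  rw [← rho_nexts65 ρ hnext y m, h1, map_zero]

include N hnext in
theorem rho_le65 {n k : ℕ} (y : P.Hom ((LC.ipow V n).prod K.obj) (Zb b))
    (y' : P.Hom ((LC.ipow V (n + k)).prod K.obj) (Zb b)) (h : N.cls n y = N.cls (n + k) y') :
    ρ n y = ρ (n + k) y' := by
  have h1 : N.cls (n + k) (nexts65 x y k - y') = 0 := by
    have h2 := map_sub (clsH65 N b (n + k) K) (nexts65 x y k) y'
    have h3 : N.cls (n + k) (nexts65 x y k - y') =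
      N.cls (n + k) (nexts65 x y k) - N.cls (n + k) y' := h2
    rw [h3, cls_nexts65, h, sub_self]
  have h4 := rho_zero65 N ρ hnext _ h1
  rw [map_sub, rho_nexts65 ρ hnext, sub_eq_zero] at h4
  exact h4

include N hnext in
theorem rho_well65 {n m : ℕ} (y : P.Hom ((LC.ipow V n).prod K.obj) (Zb b))
    (y' : P.Hom ((LC.ipow V m).prod K.obj) (Zb b)) (h : N.cls n y = N.cls m y') :
    ρ n y = ρ m y' := by
  rcases le_total n m with hnm | hnm
  · obtain ⟨k, rfl⟩ := Nat.exists_eq_add_of_le hnm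
    exact rho_le65 N ρ hnext y y' h
  · obtain ⟨k, rfl⟩ := Nat.exists_eq_add_of_le hnm
    exact (rho_le65 N ρ hnext y' y h.symm).symm

/-- the homomorphism on the colimit -/
def liftH65 : ((N.H.h b).obj (op K) : Type) →+ A :=
  AddMonoidHom.mk' (fun t => ρ (N.surj t 0).choose (N.surj t 0).choose_spec.2.choose) (by
    intro t t'
    have h1 := (N.surj t 0).choose_spec.2.choose_spec
    have h2 := (N.surj t' 0).choose_spec.2.choose_spec
    have h3 := (N.surj (t + t') 0).choose_spec.2.choose_spec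
    obtain ⟨m, hm, y', h4⟩ := N.surj t' (N.surj t 0).choose
    obtain ⟨k, rfl⟩ := Nat.exists_eq_add_of_le hm
    have h5 : N.cls _ (nexts65 x (N.surj t 0).choose_spec.2.choose k + y') = t + t' := by
      rw [N.cls_add, cls_nexts65, ← h4, ← h1]
    rw [← rho_well65 N ρ hnext _ _ (h5.trans h3), map_add, rho_nexts65 ρ hnext,
      rho_well65 N ρ hnext _ _ (h4.symm.trans h2)])

theorem liftH_cls65 {n : ℕ} (y : P.Hom ((LC.ipow V n).prod K.obj) (Zb b)) :
    liftH65 N ρ hnext (N.cls n y) = ρ n y :=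
  (rho_well65 N ρ hnext _ _ (N.surj (N.cls n y) 0).choose_spec.2.choose_spec).symm

end Lift

/-- Morphisms out of a telescope. A compatible family `ρ n` on the stages gives a well defined
homomorphism on the colimit: if `cls n y = cls m y'`, move both to the stage `n + m` with
`cls_next`; the difference has class zero, so it vanishes at a later stage (`eq_zero`). Then
`GF.ofMaps` with `map_cls`, `σ_cls`, `surj`. -/
theorem tele_lift {P : Biv} {V : LC} {x : P.Hom V LC.point} (N : TeleGF P x) (G : GF)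
    (ρ : ∀ (b n : ℕ) (K : Test), P.Hom ((LC.ipow V n).prod K.obj) (Zb b) →+
      ((G.h b).obj (op K) : Type))
    (hnext : ∀ (b n : ℕ) (K : Test) (y : P.Hom ((LC.ipow V n).prod K.obj) (Zb b)),
      ρ b (n + 1) K (P.nextx x y) = ρ b n K y)
    (hnat : ∀ (b n : ℕ) (K L : Test) (φ : PMap K.obj L.obj.plus)
      (y : P.Hom ((LC.ipow V n).prod L.obj) (Zb b)),
      ρ b n K (P.comp (P.J (PMap.ltens (LC.ipow V n) φ)) y) =
        (G.h b).map (Quiver.Hom.op (X := K) (Y := L) (ObjectProperty.homMk φ.cls)) (ρ b n L y))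
    (hσ : ∀ (b n : ℕ) (K : Test) (y : P.Hom ((LC.ipow V n).prod K.obj) (Zb b)),
      ρ (b + 1) n (Test.cx.obj K)
        (P.comp (P.J (PMap.ofHomeo (LC.frontC (LC.ipow V n) K.obj))) (P.ltens LC.C y)) =
        ((G.σ b).hom.app (op K)) (ρ b n K y)) :
    ∃ F : N.H ⟶ G, ∀ (b n : ℕ) (K : Test) (y : P.Hom ((LC.ipow V n).prod K.obj) (Zb b)),
      (GF.ev b K).map F (N.cls n y) = ρ b n K y := by
  obtain ⟨F, hF⟩ := GF.ofMaps N.H G
    (fun b K => liftH65 N (fun n => ρ b n K) (fun n y => hnext b n K y)) (by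
      intro b K L φ t
      obtain ⟨n, -, y, rfl⟩ := N.surj t 0
      rw [N.map_cls, liftH_cls65, liftH_cls65]
      exact hnat b n K L φ y) (by
      intro b K t
      obtain ⟨n, -, y, rfl⟩ := N.surj t 0
      rw [N.σ_cls, liftH_cls65, liftH_cls65]
      exact hσ b n K y)
  refine ⟨F, fun b n K y => ?_⟩
  rw [hF]
  exact liftH_cls65 N _ _ y

/-! ### The periodic case (packet TK-B) -/

section
variable {R : Biv} (P : PRTheory R) {V : LC}

/-- `β^n × …` on the powers of `V` -/
def Per.pow {R : Biv} {V : LC} (p : Per R V) : ∀ n : ℕ, Per R (LC.ipow V n)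
  | 0 => Per.pt R
  | n + 1 => p.prod (Per.pow p n)

/-- `θ_n : P(V^n × K, Z) → P(K, Z)`, composition with the inverse class -/
def th (p : Per R V) (n : ℕ) {K Z : LC} (y : P.Hom ((LC.ipow V n).prod K) Z) : P.Hom K Z :=
  P.comp (P.J (PMap.ofHomeo (LC.lunit K).symm))
    (P.comp (P.tens (P.inc (Per.pow p n).c) K) y)

theorem th_add (p : Per R V) (n : ℕ) {K Z : LC} (y y' : P.Hom ((LC.ipow V n).prod K) Z) :
    th P p n (y + y') = th P p n y + th P p n y' := by
  unfold th
  rw [P.comp_add, P.comp_add]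

theorem th_bijective (p : Per R V) (n : ℕ) (K Z : LC) :
    Function.Bijective (th P p n : P.Hom ((LC.ipow V n).prod K) Z → P.Hom K Z) := by
  have hL : ∀ (L : LC), P.comp (P.J (PMap.ofHomeo (LC.lunit L).symm))
      (P.J (PMap.ofHomeo (LC.lunit L))) = P.J (PMap.id L) := fun L =>
    Helper39.Stab.J_homeo_symm' P.toBiv (LC.lunit L)
  have hR : ∀ (L : LC), P.comp (P.J (PMap.ofHomeo (LC.lunit L)))
      (P.J (PMap.ofHomeo (LC.lunit L).symm)) = P.J (PMap.id (LC.point.prod L)) := fun L =>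
    Helper39.Stab.J_homeo_symm P.toBiv (LC.lunit L)
  have h1 : P.comp (P.tens (P.inc (Per.pow p n).c) K) (P.tens (P.inc (Per.pow p n).b) K) =
      P.J (PMap.id _) := by
    rw [← P.tens_comp, ← P.inc_comp, (Per.pow p n).cb, P.inc_J]
    exact Helper39.Stab.tens_id P.toBiv _ _
  have h2 : P.comp (P.tens (P.inc (Per.pow p n).b) K) (P.tens (P.inc (Per.pow p n).c) K) =
      P.J (PMap.id _) := by
    rw [← P.tens_comp, ← P.inc_comp, (Per.pow p n).bc, P.inc_J]
    exact Helper39.Stab.tens_id P.toBiv _ _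
  refine Function.bijective_iff_has_inverse.2 ⟨fun z =>
    P.comp (P.tens (P.inc (Per.pow p n).b) K) (P.comp (P.J (PMap.ofHomeo (LC.lunit K))) z), ?_, ?_⟩
  · intro y
    change P.comp (P.tens (P.inc (Per.pow p n).b) K) (P.comp (P.J (PMap.ofHomeo (LC.lunit K)))
      (P.comp (P.J (PMap.ofHomeo (LC.lunit K).symm))
        (P.comp (P.tens (P.inc (Per.pow p n).c) K) y))) = y
    rw [← P.assoc (P.J (PMap.ofHomeo (LC.lunit K))), hR, P.id_comp, ← P.assoc, h2, P.id_comp]
  · intro z
    change P.comp (P.J (PMap.ofHomeo (LC.lunit K).symm)) (P.comp (P.tens (P.inc (Per.pow p n).c) K)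
      (P.comp (P.tens (P.inc (Per.pow p n).b) K) (P.comp (P.J (PMap.ofHomeo (LC.lunit K))) z))) = z
    rw [← P.assoc (P.tens (P.inc (Per.pow p n).c) K), h1, P.id_comp, ← P.assoc, hL, P.id_comp]

theorem th_zero_inc (p : Per R V) {K Z : LC} (z : P.Hom K Z) :
    th P p 0 (P.comp (P.J (PMap.ofHomeo (LC.lunit K))) z) = z := by
  have hL : ∀ (L : LC), P.comp (P.J (PMap.ofHomeo (LC.lunit L).symm))
      (P.J (PMap.ofHomeo (LC.lunit L))) = P.J (PMap.id L) := fun L =>
    Helper39.Stab.J_homeo_symm' P.toBiv (LC.lunit L)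
  have h0 : P.tens (P.inc (Per.pow p 0).c) K = P.J (PMap.id (LC.point.prod K)) := by
    change P.tens (P.inc (R.J (PMap.id LC.point))) K = _
    rw [P.inc_J]
    exact Helper39.Stab.tens_id P.toBiv _ _
  unfold th
  rw [h0]
  change P.comp (P.J (PMap.ofHomeo (LC.lunit K).symm)) (P.comp (P.J (PMap.id (LC.point.prod K)))
    (P.comp (P.J (PMap.ofHomeo (LC.lunit K))) z)) = z
  rw [P.id_comp, ← P.assoc, hL, P.id_comp]

/-- the step of `th_next`, for general factors -/
theorem th_next_aux {W : LC} (p : Per R V) (q : Per R W) (x : P.Hom V LC.point) {K Z : LC}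
    (y : P.Hom (W.prod K) Z) :
    P.comp (P.J (PMap.ofHomeo (LC.lunit K).symm)) (P.comp (P.tens (P.inc (p.prod q).c) K)
      (P.comp (P.J (PMap.ofHomeo (Helper39.Stab.asc V W K))) (P.comp (P.tens x (W.prod K))
        (P.comp (P.J (PMap.ofHomeo (LC.lunit (W.prod K)))) y)))) =
      act (P := P.toBiv) (nrm P p x) (P.comp (P.J (PMap.ofHomeo (LC.lunit K).symm))
        (P.comp (P.tens (P.inc q.c) K) y)) := by
  have h1 : P.inc (p.prod q).c = P.comp (P.inc q.c)
      (P.comp (P.J (PMap.ofHomeo (LC.lunit W).symm)) (P.tens (P.inc p.c) W)) := by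
    change P.inc (R.comp q.c (R.comp (R.J (PMap.ofHomeo (LC.lunit W).symm)) (R.tens p.c W))) = _
    rw [P.inc_comp, P.inc_comp, P.inc_J, P.inc_tens]
  have h2 : P.comp (P.tens (P.tens (P.inc p.c) W) K)
      (P.J (PMap.ofHomeo (Helper39.Stab.asc V W K))) =
      P.comp (P.J (PMap.ofHomeo (Helper39.Stab.asc LC.point W K)))
        (P.tens (P.inc p.c) (W.prod K)) := Helper39.Stab.tens_tens P.toBiv _ _ _
  have h3 : P.comp (P.J ((PMap.ofHomeo (LC.lunit W).symm).tens K))
      (P.J (PMap.ofHomeo (Helper39.Stab.asc LC.point W K))) =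
      P.J (PMap.ofHomeo (LC.lunit (W.prod K)).symm) := by
    rw [← P.J_comp]
    congr 1
  have h4 : P.comp (P.tens (P.inc p.c) (W.prod K)) (P.tens x (W.prod K)) =
      P.tens (nrm P p x) (W.prod K) := (P.tens_comp _ _ _).symm
  rw [h1, P.tens_comp, P.tens_comp, P.tens_J, P.assoc, P.assoc,
    ← P.assoc (P.tens (P.tens (P.inc p.c) W) K), h2, P.assoc,
    ← P.assoc (P.J ((PMap.ofHomeo (LC.lunit W).symm).tens K)), h3,
    ← P.assoc (P.tens (P.inc p.c) (W.prod K)), h4, act_comp', act_comp']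
  rfl

/-- `θ_(n+1) (x y) = x̂ θ_n y` -/
theorem th_next (p : Per R V) (n : ℕ) (x : P.Hom V LC.point) {K Z : LC}
    (y : P.Hom ((LC.ipow V n).prod K) Z) :
    th P p (n + 1) (P.toBiv.nextx x y) = act (P := P.toBiv) (nrm P p x) (th P p n y) :=
  th_next_aux P p (Per.pow p n) x y

theorem th_nat (p : Per R V) (n : ℕ) {K L Z : LC} (φ : PMap K L.plus)
    (y : P.Hom ((LC.ipow V n).prod L) Z) :
    th P p n (P.comp (P.J (PMap.ltens (LC.ipow V n) φ)) y) = P.comp (P.J φ) (th P p n y) := by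
  unfold th
  have h1 : P.comp (P.tens (P.inc (Per.pow p n).c) K) (P.J (PMap.ltens (LC.ipow V n) φ)) =
      P.comp (P.J (PMap.ltens LC.point φ)) (P.tens (P.inc (Per.pow p n).c) L) :=
    Helper39.Stab.tens_exch P.toBiv _ φ
  have h2 : P.comp (P.J (PMap.ofHomeo (LC.lunit K).symm)) (P.J (PMap.ltens LC.point φ)) =
      P.comp (P.J φ) (P.J (PMap.ofHomeo (LC.lunit L).symm)) := by
    rw [← P.J_comp, ← P.J_comp]
    congr 1
  rw [← P.assoc (P.tens (P.inc (Per.pow p n).c) K), h1, P.assoc, ← P.assoc, h2, P.assoc]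

theorem th_ltens (p : Per R V) (n : ℕ) {K Z : LC} (y : P.Hom ((LC.ipow V n).prod K) Z) :
    th P p n (P.comp (P.J (PMap.ofHomeo (LC.frontC (LC.ipow V n) K))) (P.ltens LC.C y)) =
      P.ltens LC.C (th P p n y) := by
  unfold th
  have e0 : ∀ {A B C : LC} (f : P.Hom A B) (g : P.Hom B C), P.ltens LC.C (P.comp f g) =
      P.comp (P.ltens LC.C f) (P.ltens LC.C g) := fun f g =>
    Helper39.Stab.ltens_comp P.toBiv LC.C f g
  have e1 := Helper39.Stab.ltens_tens_nf P.toBiv LC.C (P.inc (Per.pow p n).c) K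
  have e2 := Helper39.Stab.ltens_homeo P.toBiv LC.C (LC.lunit K).symm
  rw [e0, e0]
  change _ = P.comp (P.toBiv.ltens LC.C (P.toBiv.J (PMap.ofHomeo (LC.lunit K).symm)))
    (P.comp (P.toBiv.ltens LC.C (P.toBiv.tens (P.inc (Per.pow p n).c) K)) (P.ltens LC.C y))
  rw [e1, e2, P.assoc, P.assoc, ← P.assoc (P.J _) (P.J _), ← P.J_comp]
  rfl

end

/-! ### The sum (packet NM10) -/

theorem GF.ext_ev {G H : GF} {f g : G ⟶ H}
    (h : ∀ (b : ℕ) (K : Test) (y : (G.h b).obj (op K)), (GF.ev b K).map f y = (GF.ev b K).map g y) :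
    f = g := by
  refine GF.hom_ext fun b => ?_
  refine NatTrans.ext (funext fun K => ?_)
  exact AddCommGrpCat.hom_ext (AddMonoidHom.ext fun y => h b K.unop y)

section NM10
variable {R : Biv} (P : PRTheory R) {V : LC}

/-- `θ_n` as an isomorphism of groups -/
def thE (p : Per R V) (n : ℕ) (K Z : LC) : P.Hom ((LC.ipow V n).prod K) Z ≃+ P.Hom K Z :=
  AddEquiv.ofBijective (AddMonoidHom.mk' (fun y => th P p n y) (th_add P p n))
    (th_bijective P p n K Z)

theorem thE_apply (p : Per R V) (n : ℕ) {K Z : LC} (y : P.Hom ((LC.ipow V n).prod K) Z) :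
    thE P p n K Z y = th P p n y := rfl

theorem th_symm (p : Per R V) (n : ℕ) {K Z : LC} (w : P.Hom K Z) :
    th P p n ((thE P p n K Z).symm w) = w := (thE P p n K Z).apply_symm_apply w

theorem symm_th (p : Per R V) (n : ℕ) {K Z : LC} (y : P.Hom ((LC.ipow V n).prod K) Z) :
    (thE P p n K Z).symm (th P p n y) = y := (thE P p n K Z).symm_apply_apply y

theorem th_inj (p : Per R V) (n : ℕ) {K Z : LC} {y y' : P.Hom ((LC.ipow V n).prod K) Z}
    (h : th P p n y = th P p n y') : y = y' := (th_bijective P p n K Z).1 h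

theorem next_symm (p : Per R V) (n : ℕ) (x : P.Hom V LC.point) {K Z : LC} (w : P.Hom K Z) :
    P.toBiv.nextx x ((thE P p n K Z).symm w) =
      (thE P p (n + 1) K Z).symm (act (P := P.toBiv) (nrm P p x) w) := by
  refine th_inj P p (n + 1) ?_
  rw [th_next, th_symm, th_symm]

theorem act_inc_J (a : P.Hom LC.point LC.point) {K L Z : LC} (f : PMap K L.plus)
    (z : R.Hom L Z) :
    act (P := P.toBiv) a (P.inc (R.comp (R.J f) z)) =
      P.comp (P.J f) (act (P := P.toBiv) a (P.inc z)) := by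
  rw [P.inc_comp, P.inc_J, act_comp']

theorem act_inc_ltens (a : P.Hom LC.point LC.point) {K Z : LC} (z : R.Hom K Z) :
    act (P := P.toBiv) a (P.inc (R.ltens LC.C z)) =
      P.ltens LC.C (act (P := P.toBiv) a (P.inc z)) := by
  rw [inc_ltens, act_ltens]

/-- the classes of `θ_n⁻¹ (eA (m, ε, M) w)` depend only on `m - n` -/
theorem cls_shift (o : Orient R) (q : Per R LC.C) (p : Per R V) (x : P.Hom V LC.point)
    (N : TeleGF P.toBiv x) (b : ℕ) (K : Test) (n m r : ℕ) (ε : Bool) (M : PL2)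
    (w : P.Hom K.obj (Zb b)) :
    N.cls (n + r) ((thE P p (n + r) K.obj (Zb b)).symm
      (act (P := P.toBiv) (eA P o (nrm P p x) q (m + r, ε, M)) w)) =
    N.cls n ((thE P p n K.obj (Zb b)).symm
      (act (P := P.toBiv) (eA P o (nrm P p x) q (m, ε, M)) w)) := by
  induction r with
  | zero => rfl
  | succ r ih =>
    rw [← ih]
    have h1 := N.cls_next ((thE P p (n + r) K.obj (Zb b)).symm
      (act (P := P.toBiv) (eA P o (nrm P p x) q (m + r, ε, M)) w))
    rw [next_symm, act_act] at h1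
    have h2 := eA_succ P o q (nrm P p x) (m + r) ε M
    rw [← h2] at h1
    exact h1

theorem cls_shift' (o : Orient R) (q : Per R LC.C) (p : Per R V) (x : P.Hom V LC.point)
    (N : TeleGF P.toBiv x) (b : ℕ) (K : Test) (n m n' m' r : ℕ) (hn : n' = n + r)
    (hm : m' = m + r) (ε : Bool) (M : PL2) (w : P.Hom K.obj (Zb b)) :
    N.cls n' ((thE P p n' K.obj (Zb b)).symm
      (act (P := P.toBiv) (eA P o (nrm P p x) q (m', ε, M)) w)) =
    N.cls n ((thE P p n K.obj (Zb b)).symm
      (act (P := P.toBiv) (eA P o (nrm P p x) q (m, ε, M)) w)) := by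
  subst hn hm
  exact cls_shift P o q p x N b K n m r ε M w

end NM10

/-- (NM) The statement of `tele_sum`. With `q` from `β`, `p = Per.homeo φ (…)`, `x̂ = nrm P p x`
(`nrm_x`) and the coefficients `cf` of `exists_coef`: index set `ι = ℤ × Bool × PL2`. The
projections `pr (k, ε, M)` come from `tele_lift` with
`ρ n y = cf (k + n, ε, M) (θ_n y)` if `0 ≤ k + n`, and `0` otherwise (compatible with `nextx` by
`th_next` and the two properties of `cf` and `x̂`). The injections `inj (k, ε, M) : R.gf ⟶ N.H`: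
`z ↦ cls n (θ_n⁻¹ (act (eA (k + n, ε, M)) (inc z)))` for `n = max 0 (-k)` (for every larger `n` the
same, `eA_succ`), with `GF.ofMaps`. Then `inj ≫ pr = δ` from the properties of `cf`, and a class
`cls n y` is the finite sum of the `inj (pr ..)` over the `a ∈ F` of `θ_n y`. -/
theorem tele_sum {R : Biv} (o : Orient R) (P : PRTheory R) {V : LC}
    (φ : V ≃ₜ (Cn 1).prod (Cn 1)) (x : P.Hom V LC.point) (q : ∀ i : ℕ, R.Hom V (Cn i))
    (hx : x = (∑ i ∈ Finset.range 4, P.comp (P.inc (q i)) (P.b o i)) -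
        P.comp (P.J (PMap.ofHomeo φ)) (P.mulPt (P.b o 1) (P.b o 1)))
    (β : R.Hom LC.C LC.point) (hβ : R.Iv β) (N : TeleGF P.toBiv x) :
    ∃ (ι : Type) (_ : Countable ι), Nonempty (IsSum (fun _ : ι => R.gf) N.H) := by
  classical
  obtain ⟨γ, hβγ, hγβ⟩ := hβ
  let q0 : Per R LC.C := ⟨β, γ, hβγ, hγβ⟩
  obtain ⟨p, hp⟩ : ∃ p : Per R V, p = Per.homeo φ ((Per.cn q0 1).prod (Per.cn q0 1)) := ⟨_, rfl⟩
  have hxh := nrm_x P o q0 φ x q hx
  rw [← hp] at hxh
  obtain ⟨cf, c1, c2, c3, c4, c5, c6, c7⟩ := exists_coef P o q0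
    (fun i => R.comp p.c (R.comp (q i) (Per.cn q0 i).b)) (nrm P p x) hxh
  -- the projections
  have hpr : ∀ i : ℤ × Bool × PL2, ∃ F : N.H ⟶ R.gf, ∀ (b n : ℕ) (K : Test)
      (y : P.Hom ((LC.ipow V n).prod K.obj) (Zb b)), (GF.ev b K).map F (N.cls n y) =
        if 0 ≤ i.1 + n then cf K.obj (Zb b) ((i.1 + n).toNat, i.2) (th P p n y) else
          (0 : R.Hom K.obj (Zb b)) := by
    rintro ⟨k, ε, M⟩
    let ρ : ∀ (b n : ℕ) (K : Test), P.Hom ((LC.ipow V n).prod K.obj) (Zb b) →+
        ((R.gf.h b).obj (op K) : Type) := fun b n K =>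
      AddMonoidHom.mk' (M := P.Hom ((LC.ipow V n).prod K.obj) (Zb b)) (G := R.Hom K.obj (Zb b))
        (fun y => if 0 ≤ k + n then
          cf K.obj (Zb b) ((k + n).toNat, ε, M) (th P p n y) else 0) (by
          intro y y'
          by_cases h : 0 ≤ k + n
          · rw [if_pos h, if_pos h, if_pos h, th_add, map_add]
          · rw [if_neg h, if_neg h, if_neg h, add_zero])
    have hρ : ∀ (b n : ℕ) (K : Test) (y : P.Hom ((LC.ipow V n).prod K.obj) (Zb b)),
        ρ b n K y = if 0 ≤ k + n then cf K.obj (Zb b) ((k + n).toNat, ε, M) (th P p n y) else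
          (0 : R.Hom K.obj (Zb b)) := fun _ _ _ _ => rfl
    suffices h : ∃ F : N.H ⟶ R.gf, ∀ (b n : ℕ) (K : Test)
        (y : P.Hom ((LC.ipow V n).prod K.obj) (Zb b)),
        (GF.ev b K).map F (N.cls n y) = ρ b n K y by
      obtain ⟨F, hF⟩ := h
      exact ⟨F, fun b n K y => (hF b n K y).trans (hρ b n K y)⟩
    refine tele_lift N R.gf ρ ?_ ?_ ?_
    · intro b n K y
      rw [hρ, hρ, th_next]
      by_cases h : 0 ≤ k + n
      · have h1 : 0 ≤ k + (n + 1 : ℕ) := by push_cast; omega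
        rw [if_pos h, if_pos h1]
        have h2 : (k + (n + 1 : ℕ)).toNat = (k + n).toNat + 1 := by omega
        rw [h2]
        exact c4 _ _ _ _ _ _
      · rw [if_neg h]
        by_cases h1 : 0 ≤ k + (n + 1 : ℕ)
        · rw [if_pos h1]
          have h2 : (k + (n + 1 : ℕ)).toNat = 0 := by omega
          rw [h2]
          exact c5 _ _ _ _ _
        · rw [if_neg h1]
    · intro b n K L f y
      rw [hρ, hρ, th_nat]
      by_cases h : 0 ≤ k + n
      · rw [if_pos h, if_pos h]
        have h1 := c6 L.obj K.obj (Zb b) ((k + n).toNat, ε, M) (R.J f) (th P p n y)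
        rw [P.inc_J] at h1
        exact h1
      · rw [if_neg h, if_neg h]
        exact (map_zero ((R.gf.h b).map (Quiver.Hom.op (X := K) (Y := L)
          (ObjectProperty.homMk f.cls))).hom).symm
    · intro b n K y
      rw [hρ, hρ]
      have h0 := th_ltens P p n y
      by_cases h : 0 ≤ k + n
      · rw [if_pos h, if_pos h]
        have h1 := c7 K.obj (Zb b) LC.C ((k + n).toNat, ε, M) (th P p n y)
        rw [← h0] at h1
        exact h1
      · rw [if_neg h, if_neg h]
        exact (map_zero ((R.gf.σ b).hom.app (op K)).hom).symm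
  -- the injections
  have hinj : ∀ i : ℤ × Bool × PL2, ∃ F : R.gf ⟶ N.H, ∀ (b : ℕ) (K : Test)
      (z : R.Hom K.obj (Zb b)), (GF.ev b K).map F z =
        N.cls ((-i.1).toNat) ((thE P p ((-i.1).toNat) K.obj (Zb b)).symm
          (act (P := P.toBiv) (eA P o (nrm P p x) q0 (i.1.toNat, i.2)) (P.inc z))) := by
    rintro ⟨k, ε, M⟩
    suffices h : ∃ F : R.gf ⟶ N.H, ∀ (b : ℕ) (K : Test) (z : R.Hom K.obj (Zb b)),
        (GF.ev b K).map F z = ((AddMonoidHom.mk' (fun y => N.cls ((-k).toNat) y)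
          (N.cls_add (b := b) (K := K))).comp
        (thE P p ((-k).toNat) K.obj (Zb b)).symm.toAddMonoidHom).comp
          ((actH (P := P.toBiv) (eA P o (nrm P p x) q0 (k.toNat, ε, M)) K.obj (Zb b)).comp
            (incH P K.obj (Zb b))) z by
      obtain ⟨F, hF⟩ := h
      exact ⟨F, fun b K z => hF b K z⟩
    refine GF.ofMaps R.gf N.H _ ?_ ?_
    · intro b K L f z
      have h1 := N.map_cls f ((thE P p ((-k).toNat) L.obj (Zb b)).symm
          (act (P := P.toBiv) (eA P o (nrm P p x) q0 (k.toNat, ε, M)) (P.inc z)))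
      refine Eq.trans ?_ h1.symm
      refine congrArg (N.cls (-k).toNat) ?_
      refine th_inj P p _ ?_
      rw [th_nat, th_symm]
      refine (th_symm P p _ _).trans ?_
      exact act_inc_J P _ f z
    · intro b K z
      have h1 := N.σ_cls ((thE P p ((-k).toNat) K.obj (Zb b)).symm
          (act (P := P.toBiv) (eA P o (nrm P p x) q0 (k.toNat, ε, M)) (P.inc z)))
      refine Eq.trans ?_ h1.symm
      refine congrArg (N.cls (b := b + 1) (K := Test.cx.obj K) (-k).toNat) ?_
      refine th_inj P p (K := LC.C.prod K.obj) (Z := LC.C.prod (Zb b)) _ ?_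
      refine Eq.trans ?_ (th_ltens P p _ _).symm
      rw [th_symm]
      refine (th_symm P p (K := LC.C.prod K.obj) (Z := LC.C.prod (Zb b)) _ _).trans ?_
      exact act_inc_ltens P _ z
  choose pr hpr using hpr
  choose inj hinj using hinj
  have key0 : ∀ (k : ℤ) (ε : Bool) (M : PL2) (k' : ℤ) (ε' : Bool) (M' : PL2) (b : ℕ) (K : Test)
      (z : R.Hom K.obj (Zb b)),
      (GF.ev b K).map (inj (k, ε, M) ≫ pr (k', ε', M')) z =
        if 0 ≤ k' + ((-k).toNat : ℕ) then
          cf K.obj (Zb b) ((k' + ((-k).toNat : ℕ)).toNat, ε', M')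
            (act (P := P.toBiv) (eA P o (nrm P p x) q0 (k.toNat, ε, M)) (P.inc z)) else
          (0 : R.Hom K.obj (Zb b)) := by
    intro k ε M k' ε' M' b K z
    have h1 : (GF.ev b K).map (inj (k, ε, M) ≫ pr (k', ε', M')) z =
        (GF.ev b K).map (pr (k', ε', M')) ((GF.ev b K).map (inj (k, ε, M)) z) := rfl
    rw [h1, hinj, hpr, th_symm]
  refine ⟨ℤ × Bool × PL2, inferInstance, ⟨⟨inj, pr, ?_, ?_, ?_⟩⟩⟩
  · rintro ⟨k, ε, M⟩
    refine GF.ext_ev fun b K z => ?_
    refine (key0 k ε M k ε M b K z).trans ?_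
    have h2 : 0 ≤ k + ((-k).toNat : ℕ) := by omega
    have h3 : (k + ((-k).toNat : ℕ)).toNat = k.toNat := by omega
    rw [if_pos h2, h3]
    exact c2 _ _ _ _
  · rintro ⟨k, ε, M⟩ ⟨k', ε', M'⟩ hij
    refine GF.ext_ev fun b K z => ?_
    refine (key0 k ε M k' ε' M' b K z).trans ?_
    by_cases h2 : 0 ≤ k' + ((-k).toNat : ℕ)
    · rw [if_pos h2]
      refine c3 _ _ _ _ _ ?_
      intro h3
      apply hij
      have h4 := congrArg Prod.fst h3
      have h5 := congrArg Prod.snd h3
      simp only at h4 h5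
      have h6 : k = k' := by omega
      rw [h6]
      exact congrArg (Prod.mk k') h5.symm
    · rw [if_neg h2]
      rfl
  · intro b K t
    obtain ⟨n, -, y, rfl⟩ := N.surj t 0
    obtain ⟨F, hF⟩ := c1 K.obj (Zb b) (th P p n y)
    refine ⟨F.map ⟨fun a => ((a.1 : ℤ) - n, a.2), ?_⟩, ?_⟩
    · intro a a' h
      have h1 := congrArg Prod.fst h
      have h2 := congrArg Prod.snd h
      simp only at h1 h2
      refine Prod.ext ?_ h2
      omega
    · rw [Finset.sum_map]
      have h1 : y = ∑ a ∈ F, (thE P p n K.obj (Zb b)).symm (act (P := P.toBiv)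
          (eA P o (nrm P p x) q0 a) (P.inc (cf K.obj (Zb b) a (th P p n y)))) := by
        rw [← map_sum, ← hF, symm_th]
      have h2 : N.cls n y = ∑ a ∈ F, N.cls n ((thE P p n K.obj (Zb b)).symm (act (P := P.toBiv)
          (eA P o (nrm P p x) q0 a) (P.inc (cf K.obj (Zb b) a (th P p n y))))) := by
        have h3 := map_sum (AddMonoidHom.mk' (fun y => N.cls n y) (N.cls_add (b := b) (K := K)))
          (fun a => (thE P p n K.obj (Zb b)).symm (act (P := P.toBiv)
          (eA P o (nrm P p x) q0 a) (P.inc (cf K.obj (Zb b) a (th P p n y))))) F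
        rw [← h1] at h3
        exact h3
      refine h2.trans ?_
      refine Finset.sum_congr rfl fun a _ => ?_
      obtain ⟨m, ε, M⟩ := a
      have h3 : (GF.ev b K).map (pr ((m : ℤ) - n, ε, M) ≫ inj ((m : ℤ) - n, ε, M)) (N.cls n y) =
        (GF.ev b K).map (inj ((m : ℤ) - n, ε, M)) ((GF.ev b K).map (pr ((m : ℤ) - n, ε, M))
          (N.cls n y)) := rfl
      refine Eq.trans ?_ h3.symm
      rw [hpr, hinj]
      have h4 : 0 ≤ (m : ℤ) - n + n := by omega
      have h5 : ((m : ℤ) - n + n).toNat = m := by omega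
      simp only [if_pos h4, h5]
      obtain ⟨r, hr1, hr2⟩ : ∃ r : ℕ, n = (-((m : ℤ) - n)).toNat + r ∧
          m = ((m : ℤ) - n).toNat + r := ⟨min m n, by omega, by omega⟩
      exact cls_shift' P o q0 p x N b K _ _ _ _ r hr1 hr2 ε M _

/-! ### The retract (packet TK-C) -/

/-- the identification `V^n = ℂ^n` for `V = ℂ^1`: the new coordinate of `V^(n+1)` is the last one
of `ℂ^(n+1)` -/
def ipowCn {V : LC} (φ : V ≃ₜ Cn 1) : ∀ n : ℕ, LC.ipow V n ≃ₜ Cn n
  | 0 => Homeomorph.refl _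
  | n + 1 => (φ.prodCongr (ipowCn φ n)).trans
      { toFun := fun v => (v.2, v.1.2)
        invFun := fun v => ((PUnit.unit, v.2), v.1)
        left_inv := fun _ => rfl
        right_inv := fun _ => rfl
        continuous_toFun := by fun_prop
        continuous_invFun := by fun_prop }

/-! #### Auxiliary lemmas for `susp_bijective` and `tele_retract` -/

section TC
variable {R : Biv} {K L M Z W A B V : LC}

/-- change of the left factor -/
theorem tc_exch (f : PMap A B.plus) (y : R.Hom Z W) :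
    R.comp (R.J (f.tens Z)) (R.ltens B y) = R.comp (R.ltens A y) (R.J (f.tens W)) := by
  have h := R.exch (R.J f) y
  rw [R.tens_J, R.tens_J] at h
  exact h

/-- left product with a product -/
theorem tc_prod (A B : LC) (z : R.Hom K Z) :
    R.comp (R.J (PMap.ofHomeo (LC.mid A B K))) (R.ltens A (R.ltens B z)) =
      R.comp (R.ltens (A.prod B) z) (R.J (PMap.ofHomeo (LC.mid A B Z))) :=
  Eq.symm (sq_mid3 z A B)

/-- exchange of the left factors -/
theorem tc_ll (A B : LC) (z : R.Hom K Z) :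
    R.comp (R.J (PMap.ofHomeo (ll A B K))) (R.ltens B (R.ltens A z)) =
      R.comp (R.ltens A (R.ltens B z)) (R.J (PMap.ofHomeo (ll A B Z))) := by
  have h := bx_ll (one R A) (one R B) z
  rw [one_bx, one_bx, one_bx, one_bx] at h
  exact h.symm

/-- the point on the left -/
theorem tc_point (z : R.Hom K Z) :
    R.comp (R.ltens LC.point z) (R.J (PMap.ofHomeo (LC.lunit Z))) =
      R.comp (R.J (PMap.ofHomeo (LC.lunit K))) z := by
  have h := point_bx z
  rw [one_bx] at h
  exact h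

/-- left products with homeomorphic spaces -/
theorem tc_bij_homeo (e : A ≃ₜ B)
    (h : Function.Bijective (fun z : R.Hom K Z => R.ltens B z)) :
    Function.Bijective (fun z : R.Hom K Z => R.ltens A z) := by
  have h1 := ((R.invP_homeo e).tens K).pre_bij R (M := B.prod Z)
  have h2 := ((R.invP_homeo e).tens Z).post_bij R (K := A.prod K)
  have e1 : (fun z : R.Hom (A.prod K) (A.prod Z) =>
      R.comp z (R.tens (R.J (PMap.ofHomeo e)) Z)) ∘ (fun z : R.Hom K Z => R.ltens A z) =
      (fun z : R.Hom (B.prod K) (B.prod Z) => R.comp (R.tens (R.J (PMap.ofHomeo e)) K) z) ∘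
        (fun z : R.Hom K Z => R.ltens B z) := by
    funext z
    exact (R.exch (R.J (PMap.ofHomeo e)) z).symm
  exact (Function.Bijective.of_comp_iff' h2 _).1 (by rw [e1]; exact h1.comp h)

theorem tc_bij_point : Function.Bijective (fun z : R.Hom K Z => R.ltens LC.point z) := by
  have h1 := (R.invP_homeo (LC.lunit K)).pre_bij R (M := Z)
  have h2 := (R.invP_homeo (LC.lunit Z)).post_bij R (K := LC.point.prod K)
  have e1 : (fun z : R.Hom (LC.point.prod K) (LC.point.prod Z) =>
      R.comp z (R.J (PMap.ofHomeo (LC.lunit Z)))) ∘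
        (fun z : R.Hom K Z => R.ltens LC.point z) =
      (fun z : R.Hom K Z => R.comp (R.J (PMap.ofHomeo (LC.lunit K))) z) := by
    funext z
    exact tc_point z
  exact (Function.Bijective.of_comp_iff' h2 _).1 (by rw [e1]; exact h1)

theorem tc_bij_prod (hA : ∀ K Z : LC, Function.Bijective (fun z : R.Hom K Z => R.ltens A z))
    (hB : ∀ K Z : LC, Function.Bijective (fun z : R.Hom K Z => R.ltens B z)) (K Z : LC) :
    Function.Bijective (fun z : R.Hom K Z => R.ltens (A.prod B) z) := by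
  have h1 := (R.invP_homeo (LC.mid A B K)).pre_bij R (M := A.prod (B.prod Z))
  have h2 := (R.invP_homeo (LC.mid A B Z)).post_bij R (K := (A.prod B).prod K)
  have e1 : (fun z : R.Hom ((A.prod B).prod K) ((A.prod B).prod Z) =>
      R.comp z (R.J (PMap.ofHomeo (LC.mid A B Z)))) ∘
        (fun z : R.Hom K Z => R.ltens (A.prod B) z) =
      (fun z : R.Hom (A.prod (B.prod K)) (A.prod (B.prod Z)) =>
        R.comp (R.J (PMap.ofHomeo (LC.mid A B K))) z) ∘
        (fun z : R.Hom K Z => R.ltens A (R.ltens B z)) := by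
    funext z
    exact (tc_prod A B z).symm
  exact (Function.Bijective.of_comp_iff' h2 _).1
    (by rw [e1]; exact h1.comp ((hA _ _).comp (hB K Z)))

theorem tc_bij_C1 (K Z : LC) : Function.Bijective (fun z : R.Hom K Z => R.ltens (Cn 1) z) :=
  tc_bij_prod (A := LC.point) (B := LC.C) (fun _ _ => tc_bij_point)
    (fun K Z => R.ltens_C_bijective K Z) K Z

theorem tc_bij_ipow (φ : V ≃ₜ Cn 1) : ∀ (n : ℕ) (K Z : LC),
    Function.Bijective (fun z : R.Hom K Z => R.ltens (LC.ipow V n) z)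
  | 0, _, _ => tc_bij_point
  | n + 1, K, Z => tc_bij_prod (A := V) (B := LC.ipow V n)
      (fun _ _ => tc_bij_homeo φ (tc_bij_C1 _ _)) (tc_bij_ipow φ n) K Z

end TC

/-- suspension by `V^n`, followed by the identification `V^n = ℂ^n` in the target, is bijective -/
theorem susp_bijective {R : Biv} {V : LC} (φ : V ≃ₜ Cn 1) (n : ℕ) (K Z : LC) :
    Function.Bijective (fun z : R.Hom K Z => R.comp (R.ltens (LC.ipow V n) z)
      (R.tens (R.J (PMap.ofHomeo (ipowCn φ n))) Z)) :=
  (((R.invP_homeo (ipowCn φ n)).tens Z).post_bij R (K := (LC.ipow V n).prod K)).comp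
    (tc_bij_ipow φ n K Z)

section TCR
variable {R : Biv} {K L Z V : LC}

/-- suspension by `V^n` with the identification in the target -/
def tcS (φ : V ≃ₜ Cn 1) (n : ℕ) (K Z : LC) :
    R.Hom K Z ≃+ R.Hom ((LC.ipow V n).prod K) ((Cn n).prod Z) :=
  AddEquiv.ofBijective (AddMonoidHom.mk' (fun z : R.Hom K Z => R.comp (R.ltens (LC.ipow V n) z)
      (R.tens (R.J (PMap.ofHomeo (ipowCn φ n))) Z))
    (fun x y => by rw [R.ltens_add, R.add_comp])) (susp_bijective φ n K Z)

theorem tcS_apply (φ : V ≃ₜ Cn 1) (n : ℕ) (z : R.Hom K Z) :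
    tcS φ n K Z z = R.comp (R.ltens (LC.ipow V n) z)
      (R.tens (R.J (PMap.ofHomeo (ipowCn φ n))) Z) := rfl

theorem tcS_next (φ : V ≃ₜ Cn 1) (n : ℕ) (z : R.Hom K Z) :
    tcS φ (n + 1) K Z z =
      R.comp (R.J (PMap.ofHomeo (LC.mid V (LC.ipow V n) K)))
        (R.comp (R.J ((PMap.ofHomeo φ).tens ((LC.ipow V n).prod K)))
          (R.comp (R.ltens (Cn 1) (tcS φ n K Z z))
            (R.J (PMap.ofHomeo (K := (Cn 1).prod ((Cn n).prod Z))
            (L := (Cn (n + 1)).prod Z)
            { toFun := fun v => ((v.2.1, v.1.2), v.2.2)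
              invFun := fun v => ((PUnit.unit, v.1.2), (v.1.1, v.2))
              left_inv := fun _ => rfl
              right_inv := fun _ => rfl
              continuous_toFun := by fun_prop
              continuous_invFun := by fun_prop })))) := by
  rw [← R.assoc (R.J ((PMap.ofHomeo φ).tens ((LC.ipow V n).prod K))), tc_exch, R.assoc, tcS_apply,
    tcS_apply, ltens_comp, R.assoc, ← R.assoc, tc_prod, R.assoc, R.tens_J, R.tens_J, ltens_J,
    ← R.J_comp, ← R.J_comp, ← R.J_comp]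
  rfl

theorem tcS_nat (φ : V ≃ₜ Cn 1) (n : ℕ) (f : PMap K L.plus) (z : R.Hom L Z) :
    R.comp (R.J (PMap.ltens (LC.ipow V n) f)) (tcS φ n L Z z) =
      tcS φ n K Z (R.comp (R.J f) z) := by
  rw [tcS_apply, tcS_apply, R.ltens_J_comp, R.assoc]

theorem tcS_susp (φ : V ≃ₜ Cn 1) (n : ℕ) (z : R.Hom K Z) :
    R.comp (R.J (PMap.ofHomeo (LC.frontC (LC.ipow V n) K)))
      (R.comp (R.ltens LC.C (tcS φ n K Z z)) (R.J (PMap.ofHomeo (ll LC.C (Cn n) Z)))) =
      tcS φ n (LC.C.prod K) (LC.C.prod Z) (R.ltens LC.C z) := by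
  have h := tc_ll (R := R) (LC.ipow V n) LC.C z
  have h1 : R.comp (R.J (PMap.ofHomeo (LC.frontC (LC.ipow V n) K)))
      (R.ltens LC.C (R.ltens (LC.ipow V n) z)) =
      R.comp (R.ltens (LC.ipow V n) (R.ltens LC.C z))
        (R.J (PMap.ofHomeo (ll (LC.ipow V n) LC.C Z))) := h
  rw [tcS_apply, tcS_apply, ltens_comp, R.assoc, ← R.assoc, h1, R.assoc, R.tens_J, R.tens_J,
    ltens_J, ← R.J_comp, ← R.J_comp]
  rfl

theorem tcS_zero (φ : V ≃ₜ Cn 1) (z : R.Hom K Z) :
    R.comp (R.J (PMap.ofHomeo (LC.lunit K)))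
      (R.comp z (R.J (PMap.ofHomeo (LC.lunit Z).symm))) = tcS φ 0 K Z z := by
  have h := tc_point z
  have h1 := J_homeo (R := R) (LC.lunit Z)
  rw [tcS_apply, ← R.assoc, ← h, R.assoc, h1, R.comp_id]
  have h2 : R.tens (R.J (PMap.ofHomeo (ipowCn φ 0))) Z = one R (LC.point.prod Z) := tens_one _ _
  exact ((congrArg (R.comp (R.ltens LC.point z)) h2).trans (R.comp_id _)).symm

/-- the class of `z ∈ R(K, Z)` at the stage `0` -/
def tcI (P : PRTheory R) (V : LC) (z : R.Hom K Z) : P.Hom ((LC.ipow V 0).prod K) Z :=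
  P.comp (K := LC.point.prod K) (L := K) (P.J (PMap.ofHomeo (LC.lunit K))) (P.inc z)

theorem tcI_add (P : PRTheory R) (V : LC) (x y : R.Hom K Z) :
    tcI P V (x + y) = tcI P V x + tcI P V y := by
  have h : P.inc (x + y) = P.inc x + P.inc y := P.inc_add x y
  exact (congrArg (P.comp (P.J (PMap.ofHomeo (LC.lunit K)))) h).trans (P.comp_add _ _ _)

theorem tcI_nat (P : PRTheory R) (V : LC) (f : PMap K L.plus) (y : R.Hom L Z) :
    tcI P V (R.comp (R.J f) y) = P.comp (P.J (PMap.ltens (LC.ipow V 0) f)) (tcI P V y) := by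
  have h : P.inc (R.comp (R.J f) y) = P.comp (P.J f) (P.inc y) := by rw [P.inc_comp, P.inc_J]
  exact (congrArg (P.comp (P.J (PMap.ofHomeo (LC.lunit K)))) h).trans
    (TL69.lunit_nat P.toBiv f (P.inc y))

theorem tcI_susp (P : PRTheory R) (V : LC) (y : R.Hom K Z) :
    tcI P V (R.ltens LC.C y) =
      P.comp (P.J (PMap.ofHomeo (LC.frontC (LC.ipow V 0) K))) (P.ltens LC.C (tcI P V y)) := by
  have h : P.ltens LC.C (P.comp (P.J (PMap.ofHomeo (LC.lunit K))) (P.inc y)) =
      P.comp (P.J (PMap.ltens LC.C (PMap.ofHomeo (LC.lunit K)))) (P.inc (R.ltens LC.C y)) := by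
    rw [inc_ltens, P.ltens_J_comp]
  refine Eq.symm ((congrArg (P.comp (P.J (PMap.ofHomeo (LC.frontC LC.point K)))) h).trans ?_)
  exact (TL69.JJ P.toBiv _ _ _).trans rfl

end TCR

/-- (NF) The statement of `tele_retract`. `i z = cls 0 (inc z)` (with `V^0 × K = K`). The
retraction comes from `tele_lift`: for `y ∈ P(V^n × K, Z)` let `ρ n y` be the element `z ∈ R(K, Z)`
whose suspension (`susp_bijective`) is the coefficient `cf n y` of `b_1^n` (`exists_cfb`). It is
compatible with `nextx` by the second property of `cf`, natural by the third and compatible with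
`σ` by the fourth; `ρ 0 (inc z) = z` by the first. -/
theorem tele_retract {R : Biv} (o : Orient R) (P : PRTheory R) {V : LC} (φ : V ≃ₜ Cn 1)
    (N : TeleGF P.toBiv (P.comp (P.J (PMap.ofHomeo φ)) (P.b o 1))) :
    ∃ (i : R.gf ⟶ N.H) (r : N.H ⟶ R.gf), i ≫ r = 𝟙 _ := by
  obtain ⟨cf, h0, h1, h2, h3⟩ := exists_cfb P o
  -- the map `i`
  obtain ⟨i, hi⟩ := GF.ofMaps R.gf N.H
    (fun b K => AddMonoidHom.mk' (fun z : R.Hom K.obj (Zb b) => N.cls 0 (K := K) (tcI P V z))
      (fun x y => (congrArg (N.cls 0 (K := K)) (tcI_add P V x y)).trans (N.cls_add _ _)))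
    (by
      intro b K L f y
      refine Eq.trans ?_ (N.map_cls f _).symm
      exact congrArg (N.cls 0) (tcI_nat P V f y))
    (by
      intro b K y
      refine Eq.trans ?_ (N.σ_cls _).symm
      exact congrArg (N.cls (b := b + 1) 0 (K := Test.cx.obj K)) (tcI_susp P V y))
  -- the map `r`
  obtain ⟨r, hr⟩ := tele_lift N R.gf
    (fun b n K => ((tcS φ n K.obj (Zb b)).symm.toAddMonoidHom.comp
      (cf ((LC.ipow V n).prod K.obj) (Zb b) n)))
    (by
      intro b n K y
      change (tcS φ (n + 1) K.obj (Zb b)).symm (cf ((LC.ipow V (n + 1)).prod K.obj) (Zb b) (n + 1) _) =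
        (tcS φ n K.obj (Zb b)).symm (cf ((LC.ipow V n).prod K.obj) (Zb b) n y)
      rw [AddEquiv.symm_apply_eq, tcS_next, AddEquiv.apply_symm_apply, ← h1, ← h2, ← h2]
      refine congrArg (cf ((LC.ipow V (n + 1)).prod K.obj) (Zb b) (n + 1)) ?_
      rw [P.inc_J, P.inc_J]
      unfold Biv.nextx Biv.mulx
      rw [P.tens_comp, P.tens_J, P.assoc]
      rfl)
    (by
      intro b n K L f y
      change (tcS φ n K.obj (Zb b)).symm (cf _ (Zb b) n _) =
        R.comp (R.J f) ((tcS φ n L.obj (Zb b)).symm (cf ((LC.ipow V n).prod L.obj) (Zb b) n y))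
      rw [AddEquiv.symm_apply_eq, ← tcS_nat, AddEquiv.apply_symm_apply, ← h2, P.inc_J])
    (by
      intro b n K y
      change (tcS φ n (LC.C.prod K.obj) (LC.C.prod (Zb b))).symm
        (cf ((LC.ipow V n).prod (LC.C.prod K.obj)) (LC.C.prod (Zb b)) n _) =
        R.ltens LC.C ((tcS φ n K.obj (Zb b)).symm (cf ((LC.ipow V n).prod K.obj) (Zb b) n y))
      rw [AddEquiv.symm_apply_eq, ← tcS_susp, AddEquiv.apply_symm_apply, ← h3, ← h2, P.inc_J]
      rfl)
  refine ⟨i, r, ?_⟩
  refine GF.hom_ext fun b => ?_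
  refine NatTrans.ext (funext fun K => AddCommGrpCat.hom_ext (AddMonoidHom.ext fun z => ?_))
  change (r.app b).app K ((i.app b).app K z) = z
  have e1 := hi b K.unop z
  have e2 := hr b 0 K.unop (tcI P V z)
  have e3 : ∀ w : R.Hom K.unop.obj (Zb b), (tcS φ 0 K.unop.obj (Zb b)).symm
      (cf ((LC.ipow V 0).prod K.unop.obj) (Zb b) 0 (tcI P V w)) = w := by
    intro w
    have h5 := h2 K.unop.obj (LC.point.prod K.unop.obj) (Zb b) 0
      (R.J (PMap.ofHomeo (LC.lunit K.unop.obj))) (P.inc w)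
    rw [P.inc_J, h0] at h5
    rw [AddEquiv.symm_apply_eq]
    exact h5.trans (tcS_zero φ w)
  exact (congrArg ((r.app b).app K) e1).trans (e2.trans (e3 z))

end Pool.Agent.Helper84.Sn
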