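import Pool.Agent.Helper1.Stab.Grass

/-! MP_ab4156_gt, layer (I3). Calculus in a bivariant theory `R : Biv`. -/

open Topology Filter Set

noncomputable section

namespace Pool.Agent.Helper84.Sn

open Pool.Agent.Helper1.Stab

/-- the identity element -/
abbrev one (R : Biv) (K : LC) : R.Hom K K := R.J (PMap.id K)

/-- the product `x × y` -/
def bx {R : Biv} {K L Z W : LC} (x : R.Hom K L) (y : R.Hom Z W) : R.Hom (K.prod Z) (L.prod W) :=
  (BivData.comp _ (R.tens x Z) (R.ltens L y))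

variable {R : Biv} {K L M N Z W V U K' L' Z' W' : LC}

/-! ### Additivity (packet CALC-A) -/

/-- composition on the right with `y` as a homomorphism -/
def compRH (K : LC) (y : R.Hom L M) : R.Hom K L →+ R.Hom K M :=
  AddMonoidHom.mk' (fun x => (BivData.comp _ x y)) (fun x x' => R.add_comp x x' y)

/-- composition on the left with `x` as a homomorphism -/
def compLH (M : LC) (x : R.Hom K L) : R.Hom L M →+ R.Hom K M :=
  AddMonoidHom.mk' (fun y => (BivData.comp _ x y)) (fun y y' => R.comp_add x y y')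

/-- product with the identity as a homomorphism -/
def tensH (R : Biv) (K L Z : LC) : R.Hom K L →+ R.Hom (K.prod Z) (L.prod Z) :=
  AddMonoidHom.mk' (fun x => R.tens x Z) (fun x x' => R.tens_add x x' Z)

theorem comp_zero (x : R.Hom K L) : (BivData.comp _ x (0 : R.Hom L M)) = 0 := map_zero (compLH M x)
theorem zero_comp (y : R.Hom L M) : (BivData.comp _ (0 : R.Hom K L) y) = 0 := map_zero (compRH K y)
theorem comp_neg (x : R.Hom K L) (y : R.Hom L M) : (BivData.comp _ x (-y)) = -((BivData.comp _ x y)) := map_neg (compLH M x) y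
theorem neg_comp (x : R.Hom K L) (y : R.Hom L M) : (BivData.comp _ (-x) y) = -((BivData.comp _ x y)) := map_neg (compRH K y) x
theorem comp_sub (x : R.Hom K L) (y y' : R.Hom L M) : (BivData.comp _ x (y - y')) = (BivData.comp _ x y) - (BivData.comp _ x y') :=
  map_sub (compLH M x) y y'
theorem sub_comp (x x' : R.Hom K L) (y : R.Hom L M) : (BivData.comp _ (x - x') y) = (BivData.comp _ x y) - (BivData.comp _ x' y) :=
  map_sub (compRH K y) x x'
theorem comp_sum {ι : Type*} (s : Finset ι) (x : R.Hom K L) (y : ι → R.Hom L M) :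
    (BivData.comp _ x (∑ i ∈ s, y i)) = ∑ i ∈ s, (BivData.comp _ x (y i)) := map_sum (compLH M x) y s
theorem sum_comp {ι : Type*} (s : Finset ι) (x : ι → R.Hom K L) (y : R.Hom L M) :
    (BivData.comp _ (∑ i ∈ s, x i) y) = ∑ i ∈ s, (BivData.comp _ (x i) y) := map_sum (compRH K y) x s
theorem comp_zsmul (n : ℤ) (x : R.Hom K L) (y : R.Hom L M) : (BivData.comp _ x (n • y)) = n • ((BivData.comp _ x y)) :=
  map_zsmul (compLH M x) n y
theorem zsmul_comp (n : ℤ) (x : R.Hom K L) (y : R.Hom L M) : (BivData.comp _ (n • x) y) = n • ((BivData.comp _ x y)) :=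
  map_zsmul (compRH K y) n x

theorem tens_zero (Z : LC) : R.tens (0 : R.Hom K L) Z = 0 := map_zero (tensH R K L Z)
theorem tens_neg (x : R.Hom K L) (Z : LC) : R.tens (-x) Z = -R.tens x Z :=
  map_neg (tensH R K L Z) x
theorem tens_sub (x y : R.Hom K L) (Z : LC) : R.tens (x - y) Z = R.tens x Z - R.tens y Z :=
  map_sub (tensH R K L Z) x y
theorem tens_sum {ι : Type*} (s : Finset ι) (x : ι → R.Hom K L) (Z : LC) :
    R.tens (∑ i ∈ s, x i) Z = ∑ i ∈ s, R.tens (x i) Z := map_sum (tensH R K L Z) x s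
theorem tens_zsmul (n : ℤ) (x : R.Hom K L) (Z : LC) : R.tens (n • x) Z = n • R.tens x Z :=
  map_zsmul (tensH R K L Z) n x

theorem ltens_add (x y : R.Hom K L) (Z : LC) : R.ltens Z (x + y) = R.ltens Z x + R.ltens Z y := by
  unfold BivData.ltens
  rw [R.tens_add, R.add_comp, R.comp_add]

/-- product with the identity as a homomorphism -/
def ltensH (R : Biv) (K L Z : LC) : R.Hom K L →+ R.Hom (Z.prod K) (Z.prod L) :=
  AddMonoidHom.mk' (fun x => R.ltens Z x) (fun x x' => ltens_add x x' Z)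

theorem ltens_zero (Z : LC) : R.ltens Z (0 : R.Hom K L) = 0 := map_zero (ltensH R K L Z)
theorem ltens_neg (x : R.Hom K L) (Z : LC) : R.ltens Z (-x) = -R.ltens Z x :=
  map_neg (ltensH R K L Z) x
theorem ltens_sub (x y : R.Hom K L) (Z : LC) : R.ltens Z (x - y) = R.ltens Z x - R.ltens Z y :=
  map_sub (ltensH R K L Z) x y
theorem ltens_sum {ι : Type*} (s : Finset ι) (x : ι → R.Hom K L) (Z : LC) :
    R.ltens Z (∑ i ∈ s, x i) = ∑ i ∈ s, R.ltens Z (x i) := map_sum (ltensH R K L Z) x s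
theorem ltens_zsmul (n : ℤ) (x : R.Hom K L) (Z : LC) : R.ltens Z (n • x) = n • R.ltens Z x :=
  map_zsmul (ltensH R K L Z) n x

/-! ### The functor `J` (packet CALC-B) -/

theorem J_J (f : PMap K L.plus) (g : PMap L M.plus) : (BivData.comp _ (R.J f) (R.J g)) = R.J (g.comp f) :=
  (R.J_comp f g).symm

theorem J_J_assoc (f : PMap K L.plus) (g : PMap L M.plus) (x : R.Hom M N) :
    (BivData.comp _ (R.J f) (BivData.comp _ (R.J g) x)) = (BivData.comp _ (R.J (g.comp f)) x) := by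
  rw [← R.assoc, J_J]

theorem J_homeo (e : K ≃ₜ L) :
    (BivData.comp _ (R.J (PMap.ofHomeo e)) (R.J (PMap.ofHomeo e.symm))) = one R K := by
  rw [J_J]
  refine congrArg R.J (PMap.ext fun k => ?_)
  exact congrArg (fun z : K => (z : OnePoint K)) (e.symm_apply_apply k)

theorem J_homeo' (e : K ≃ₜ L) :
    (BivData.comp _ (R.J (PMap.ofHomeo e.symm)) (R.J (PMap.ofHomeo e))) = one R L := by
  rw [J_J]
  refine congrArg R.J (PMap.ext fun k => ?_)
  exact congrArg (fun z : L => (z : OnePoint L)) (e.apply_symm_apply k)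

theorem tens_one (K Z : LC) : R.tens (one R K) Z = one R (K.prod Z) := by
  rw [R.tens_J]
  exact congrArg R.J (PMap.box_id K Z)

theorem ltens_J (f : PMap K L.plus) (Z : LC) : R.ltens Z (R.J f) = R.J (PMap.ltens Z f) := by
  unfold BivData.ltens
  rw [R.tens_J, ← R.J_comp, ← R.J_comp, PMap.box_swap]
  rfl

theorem ltens_one (K Z : LC) : R.ltens Z (one R K) = one R (Z.prod K) := by
  rw [ltens_J]
  exact congrArg R.J (PMap.box_id Z K)

theorem ltens_comp (x : R.Hom K L) (y : R.Hom L M) (Z : LC) :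
    R.ltens Z ((BivData.comp _ x y)) = (BivData.comp _ (R.ltens Z x) (R.ltens Z y)) := by
  have h : (BivData.comp _ (R.J (PMap.ofHomeo (LC.swap L Z))) (R.J (PMap.ofHomeo (LC.swap Z L)))) =
      one R (L.prod Z) := J_homeo (LC.swap L Z)
  unfold BivData.ltens
  rw [R.tens_comp, R.assoc, R.assoc, R.assoc, ← R.assoc (R.J (PMap.ofHomeo (LC.swap L Z)))
    (R.J (PMap.ofHomeo (LC.swap Z L))), h, R.id_comp]

theorem bx_J (f : PMap K L.plus) (g : PMap Z W.plus) : (bx (R.J f) (R.J g)) = R.J (f.box g) := by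
  unfold bx
  rw [R.tens_J, ltens_J, J_J, ← PMap.box_comp, PMap.id_comp, PMap.comp_id]

theorem bx_one (x : R.Hom K L) (Z : LC) : (bx x (one R Z)) = R.tens x Z := by
  unfold bx
  rw [ltens_one, R.comp_id]

theorem one_bx (x : R.Hom K L) (Z : LC) : (bx (one R Z) x) = R.ltens Z x := by
  unfold bx
  rw [tens_one, R.id_comp]

theorem one_bx_one (K Z : LC) : (bx (one R K) (one R Z)) = one R (K.prod Z) := by
  rw [bx_one, tens_one]

theorem bx_eq (x : R.Hom K L) (y : R.Hom Z W) : (bx x y) = (BivData.comp _ (R.ltens K y) (R.tens x W)) := R.exch x y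
theorem bx_comp (x : R.Hom K L) (x' : R.Hom L M) (y : R.Hom Z W) (y' : R.Hom W V) :
    (bx ((BivData.comp _ x x')) ((BivData.comp _ y y'))) = (BivData.comp _ ((bx x y)) ((bx x' y'))) := by
  unfold bx
  rw [R.tens_comp, ltens_comp, R.assoc, R.assoc, ← R.assoc (R.tens x' Z), R.exch, R.assoc]

/-! ### Additivity of the product (packet CALC-A) -/

theorem add_bx (x x' : R.Hom K L) (y : R.Hom Z W) : (bx (x + x') y) = (bx x y) + (bx x' y) := by
  unfold bx
  rw [R.tens_add, R.add_comp]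

theorem bx_add (x : R.Hom K L) (y y' : R.Hom Z W) : (bx x (y + y')) = (bx x y) + (bx x y') := by
  unfold bx
  rw [ltens_add, R.comp_add]

/-- the product with `y` as a homomorphism -/
def bxRH (K L : LC) (y : R.Hom Z W) : R.Hom K L →+ R.Hom (K.prod Z) (L.prod W) :=
  AddMonoidHom.mk' (fun x => (bx x y)) (fun x x' => add_bx x x' y)

/-- the product with `x` as a homomorphism -/
def bxLH (Z W : LC) (x : R.Hom K L) : R.Hom Z W →+ R.Hom (K.prod Z) (L.prod W) :=
  AddMonoidHom.mk' (fun y => (bx x y)) (fun y y' => bx_add x y y')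

theorem zero_bx (y : R.Hom Z W) : (bx (0 : R.Hom K L) y) = 0 := map_zero (bxRH K L y)
theorem bx_zero (x : R.Hom K L) : (bx x (0 : R.Hom Z W)) = 0 := map_zero (bxLH Z W x)
theorem neg_bx (x : R.Hom K L) (y : R.Hom Z W) : (bx (-x) y) = -((bx x y)) := map_neg (bxRH K L y) x
theorem bx_neg (x : R.Hom K L) (y : R.Hom Z W) : (bx x (-y)) = -((bx x y)) := map_neg (bxLH Z W x) y
theorem sum_bx {ι : Type*} (s : Finset ι) (x : ι → R.Hom K L) (y : R.Hom Z W) :
    (bx (∑ i ∈ s, x i) y) = ∑ i ∈ s, (bx (x i) y) := map_sum (bxRH K L y) x s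
theorem bx_sum {ι : Type*} (s : Finset ι) (x : R.Hom K L) (y : ι → R.Hom Z W) :
    (bx x (∑ i ∈ s, y i)) = ∑ i ∈ s, (bx x (y i)) := map_sum (bxLH Z W x) y s
theorem zsmul_bx (n : ℤ) (x : R.Hom K L) (y : R.Hom Z W) : (bx (n • x) y) = n • ((bx x y)) :=
  map_zsmul (bxRH K L y) n x
theorem bx_zsmul (n : ℤ) (x : R.Hom K L) (y : R.Hom Z W) : (bx x (n • y)) = n • ((bx x y)) :=
  map_zsmul (bxLH Z W x) n y

/-! ### Reordering of factors (packet CALC-C) -/

/-- A naturality square. -/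
def Sq (f : PMap K M.plus) (x : R.Hom K L) (x' : R.Hom M N) (g : PMap L N.plus) : Prop :=
  (BivData.comp _ x (R.J g)) = (BivData.comp _ (R.J f) x')

theorem Sq.trans {K₁ K₂ K₃ L₁ L₂ L₃ : LC} {f : PMap K₁ K₂.plus} {f' : PMap K₂ K₃.plus}
    {g : PMap L₁ L₂.plus} {g' : PMap L₂ L₃.plus} {x : R.Hom K₁ L₁} {x' : R.Hom K₂ L₂}
    {x'' : R.Hom K₃ L₃} (h : Sq f x x' g) (h' : Sq f' x' x'' g') :
    Sq (f'.comp f) x x'' (g'.comp g) := by
  unfold Sq at *
  rw [R.J_comp, R.J_comp, ← R.assoc, h, R.assoc, h', R.assoc]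

theorem Sq.symm {K₁ K₂ L₁ L₂ : LC} {e : K₁ ≃ₜ K₂} {e' : L₁ ≃ₜ L₂} {x : R.Hom K₁ L₁}
    {x' : R.Hom K₂ L₂} (h : Sq (PMap.ofHomeo e) x x' (PMap.ofHomeo e')) :
    Sq (PMap.ofHomeo e.symm) x' x (PMap.ofHomeo e'.symm) := by
  unfold Sq at *
  have h1 : (BivData.comp _ (R.J (PMap.ofHomeo e.symm)) ((BivData.comp _ (R.J (PMap.ofHomeo e)) x'))) = x' := by
    rw [← R.assoc, J_homeo', one, R.id_comp]
  rw [← h] at h1
  rw [← h1, R.assoc, R.assoc, J_homeo, one, R.comp_id]

theorem Sq.hcomp {K₁ K₂ L₁ L₂ M₁ M₂ : LC} {f : PMap K₁ K₂.plus} {g : PMap L₁ L₂.plus}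
    {h : PMap M₁ M₂.plus} {x : R.Hom K₁ L₁} {x' : R.Hom K₂ L₂} {y : R.Hom L₁ M₁}
    {y' : R.Hom L₂ M₂} (h1 : Sq f x x' g) (h2 : Sq g y y' h) : Sq f ((BivData.comp _ x y)) ((BivData.comp _ x' y')) h := by
  unfold Sq at *
  rw [R.assoc, h2, ← R.assoc, h1, R.assoc]

theorem Sq.tens {K₁ K₂ L₁ L₂ : LC} {f : PMap K₁ K₂.plus} {g : PMap L₁ L₂.plus}
    {x : R.Hom K₁ L₁} {x' : R.Hom K₂ L₂} (h : Sq f x x' g) (Z : LC) :
    Sq (f.tens Z) (R.tens x Z) (R.tens x' Z) (g.tens Z) := by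
  unfold Sq at *
  rw [← R.tens_J, ← R.tens_J, ← R.tens_comp, h, R.tens_comp]

theorem Sq.bx {K₁ K₂ L₁ L₂ Z₁ Z₂ W₁ W₂ : LC} {f : PMap K₁ K₂.plus} {g : PMap L₁ L₂.plus}
    {f' : PMap Z₁ Z₂.plus} {g' : PMap W₁ W₂.plus} {x : R.Hom K₁ L₁} {x' : R.Hom K₂ L₂}
    {y : R.Hom Z₁ W₁} {y' : R.Hom Z₂ W₂} (h : Sq f x x' g) (h' : Sq f' y y' g') :
    Sq (f.box f') ((bx x y)) ((bx x' y')) (g.box g') := by
  unfold Sq at *
  rw [← bx_J, ← bx_J, ← bx_comp, h, h', bx_comp]

theorem sq_id (x : R.Hom K L) : Sq (PMap.id K) x x (PMap.id L) := by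
  unfold Sq
  rw [R.comp_id, R.id_comp]

/-- `Z × x` and `x × Z` -/
theorem sq_ltens (x : R.Hom K L) (Z : LC) :
    Sq (PMap.ofHomeo (LC.swap Z K)) (R.ltens Z x) (R.tens x Z) (PMap.ofHomeo (LC.swap Z L)) := by
  unfold Sq BivData.ltens
  have h : (BivData.comp _ (R.J (PMap.ofHomeo (LC.swap L Z))) (R.J (PMap.ofHomeo (LC.swap Z L)))) =
      one R (L.prod Z) := J_homeo (LC.swap L Z)
  rw [R.assoc, R.assoc, h, one, R.comp_id]

/-- change of the right factor -/
theorem sq_exch (x : R.Hom K L) (f : PMap Z W.plus) :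
    Sq (PMap.ltens K f) (R.tens x Z) (R.tens x W) (PMap.ltens L f) := by
  unfold Sq
  rw [← ltens_J, ← ltens_J]
  exact R.exch x (R.J f)

theorem sq_mid (x : R.Hom K L) (Z W : LC) :
    Sq (PMap.ofHomeo (LC.mid K Z W)) (R.tens (R.tens x Z) W) (R.tens x (Z.prod W))
      (PMap.ofHomeo (LC.mid L Z W)) := R.tens_tens x Z W

theorem sq_mid2 (y : R.Hom L L') (K Z : LC) :
    Sq (PMap.ofHomeo (LC.mid K L Z)) (R.tens (R.ltens K y) Z) (R.ltens K (R.tens y Z))
      (PMap.ofHomeo (LC.mid K L' Z)) := by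
  have h1 := (sq_ltens y K).tens Z
  have h2 := sq_mid y K Z
  have h3 := sq_exch y (PMap.ofHomeo (LC.swap K Z))
  have h4 := (sq_mid y Z K).symm
  have h5 := (sq_ltens (R.tens y Z) K).symm
  have h := (((h1.trans h2).trans h3).trans h4).trans h5
  exact h

theorem sq_mid3 (z : R.Hom Z Z') (K L : LC) :
    Sq (PMap.ofHomeo (LC.mid K L Z)) (R.ltens (K.prod L) z) (R.ltens K (R.ltens L z))
      (PMap.ofHomeo (LC.mid K L Z')) := by
  have h1 := sq_ltens z (K.prod L)
  have h2 := sq_exch z (PMap.ofHomeo (LC.swap K L))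
  have h3 := (sq_mid z L K).symm
  have h4 := (sq_ltens z L).symm.tens K
  have h5 := (sq_ltens (R.ltens L z) K).symm
  have h := (((h1.trans h2).trans h3).trans h4).trans h5
  exact h

/-- symmetry -/
theorem bx_swap (x : R.Hom K L) (y : R.Hom Z W) :
    (BivData.comp _ ((bx x y)) (R.J (PMap.ofHomeo (LC.swap L W)))) = (BivData.comp _ (R.J (PMap.ofHomeo (LC.swap K Z))) ((bx y x))) := by
  have h1 : Sq (PMap.ofHomeo (LC.swap K Z)) ((bx x y)) ((bx y x)) (PMap.ofHomeo (LC.swap L W)) := by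
    rw [bx_eq y x]
    unfold bx
    exact (sq_ltens x Z).symm.hcomp (sq_ltens y L)
  exact h1

/-- associativity -/
theorem bx_assoc (x : R.Hom K K') (y : R.Hom L L') (z : R.Hom Z Z') :
    (BivData.comp _ ((bx ((bx x y)) z)) (R.J (PMap.ofHomeo (LC.mid K' L' Z')))) =
      (BivData.comp _ (R.J (PMap.ofHomeo (LC.mid K L Z))) ((bx x ((bx y z))))) := by
  have h1 : Sq (PMap.ofHomeo (LC.mid K L Z)) ((bx ((bx x y)) z)) ((bx x ((bx y z))))
      (PMap.ofHomeo (LC.mid K' L' Z')) := by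
    unfold bx
    rw [R.tens_comp, ltens_comp, ← R.assoc]
    exact ((sq_mid x L Z).hcomp (sq_mid2 y K' Z)).hcomp (sq_mid3 z K' L')
  exact h1

/-- associativity, other form -/
theorem bx_assoc' (x : R.Hom K K') (y : R.Hom L L') (z : R.Hom Z Z') :
    (BivData.comp _ ((bx x ((bx y z)))) (R.J (PMap.ofHomeo (LC.mid K' L' Z').symm))) =
      (BivData.comp _ (R.J (PMap.ofHomeo (LC.mid K L Z).symm)) ((bx ((bx x y)) z))) := by
  exact Sq.symm (bx_assoc x y z)

/-- right unit -/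
theorem bx_point (x : R.Hom K L) :
    (BivData.comp _ ((bx x (one R LC.point))) (R.J (PMap.ofHomeo (Homeomorph.prodPUnit L : L.prod LC.point ≃ₜ L)))) =
      (BivData.comp _ (R.J (PMap.ofHomeo (Homeomorph.prodPUnit K : K.prod LC.point ≃ₜ K))) x) := by
  rw [bx_one]
  exact R.tens_point x

/-- left unit -/
theorem point_bx (x : R.Hom K L) :
    (BivData.comp _ ((bx (one R LC.point) x)) (R.J (PMap.ofHomeo (Homeomorph.punitProd L : LC.point.prod L ≃ₜ L)))) =
      (BivData.comp _ (R.J (PMap.ofHomeo (Homeomorph.punitProd K : LC.point.prod K ≃ₜ K))) x) := by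
  have h1 : Sq (PMap.ofHomeo (LC.swap LC.point K)) ((bx (one R LC.point) x)) ((bx x (one R LC.point)))
    (PMap.ofHomeo (LC.swap LC.point L)) := bx_swap _ _
  have h2 : Sq _ ((bx x (one R LC.point))) x _ := bx_point x
  exact h1.trans h2

/-- `K × (L × Z) = L × (K × Z)` -/
def ll (K L Z : LC) : K.prod (L.prod Z) ≃ₜ L.prod (K.prod Z) where
  toFun v := (v.2.1, (v.1, v.2.2))
  invFun v := (v.2.1, (v.1, v.2.2))
  left_inv _ := rfl
  right_inv _ := rfl
  continuous_toFun := by fun_prop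
  continuous_invFun := by fun_prop

theorem bx_ll (x : R.Hom K K') (y : R.Hom L L') (z : R.Hom Z Z') :
    (BivData.comp _ ((bx x ((bx y z)))) (R.J (PMap.ofHomeo (ll K' L' Z')))) =
      (BivData.comp _ (R.J (PMap.ofHomeo (ll K L Z))) ((bx y ((bx x z))))) := by
  have h1 : Sq _ _ _ _ := bx_assoc' x y z
  have h2 : Sq _ _ _ _ := bx_swap x y
  have h3 : Sq _ _ _ _ := bx_assoc y x z
  have h := (h1.trans (h2.bx (sq_id z))).trans h3
  exact h

/-- `(K × L) × (Z × W) = (K × Z) × (L × W)` -/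
def mid4 (K L Z W : LC) : (K.prod L).prod (Z.prod W) ≃ₜ (K.prod Z).prod (L.prod W) where
  toFun v := ((v.1.1, v.2.1), (v.1.2, v.2.2))
  invFun v := ((v.1.1, v.2.1), (v.1.2, v.2.2))
  left_inv _ := rfl
  right_inv _ := rfl
  continuous_toFun := by fun_prop
  continuous_invFun := by fun_prop

/-- exchange of the two middle factors -/
theorem bx_mid4 (x : R.Hom K K') (y : R.Hom L L') (z : R.Hom Z Z') (w : R.Hom W W') :
    (BivData.comp _ ((bx ((bx x y)) ((bx z w)))) (R.J (PMap.ofHomeo (mid4 K' L' Z' W')))) =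
      (BivData.comp _ (R.J (PMap.ofHomeo (mid4 K L Z W))) ((bx ((bx x z)) ((bx y w))))) := by
  have h1 : Sq _ _ _ _ := bx_assoc x y ((bx z w))
  have h2 : Sq _ _ _ _ := bx_ll y z w
  have h3 : Sq _ _ _ _ := bx_assoc' x z ((bx y w))
  have h := (h1.trans ((sq_id x).bx h2)).trans h3
  exact h

/-- `(K × L) × Z = (K × Z) × L` -/
def rr (K L Z : LC) : (K.prod L).prod Z ≃ₜ (K.prod Z).prod L where
  toFun v := ((v.1.1, v.2), v.1.2)
  invFun v := ((v.1.1, v.2), v.1.2)
  left_inv _ := rfl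
  right_inv _ := rfl
  continuous_toFun := by fun_prop
  continuous_invFun := by fun_prop

theorem bx_rr (x : R.Hom K K') (y : R.Hom L L') (z : R.Hom Z Z') :
    (BivData.comp _ ((bx ((bx x y)) z)) (R.J (PMap.ofHomeo (rr K' L' Z')))) =
      (BivData.comp _ (R.J (PMap.ofHomeo (rr K L Z))) ((bx ((bx x z)) y))) := by
  have h1 : Sq _ _ _ _ := bx_assoc x y z
  have h2 : Sq _ _ _ _ := bx_swap y z
  have h3 : Sq _ _ _ _ := bx_assoc' x z y
  have h := (h1.trans ((sq_id x).bx h2)).trans h3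
  exact h

/-! ### Maps of compact pairs (packet CALC-D)

`K.opn U` for `K` compact is the pair `(K, Uᶜ)`. -/

/-- A map of compact pairs. -/
def rel {K L : LC} [CompactSpace K] {U : Set K} {V : Set L} (hU : IsOpen U) (hV : IsOpen V)
    (f : C(K, L)) (h : ∀ k, f k ∈ V → k ∈ U) : PMap (K.opn U hU) (L.opn V hV).plus :=
  PMap.ofEmb (K := K.opn U hU) (P := K) Subtype.val IsEmbedding.subtypeVal
    (fun k => PMap.collapse V hV (f k)) ((PMap.collapse V hV).cont.comp f.continuous)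
    (by
      intro p hp
      refine collapseFun_of_notMem fun hV' => hp ?_
      exact ⟨⟨p, h p hV'⟩, rfl⟩)

theorem rel_apply {K L : LC} [CompactSpace K] {U : Set K} {V : Set L} (hU : IsOpen U)
    (hV : IsOpen V) (f : C(K, L)) (h : ∀ k, f k ∈ V → k ∈ U) (k : K.opn U hU) :
    rel hU hV f h k = collapseFun V (f k.1) := rfl

theorem rel_comp {K L M : LC} [CompactSpace K] [CompactSpace L] {U : Set K} {V : Set L} {W : Set M}
    (hU : IsOpen U) (hV : IsOpen V) (hW : IsOpen W)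
    (f : C(K, L)) (h : ∀ k, f k ∈ V → k ∈ U) (g : C(L, M)) (h' : ∀ l, g l ∈ W → l ∈ V) :
    (rel hV hW g h').comp (rel hU hV f h) =
      rel hU hW (g.comp f) (fun k hk => h k (h' (f k) hk)) := by
  refine PMap.ext fun k => ?_
  change (rel hV hW g h').plus (collapseFun V (f k.1)) = collapseFun W (g (f k.1))
  by_cases hk : f k.1 ∈ V
  · have h1 : collapseFun V (f k.1) = ((⟨f k.1, hk⟩ : V) : OnePoint V) :=
      collapseFun_of_mem (⟨f k.1, hk⟩ : V)
    rw [h1]
    rfl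
  · rw [collapseFun_of_notMem hk, collapseFun_of_notMem fun h2 => hk (h' _ h2)]
    rfl

/-- a homotopy of maps of pairs gives a homotopy -/
theorem rel_homotopic {K L : LC} [CompactSpace K] {U : Set K} {V : Set L} (hU : IsOpen U)
    (hV : IsOpen V) (f g : C(K, L)) (hf : ∀ k, f k ∈ V → k ∈ U) (hg : ∀ k, g k ∈ V → k ∈ U)
    (H : C(unitInterval × K, L)) (h0 : ∀ k, H (0, k) = f k) (h1 : ∀ k, H (1, k) = g k)
    (hH : ∀ t k, H (t, k) ∈ V → k ∈ U) :
    (rel hU hV f hf).Homotopic (rel hU hV g hg) := by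
  refine ⟨PMap.ofEmb (K := LC.I.prod (K.opn U hU)) (P := unitInterval × K)
    (fun x => (x.1, x.2.1)) (IsEmbedding.id.prodMap IsEmbedding.subtypeVal)
    (fun p => PMap.collapse V hV (H p)) ((PMap.collapse V hV).cont.comp H.continuous) ?_,
    fun k => ?_, fun k => ?_⟩
  · rintro ⟨t, k⟩ hp
    refine collapseFun_of_notMem fun hV' => hp ?_
    exact ⟨(t, ⟨k, hH t k hV'⟩), rfl⟩
  · change collapseFun V (H (0, k.1)) = collapseFun V (f k.1)
    rw [h0]
  · change collapseFun V (H (1, k.1)) = collapseFun V (g k.1)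
    rw [h1]

/-- a continuous map of compact spaces, as a pointed map -/
def cmap {K L : LC} [CompactSpace K] (f : C(K, L)) : PMap K L.plus :=
  PMap.ofProper f f.continuous (by rw [cocompact_eq_bot]; exact tendsto_bot)

@[simp] theorem cmap_apply {K L : LC} [CompactSpace K] (f : C(K, L)) (k : K) :
    cmap f k = ((f k : L) : OnePoint L) := rfl

theorem cmap_comp {K L M : LC} [CompactSpace K] [CompactSpace L] (f : C(K, L)) (g : C(L, M)) :
    (cmap g).comp (cmap f) = cmap (g.comp f) := rfl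

theorem cmap_homotopic {K L : LC} [CompactSpace K] (f g : C(K, L))
    (H : C(unitInterval × K, L)) (h0 : ∀ k, H (0, k) = f k) (h1 : ∀ k, H (1, k) = g k) :
    (cmap f).Homotopic (cmap g) := by
  refine ⟨PMap.ofProper (K := LC.I.prod K) H H.continuous
    (by
      have : CompactSpace (LC.I.prod K) := inferInstanceAs (CompactSpace (unitInterval × K))
      rw [cocompact_eq_bot]
      exact tendsto_bot), fun k => ?_, fun k => ?_⟩
  · change ((H (0, k) : L) : OnePoint L) = ((f k : L) : OnePoint L)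
    rw [h0]
  · change ((H (1, k) : L) : OnePoint L) = ((g k : L) : OnePoint L)
    rw [h1]

end Pool.Agent.Helper84.Sn
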