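import Mathlib
import Pool.Agent.Helper60.Sn.Tri

/-! MP_ab4156_gt. Change of basis: `H[b_1, b_2, …]` is free over `H` on the
`x^k b_1^ε b_M` for `x = - b_1² + c_0 + c_1 b_1 + c_2 b_2 + c_3 b_3`. Pure algebra. -/

noncomputable section

namespace Pool.Agent.Helper84.Sn

/-- sorted lists of positive integers -/
abbrev PL1 : Type := {L : List ℕ // L.Pairwise (· ≤ ·) ∧ ∀ i ∈ L, 0 < i}

/-- sorted lists of integers `≥ 2` -/
abbrev PL2 : Type := {L : List ℕ // L.Pairwise (· ≤ ·) ∧ ∀ i ∈ L, 2 ≤ i}

/-- exponents `(k, ε, M)` of `x^k b_1^ε b_M`, `ε ∈ {0, 1}` -/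
abbrev AIdx : Type := ℕ × Bool × PL2

/-! ### Auxiliary statements for `FM` -/

theorem idx_aux (l : ℕ) (M : PL2) : (List.replicate l 1 ++ M.1).Pairwise (· ≤ ·) ∧
    ∀ i ∈ List.replicate l 1 ++ M.1, 0 < i := by
  refine ⟨List.pairwise_append.2 ⟨List.pairwise_replicate.2 (Or.inr le_rfl), M.2.1, ?_⟩, ?_⟩
  · intro a ha b hb
    rw [List.eq_of_mem_replicate ha]
    exact le_trans (by norm_num) (M.2.2 b hb)
  · intro i hi
    rcases List.mem_append.1 hi with h | h
    · rw [List.eq_of_mem_replicate h]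
      exact Nat.one_pos
    · exact lt_of_lt_of_le (by norm_num) (M.2.2 i h)

/-- the sorted list `1, …, 1, M` -/
def idxFun (p : ℕ × PL2) : PL1 := ⟨List.replicate p.1 1 ++ p.2.1, idx_aux p.1 p.2⟩

theorem idx_bijective : Function.Bijective idxFun := by
  constructor
  · rintro ⟨l, M⟩ ⟨l', M'⟩ h
    have h1 : List.replicate l 1 ++ M.1 = List.replicate l' 1 ++ M'.1 := congrArg Subtype.val h
    have h0 : ∀ M : PL2, List.count 1 M.1 = 0 := fun M => by
      rw [List.count_eq_zero]
      intro h
      have := M.2.2 1 h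
      omega
    have h2 := congrArg (List.count 1) h1
    rw [List.count_append, List.count_append, List.count_replicate_self,
      List.count_replicate_self, h0, h0, add_zero, add_zero] at h2
    subst h2
    have h3 := List.append_cancel_left h1
    exact congrArg (Prod.mk l) (Subtype.ext h3)
  · rintro ⟨L, hL1, hL2⟩
    have key : ∀ L : List ℕ, L.Pairwise (· ≤ ·) → (∀ i ∈ L, 0 < i) →
        ∃ (l : ℕ) (M : PL2), List.replicate l 1 ++ M.1 = L := by
      intro L
      induction L with
      | nil =>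
        intro _ _
        exact ⟨0, ⟨[], List.Pairwise.nil, fun i hi => absurd hi List.not_mem_nil⟩, rfl⟩
      | cons a L ih =>
        intro h1 h2
        rw [List.pairwise_cons] at h1
        by_cases ha : a = 1
        · obtain ⟨l, M, hM⟩ := ih h1.2 fun i hi => h2 i (List.mem_cons_of_mem _ hi)
          refine ⟨l + 1, M, ?_⟩
          rw [List.replicate_succ, List.cons_append, hM, ha]
        · have ha2 : 2 ≤ a := by
            have := h2 a List.mem_cons_self
            omega
          refine ⟨0, ⟨a :: L, List.pairwise_cons.2 h1, ?_⟩, rfl⟩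
          intro i hi
          rcases List.mem_cons.1 hi with rfl | hi
          · exact ha2
          · exact ha2.trans (h1.1 i hi)
    obtain ⟨l, M, hM⟩ := key L hL1 hL2
    exact ⟨(l, M), Subtype.ext hM⟩

/-- sorted lists are pairs -/
def idxE : ℕ × PL2 ≃ PL1 := Equiv.ofBijective idxFun idx_bijective

/-- `(k, ε, M) ↦ (2 k + ε, M)` -/
def aidxE : AIdx ≃ ℕ × PL2 where
  toFun a := (2 * a.1 + (if a.2.1 then 1 else 0), a.2.2)
  invFun p := (p.1 / 2, decide (p.1 % 2 = 1), p.2)
  left_inv a := by
    obtain ⟨k, ε, M⟩ := a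
    cases ε
    · refine Prod.ext ?_ (Prod.ext ?_ rfl)
      · change (2 * k + 0) / 2 = k
        omega
      · change decide ((2 * k + 0) % 2 = 1) = false
        rw [decide_eq_false_iff_not]
        omega
    · refine Prod.ext ?_ (Prod.ext ?_ rfl)
      · change (2 * k + 1) / 2 = k
        omega
      · change decide ((2 * k + 1) % 2 = 1) = true
        rw [decide_eq_true_iff]
        omega
  right_inv p := by
    obtain ⟨n, M⟩ := p
    refine Prod.ext ?_ rfl
    change 2 * (n / 2) + (if decide (n % 2 = 1) = true then 1 else 0) = n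
    by_cases h : n % 2 = 1
    · rw [if_pos (decide_eq_true h)]
      omega
    · rw [if_neg (by rw [decide_eq_true_iff]; exact h)]
      omega

/-- insertion in a sorted list -/
def insPL (i : ℕ) (hi : 2 ≤ i) (M : PL2) : PL2 :=
  ⟨M.1.orderedInsert (· ≤ ·) i, List.Pairwise.orderedInsert i M.1 M.2.1, fun k hk => by
    rcases (List.mem_orderedInsert (· ≤ ·)).1 hk with rfl | hk
    · exact hi
    · exact M.2.2 k hk⟩

/-- the sum over the pairs -/
theorem curry_sum {G H I : Type} [AddCommGroup G] [AddCommGroup H] (e : I ≃ ℕ × PL2)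
    (u : ℕ → AddMonoid.End G) (j : (PL2 →₀ H) →+ G) (v : I → H →+ G)
    (h : ∀ i h, v i h = u (e i).1 (j (Finsupp.single (e i).2 h))) :
    Function.Bijective (fun f : ℕ →₀ (PL2 →₀ H) => f.sum fun l w => u l (j w)) ↔
    Function.Bijective (fun f : I →₀ H => f.sum fun i h => v i h) := by
  let C : (I →₀ H) ≃+ (ℕ →₀ (PL2 →₀ H)) :=
    (Finsupp.domCongr e).trans Finsupp.curryAddEquiv
  let S : (ℕ →₀ (PL2 →₀ H)) →+ G := Finsupp.liftAddHom fun l => (u l).comp j
  let T : (I →₀ H) →+ G := Finsupp.liftAddHom v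
  have hC : ∀ i h, C (Finsupp.single i h) = Finsupp.single (e i).1 (Finsupp.single (e i).2 h) := by
    intro i h
    change Finsupp.curryAddEquiv (Finsupp.domCongr e (Finsupp.single i h)) = _
    rw [Finsupp.domCongr_apply, Finsupp.equivMapDomain_single]
    exact Finsupp.curry_single (e i) h
  have hST : T = S.comp C.toAddMonoidHom := by
    refine Finsupp.addHom_ext fun i h' => ?_
    change T (Finsupp.single i h') = S (C (Finsupp.single i h'))
    rw [hC]
    have e1 : T (Finsupp.single i h') = v i h' := Finsupp.liftAddHom_apply_single v i h'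
    have e2 : S (Finsupp.single (e i).1 (Finsupp.single (e i).2 h')) =
      u (e i).1 (j (Finsupp.single (e i).2 h')) :=
      Finsupp.liftAddHom_apply_single (fun l => (u l).comp j) _ _
    rw [e1, e2, h]
  change Function.Bijective S ↔ Function.Bijective T
  have h2 : (T : (I →₀ H) → G) = S ∘ C := by
    rw [hST]
    rfl
  rw [h2]
  exact (Function.Bijective.of_comp_iff (S : (ℕ →₀ (PL2 →₀ H)) → G) C.bijective).symm

/-- FM. `G = H[b_1, b_2, …]` as an abelian group: `B i` is the multiplication with `b_i`, `ι` the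
inclusion of `H`, `c j` are commuting scalars. Then `G` is also the sum of the `x^k b_1^ε b_M H`.

Proof. A sorted list of positive integers is `1, …, 1` (`l` times) followed by `M ∈ PL2`; so every
`g ∈ G` is uniquely a finite sum of `B 1 ^ l * (M.map B).prod (ι (h l M))`. Let `F D` be the set of
`g` with `h l M = 0` for `l > D` (`F (-1) = 0`), and `top D g = h D` for `g ∈ F D`; the kernel of
`top D` is `F (D - 1)`. The operators `c j`, `B i` (`i ≥ 2`) map `F D` to itself
(`c j` commutes with the `B i` and maps `ι H` to itself; `B i * (M.map B).prod = (M'.map B).prod`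
with `M'` the sorted list of `i :: M`, since the `B i` commute), and `B 1` maps `F D` to `F (D + 1)`
with `top (D + 1) (B 1 g) = top D g`. So `x` maps `F D` to `F (D + 2)` and
`top (D + 2) (x g) = - top D g`; hence for `D = 2 k + ε`:
`x^k B_1^ε B_M (ι h) ∈ F D` with `top = (-1)^k h` at `M`, `0` elsewhere.
Existence, by induction on `D` for `g ∈ F D`: subtract
`(-1)^k ∑_M x^k B_1^ε B_M (ι (top D g M))`, `D = 2 k + ε`; the difference is in `F (D - 1)`.
Uniqueness: the difference of two families is a family `h` with sum `0`; if it is not zero take the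
largest `D = 2 k + ε` with `h (k, ε, ·) ≠ 0`; the sum is in `F D` and its `top D` is
`(-1)^k h (k, ε, ·) ≠ 0`, a contradiction. -/
theorem FM {G H : Type} [AddCommGroup G] [AddCommGroup H] (ι : H →+ G)
    (B : ℕ → AddMonoid.End G) (c : Fin 4 → AddMonoid.End G) (c' : Fin 4 → AddMonoid.End H)
    (hBB : ∀ i j, B i * B j = B j * B i) (hBc : ∀ i j, B i * c j = c j * B i)
    (hcι : ∀ j h, c j (ι h) = ι (c' j h))
    (hb : Function.Bijective (fun f : PL1 →₀ H => f.sum fun L h => (L.1.map B).prod (ι h)))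
    (x : AddMonoid.End G) (hx : x = c 0 + c 1 * B 1 + c 2 * B 2 + c 3 * B 3 - B 1 * B 1) :
    Function.Bijective (fun f : AIdx →₀ H => f.sum fun a h =>
      (x ^ a.1 * (if a.2.1 then B 1 else 1) * (a.2.2.1.map B).prod) (ι h)) := by
  let V := PL2 →₀ H
  let j : V →+ G := Finsupp.liftAddHom fun M => ((M.1.map B).prod : AddMonoid.End G).comp ι
  have hj : ∀ M h, j (Finsupp.single M h) = (M.1.map B).prod (ι h) := fun M h =>
    Finsupp.liftAddHom_apply_single (fun M : PL2 => ((M.1.map B).prod : AddMonoid.End G).comp ι)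
      M h
  -- the operators on `V`
  have hcomm : ∀ (i : Fin 4) (M : List ℕ), c i * (M.map B).prod = (M.map B).prod * c i := by
    intro i M
    refine Commute.list_prod_right (M.map B) (c i) fun y hy => ?_
    obtain ⟨k, _, rfl⟩ := List.mem_map.1 hy
    exact (hBc k i).symm
  let γ : Fin 4 → AddMonoid.End V := fun i => Finsupp.mapRange.addMonoidHom (c' i)
  have hγ : ∀ i v, c i (j v) = j (γ i v) := by
    intro i v
    have h1 : (c i : G →+ G).comp j = j.comp (γ i : V →+ V) := by
      refine Finsupp.addHom_ext fun M h => ?_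
      change c i (j (Finsupp.single M h)) = j (γ i (Finsupp.single M h))
      have e1 : γ i (Finsupp.single M h) = Finsupp.single M (c' i h) :=
        Finsupp.mapRange_single (hf := map_zero (c' i))
      rw [e1, hj, hj, ← hcι]
      exact congrArg (fun e : AddMonoid.End G => e (ι h)) (hcomm i M.1)
    exact congrArg (fun e : V →+ G => e v) h1
  have hins : ∀ i (hi : 2 ≤ i) (M : PL2),
      ((insPL i hi M).1.map B).prod = B i * (M.1.map B).prod := by
    intro i hi M
    have h1 : ((insPL i hi M).1.map B).Perm ((i :: M.1).map B) :=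
      (List.perm_orderedInsert (· ≤ ·) i M.1).map B
    rw [h1.prod_eq' (List.pairwise_of_forall_mem_list fun a ha b hb => ?_), List.map_cons,
      List.prod_cons]
    obtain ⟨k, _, rfl⟩ := List.mem_map.1 ha
    obtain ⟨l, _, rfl⟩ := List.mem_map.1 hb
    exact hBB k l
  let β : ∀ i, 2 ≤ i → AddMonoid.End V := fun i hi =>
    Finsupp.mapDomain.addMonoidHom (insPL i hi)
  have hβ : ∀ i hi v, B i (j v) = j (β i hi v) := by
    intro i hi v
    have h1 : (B i : G →+ G).comp j = j.comp (β i hi : V →+ V) := by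
      refine Finsupp.addHom_ext fun M h => ?_
      change B i (j (Finsupp.single M h)) = j (β i hi (Finsupp.single M h))
      have e1 : β i hi (Finsupp.single M h) = Finsupp.single (insPL i hi M) h :=
        Finsupp.mapDomain_single
      rw [e1, hj, hj, hins]
      rfl
    exact congrArg (fun e : V →+ G => e v) h1
  -- the abstract statement
  have h2 : (2 : ℕ) ≤ 2 := le_rfl
  have h3 : (2 : ℕ) ≤ 3 := by norm_num
  have hα : ∀ v, (c 0 + c 2 * B 2 + c 3 * B 3) (j v) = j ((γ 0 + γ 2 * β 2 h2 + γ 3 * β 3 h3) v) := by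
    intro v
    change c 0 (j v) + c 2 (B 2 (j v)) + c 3 (B 3 (j v)) =
      j (γ 0 v + γ 2 (β 2 h2 v) + γ 3 (β 3 h3 v))
    rw [map_add, map_add, hβ 2 h2, hβ 3 h3, hγ, hγ, hγ]
  have hαt : (c 0 + c 2 * B 2 + c 3 * B 3) * B 1 = B 1 * (c 0 + c 2 * B 2 + c 3 * B 3) := by
    rw [add_mul, add_mul, mul_add, mul_add, hBc 1 0, mul_assoc, mul_assoc, hBB 2 1, hBB 3 1,
      ← mul_assoc, ← mul_assoc, ← hBc 1 2, ← hBc 1 3, mul_assoc, mul_assoc]
  have hT : Function.Bijective (fun f : ℕ →₀ V => f.sum fun l v => (B 1 ^ l) (j v)) := by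
    refine (curry_sum idxE.symm (fun l => B 1 ^ l) j
      (fun (L : PL1) => ((L.1.map B).prod : AddMonoid.End G).comp ι) ?_).2 hb
    intro L h
    obtain ⟨p, rfl⟩ := idxE.surjective L
    rw [Equiv.symm_apply_apply, hj]
    change (((List.replicate p.1 1 ++ p.2.1).map B).prod) (ι h) = _
    rw [List.map_append, List.prod_append, List.map_replicate, List.prod_replicate]
    rfl
  have hS := Pool.Agent.Helper60.Sn.quad_bijective j (B 1) (c 0 + c 2 * B 2 + c 3 * B 3) (c 1)
    (γ 0 + γ 2 * β 2 h2 + γ 3 * β 3 h3) (γ 1) hα (hγ 1) hαt (hBc 1 1).symm hT x (by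
      rw [hx]
      abel)
  refine (curry_sum aidxE (fun D => x ^ (D / 2) * B 1 ^ (D % 2)) j (fun a =>
    (x ^ a.1 * (if a.2.1 then B 1 else 1) * (a.2.2.1.map B).prod : AddMonoid.End G).comp ι)
    ?_).1 hS
  rintro ⟨k, ε, M⟩ h
  rw [hj]
  cases ε
  · change (x ^ k * 1 * (M.1.map B).prod) (ι h) =
      (x ^ ((2 * k + 0) / 2) * B 1 ^ ((2 * k + 0) % 2)) ((M.1.map B).prod (ι h))
    rw [show (2 * k + 0) / 2 = k by omega, show (2 * k + 0) % 2 = 0 by omega, pow_zero]
    rfl
  · change (x ^ k * B 1 * (M.1.map B).prod) (ι h) =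
      (x ^ ((2 * k + 1) / 2) * B 1 ^ ((2 * k + 1) % 2)) ((M.1.map B).prod (ι h))
    rw [show (2 * k + 1) / 2 = k by omega, show (2 * k + 1) % 2 = 1 by omega, pow_one]
    rfl

end Pool.Agent.Helper84.Sn
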