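import Pool.Agent.Helper84.Sn.Calc
import Pool.Agent.Helper84.Sn.FM
import Pool.Agent.Helper1.Stab.Poly

/-! MP_ab4156_gt. The action of `P(pt, pt)`, periodic theories, and the second basis of
`P = R ∧ BU₊`. -/

open Topology Filter Set

noncomputable section

namespace Pool.Agent.Helper84.Sn

open Pool.Agent.Helper1.Stab

/-! ### The action of `P(pt, pt)` (packet ACT-A) -/

section
variable {P : Biv} {K L M Z W V : LC}

/-- multiplication with `a ∈ P(pt, pt)` on `P(K, Z)` -/
def act (a : P.Hom LC.point LC.point) (y : P.Hom K Z) : P.Hom K Z :=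
  P.comp (P.J (PMap.ofHomeo (LC.lunit K).symm))
    (P.comp (P.tens a K) (P.comp (P.J (PMap.ofHomeo (LC.lunit K))) y))

theorem act_add (a : P.Hom LC.point LC.point) (y y' : P.Hom K Z) :
    act a (y + y') = act a y + act a y' := by
  unfold act
  rw [P.comp_add, P.comp_add, P.comp_add]

/-- multiplication with `a`, as an endomorphism -/
def actH (a : P.Hom LC.point LC.point) (K Z : LC) : AddMonoid.End (P.Hom K Z) :=
  AddMonoidHom.mk' (act a) (act_add a)

@[simp] theorem actH_apply (a : P.Hom LC.point LC.point) (y : P.Hom K Z) :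
    actH a K Z y = act a y := rfl

theorem add_act (a b : P.Hom LC.point LC.point) (y : P.Hom K Z) :
    act (a + b) y = act a y + act b y := by
  unfold act
  rw [P.tens_add, P.add_comp, P.comp_add]

/-- the identity of a point times `y` -/
theorem sq_lunit (y : P.Hom K Z) :
    Sq (PMap.ofHomeo (LC.lunit K)) (P.ltens LC.point y) y (PMap.ofHomeo (LC.lunit Z)) := by
  have h : Sq (PMap.ofHomeo (LC.lunit K)) (bx (one P LC.point) y) y
      (PMap.ofHomeo (LC.lunit Z)) := point_bx y
  rwa [one_bx] at h

/-- `act a y` is the product `a × y` -/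
theorem sq_act (a : P.Hom LC.point LC.point) (y : P.Hom K Z) :
    Sq (PMap.ofHomeo (LC.lunit K)) (bx a y) (act a y) (PMap.ofHomeo (LC.lunit Z)) := by
  have h1 := sq_lunit y
  have h2 : P.comp (P.J (PMap.ofHomeo (LC.lunit K))) (P.J (PMap.ofHomeo (LC.lunit K).symm)) =
      one P (LC.point.prod K) := J_homeo (LC.lunit K)
  unfold Sq at h1 ⊢
  unfold bx act
  rw [P.assoc, h1, ← P.assoc (P.J (PMap.ofHomeo (LC.lunit K))), h2, P.id_comp]

/-- uniqueness of `act a y` -/
theorem act_unique {a : P.Hom LC.point LC.point} {y z : P.Hom K Z}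
    (h : Sq (PMap.ofHomeo (LC.lunit K)) (bx a y) z (PMap.ofHomeo (LC.lunit Z))) :
    z = act a y := by
  have h1 := sq_act a y
  have h2 : P.comp (P.J (PMap.ofHomeo (LC.lunit K).symm)) (P.J (PMap.ofHomeo (LC.lunit K))) =
      one P K := J_homeo' (LC.lunit K)
  unfold Sq at h h1
  have h3 := congrArg (fun x => P.comp (P.J (PMap.ofHomeo (LC.lunit K).symm)) x) (h.symm.trans h1)
  dsimp only at h3
  rw [← P.assoc, ← P.assoc, h2, P.id_comp, P.id_comp] at h3
  exact h3

theorem act_comp (a : P.Hom LC.point LC.point) (y : P.Hom K L) (z : P.Hom L Z) :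
    act a (P.comp y z) = P.comp (act a y) z := by
  unfold act
  rw [P.assoc, P.assoc, P.assoc]

/-- `R.exch`: `(a × K) (pt × y) = (pt × y) (a × L)` -/
theorem act_comp' (a : P.Hom LC.point LC.point) (y : P.Hom K L) (z : P.Hom L Z) :
    act a (P.comp y z) = P.comp y (act a z) := by
  refine (act_unique ?_).symm
  have h1 := (sq_lunit y).hcomp (sq_act a z)
  have h2 : bx a (P.comp y z) = P.comp (P.ltens LC.point y) (bx a z) := by
    have h3 := bx_comp (one P LC.point) a y z
    rw [P.id_comp, one_bx] at h3
    exact h3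
  rw [h2]
  exact h1

/-- on `P(pt, pt)` the action is the composition (`R.tens_point`) -/
theorem act_point (a b : P.Hom LC.point LC.point) : act a b = P.comp a b := by
  have h1 : PMap.ofHomeo (LC.lunit LC.point) =
      PMap.ofHomeo (Homeomorph.prodPUnit LC.point : LC.point.prod LC.point ≃ₜ LC.point) :=
    PMap.ext fun k => rfl
  have h2 := P.tens_point a
  have h3 : P.comp (P.J (PMap.ofHomeo (LC.lunit LC.point).symm))
      (P.J (PMap.ofHomeo (LC.lunit LC.point))) = one P LC.point := J_homeo' (LC.lunit LC.point)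
  unfold act
  rw [← P.assoc (P.tens a LC.point), h1, h2, ← h1, P.assoc, ← P.assoc, h3, P.id_comp]

theorem comp_comm_point (a b : P.Hom LC.point LC.point) : P.comp a b = P.comp b a := by
  have h := act_comp' a b (P.J (PMap.id LC.point))
  rw [P.comp_id, act_point, act_point, P.comp_id] at h
  exact h

theorem act_act (a b : P.Hom LC.point LC.point) (y : P.Hom K Z) :
    act a (act b y) = act (P.comp a b) y := by
  have h2 : P.comp (P.J (PMap.ofHomeo (LC.lunit K))) (P.J (PMap.ofHomeo (LC.lunit K).symm)) =
      one P (LC.point.prod K) := J_homeo (LC.lunit K)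
  unfold act
  rw [← P.assoc (P.J (PMap.ofHomeo (LC.lunit K))), h2, P.id_comp, P.tens_comp, P.assoc]

theorem act_comm (a b : P.Hom LC.point LC.point) (y : P.Hom K Z) :
    act a (act b y) = act b (act a y) := by
  rw [act_act, act_act, comp_comm_point]

theorem act_one (y : P.Hom K Z) : act (P.J (PMap.id LC.point)) y = y := by
  refine (act_unique ?_).symm
  have h := sq_lunit y
  have h1 : bx (P.J (PMap.id LC.point)) y = P.ltens LC.point y := one_bx y LC.point
  rw [h1]
  exact h

theorem act_tens (a : P.Hom LC.point LC.point) (y : P.Hom K Z) (W : LC) :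
    P.tens (act a y) W = act a (P.tens y W) := by
  refine act_unique ?_
  have h1 := (sq_act a y).tens W
  have h2 : Sq _ _ _ _ := bx_assoc' a y (one P W)
  rw [bx_one, bx_one] at h2
  exact h2.trans h1

theorem act_ltens (a : P.Hom LC.point LC.point) (y : P.Hom K Z) (W : LC) :
    P.ltens W (act a y) = act a (P.ltens W y) := by
  refine act_unique ?_
  have h1 := (sq_id (one P W)).bx (sq_act a y)
  have h2 : Sq _ _ _ _ := bx_ll a (one P W) y
  have h3 := h2.trans h1
  rw [one_bx, one_bx] at h3
  exact h3

/-- the action on the target side -/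
theorem act_eq_right (a : P.Hom LC.point LC.point) (y : P.Hom K Z) :
    act a y = P.comp y (P.comp (P.J (PMap.ofHomeo (LC.lunit Z).symm))
      (P.comp (P.tens a Z) (P.J (PMap.ofHomeo (LC.lunit Z))))) := by
  have h := act_comp' a y (P.J (PMap.id Z))
  rw [P.comp_id] at h
  rw [h]
  unfold act
  rw [P.comp_id]

end

end Pool.Agent.Helper84.Sn
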