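import Mathlib

/-! MP_ab4156_gt, layer (I3). The algebra lemma ALG (homology of `ℂP^∞ × BU(n) → BU(n+1)`). -/

noncomputable section

namespace Pool.Agent.Helper84.Sn

/-- `Ψ_i (k, μ) = {k - i} + μ`, and `0` if `k < i` -/
def Psi (i : ℕ) : (ℕ × Multiset ℕ →₀ ℤ) →ₗ[ℤ] (Multiset ℕ →₀ ℤ) :=
  Finsupp.linearCombination ℤ (fun p => if i ≤ p.1 then Finsupp.single ((p.1 - i) ::ₘ p.2) 1 else 0)

/-! ### Auxiliary operators -/

namespace AlgAux

theorem Psi_single (i : ℕ) (p : ℕ × Multiset ℕ) (c : ℤ) : Psi i (Finsupp.single p c) =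
    if i ≤ p.1 then Finsupp.single ((p.1 - i) ::ₘ p.2) c else 0 := by
  rw [Psi, Finsupp.linearCombination_single]
  split_ifs
  · rw [Finsupp.smul_single, smul_eq_mul, mul_one]
  · rw [smul_zero]

theorem succ_map_inj : Function.Injective (Multiset.map Nat.succ) :=
  Multiset.map_injective Nat.succ_injective

theorem cons_zero_inj : Function.Injective fun m : Multiset ℕ => (0 : ℕ) ::ₘ m :=
  fun _ _ h => (Multiset.cons_inj_right 0).1 h

/-- lower all entries by one -/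
def lowE : (Multiset ℕ →₀ ℤ) →ₗ[ℤ] (Multiset ℕ →₀ ℤ) :=
  Finsupp.lcomapDomain (Multiset.map Nat.succ) succ_map_inj

/-- remove one zero -/
def remZ : (Multiset ℕ →₀ ℤ) →ₗ[ℤ] (Multiset ℕ →₀ ℤ) :=
  Finsupp.lcomapDomain (fun m => 0 ::ₘ m) cons_zero_inj

/-- add one zero -/
def addZ : (Multiset ℕ →₀ ℤ) →ₗ[ℤ] (Multiset ℕ →₀ ℤ) :=
  Finsupp.lmapDomain ℤ ℤ (fun m => 0 ::ₘ m)

/-- the pairs `(0, μ)` -/
def zeroT : (Multiset ℕ →₀ ℤ) →ₗ[ℤ] (ℕ × Multiset ℕ →₀ ℤ) :=
  Finsupp.lmapDomain ℤ ℤ (fun m => (0, m))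

/-- raise everything by one -/
def upU : (ℕ × Multiset ℕ →₀ ℤ) →ₗ[ℤ] (ℕ × Multiset ℕ →₀ ℤ) :=
  Finsupp.lmapDomain ℤ ℤ (fun p => (p.1 + 1, p.2.map Nat.succ))

/-- `(k, σ) ↦ (k + 1, {0} + σ)` -/
def upZ : (ℕ × Multiset ℕ →₀ ℤ) →ₗ[ℤ] (ℕ × Multiset ℕ →₀ ℤ) :=
  Finsupp.lmapDomain ℤ ℤ (fun p => (p.1 + 1, 0 ::ₘ p.2))

/-- `(k, σ) ↦ (k + 1, σ)` -/
def upS : (ℕ × Multiset ℕ →₀ ℤ) →ₗ[ℤ] (ℕ × Multiset ℕ →₀ ℤ) :=
  Finsupp.lmapDomain ℤ ℤ (fun p => (p.1 + 1, p.2))

theorem lowE_apply (x : Multiset ℕ →₀ ℤ) (m : Multiset ℕ) : lowE x m = x (m.map Nat.succ) := rfl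
theorem remZ_apply (x : Multiset ℕ →₀ ℤ) (m : Multiset ℕ) : remZ x m = x (0 ::ₘ m) := rfl

theorem lowE_Psi_upU (i : ℕ) (w : ℕ × Multiset ℕ →₀ ℤ) : lowE (Psi i (upU w)) = Psi i w := by
  induction w using Finsupp.induction_linear with
  | zero => simp
  | add a b ha hb => rw [map_add, map_add, map_add, ha, hb, map_add]
  | single p c =>
    rw [upU, Finsupp.lmapDomain_apply, Finsupp.mapDomain_single, Psi_single, Psi_single]
    ext m
    rw [lowE_apply]
    by_cases h1 : i ≤ p.1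
    · rw [if_pos h1, if_pos (by dsimp only; omega)]
      have e : (p.1 + 1 - i) ::ₘ p.2.map Nat.succ = ((p.1 - i) ::ₘ p.2).map Nat.succ := by
        rw [Multiset.map_cons, show p.1 + 1 - i = Nat.succ (p.1 - i) by omega]
      dsimp only
      rw [e, Finsupp.single_apply, Finsupp.single_apply]
      by_cases h2 : (p.1 - i) ::ₘ p.2 = m
      · rw [if_pos h2, if_pos (by rw [h2])]
      · rw [if_neg h2, if_neg (fun h => h2 (succ_map_inj h))]
    · rw [if_neg h1]
      by_cases h2 : i ≤ p.1 + 1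
      · rw [if_pos h2, Finsupp.single_apply, if_neg]
        · rfl
        · intro h3
          have h4 : 0 ∈ m.map Nat.succ := by
            rw [← h3]
            have : p.1 + 1 - i = 0 := by omega
            dsimp only
            rw [this]
            exact Multiset.mem_cons_self _ _
          obtain ⟨a, _, ha⟩ := Multiset.mem_map.1 h4
          exact absurd ha (Nat.succ_ne_zero a)
      · rw [if_neg h2]
        rfl

theorem Psi_zero_zeroT (x : Multiset ℕ →₀ ℤ) : Psi 0 (zeroT x) = addZ x := by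
  induction x using Finsupp.induction_linear with
  | zero => simp
  | add a b ha hb => rw [map_add, map_add, map_add, ha, hb]
  | single m c =>
    rw [zeroT, addZ, Finsupp.lmapDomain_apply, Finsupp.lmapDomain_apply, Finsupp.mapDomain_single,
      Finsupp.mapDomain_single, Psi_single, if_pos (Nat.zero_le _)]
    rfl

theorem Psi_succ_zeroT (i : ℕ) (x : Multiset ℕ →₀ ℤ) : Psi (i + 1) (zeroT x) = 0 := by
  induction x using Finsupp.induction_linear with
  | zero => simp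
  | add a b ha hb => rw [map_add, map_add, ha, hb, add_zero]
  | single m c =>
    rw [zeroT, Finsupp.lmapDomain_apply, Finsupp.mapDomain_single, Psi_single,
      if_neg (by dsimp only; omega)]

theorem Psi_succ_upZ (i : ℕ) (w : ℕ × Multiset ℕ →₀ ℤ) : Psi (i + 1) (upZ w) = addZ (Psi i w) := by
  induction w using Finsupp.induction_linear with
  | zero => simp
  | add a b ha hb => rw [map_add, map_add, map_add, map_add, ha, hb]
  | single p c =>
    rw [upZ, addZ, Finsupp.lmapDomain_apply, Finsupp.mapDomain_single, Psi_single, Psi_single]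
    by_cases h1 : i ≤ p.1
    · rw [if_pos h1, if_pos (by dsimp only; omega), Finsupp.lmapDomain_apply,
        Finsupp.mapDomain_single, Nat.add_sub_add_right, Multiset.cons_swap]
    · rw [if_neg h1, if_neg (by dsimp only; omega), map_zero]

theorem Psi_zero_upZ (w : ℕ × Multiset ℕ →₀ ℤ) : Psi 0 (upZ w) = addZ (Psi 0 (upS w)) := by
  induction w using Finsupp.induction_linear with
  | zero => simp
  | add a b ha hb => rw [map_add, map_add, map_add, map_add, map_add, ha, hb]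
  | single p c =>
    rw [upZ, upS, Finsupp.lmapDomain_apply, Finsupp.mapDomain_single, Finsupp.lmapDomain_apply,
      Finsupp.mapDomain_single, Psi_single, Psi_single,
      if_pos (Nat.zero_le _), if_pos (Nat.zero_le _), addZ, Finsupp.lmapDomain_apply,
        Finsupp.mapDomain_single, Multiset.cons_swap]

theorem addZ_remZ (x : Multiset ℕ →₀ ℤ) (h : lowE x = 0) : addZ (remZ x) = x := by
  ext l
  rw [addZ, Finsupp.lmapDomain_apply]
  by_cases h0 : 0 ∈ l
  · obtain ⟨m, rfl⟩ := Multiset.exists_cons_of_mem h0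
    exact (Finsupp.mapDomain_apply cons_zero_inj _ m).trans (remZ_apply x m)
  · rw [Finsupp.mapDomain_of_notMem_range]
    · have h1 : x l = lowE x (l.map Nat.pred) := by
        rw [lowE_apply, Multiset.map_map]
        congr 1
        symm
        refine (Multiset.map_congr rfl fun a ha => ?_).trans (Multiset.map_id l)
        have : a ≠ 0 := fun h => h0 (h ▸ ha)
        show Nat.succ (Nat.pred a) = a
        exact Nat.succ_pred_eq_of_ne_zero this
      rw [h1, h]
      rfl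
    · rintro ⟨m, hm⟩
      exact h0 (hm ▸ Multiset.mem_cons_self 0 m)

/-- combinations of multisets of size `n` with `i + sum = d` -/
def SA (i n d : ℕ) : Submodule ℤ (Multiset ℕ →₀ ℤ) :=
  Finsupp.supported ℤ ℤ {l | l.card = n ∧ i + l.sum = d}

/-- combinations of pairs -/
def SB (n d : ℕ) : Submodule ℤ (ℕ × Multiset ℕ →₀ ℤ) :=
  Finsupp.supported ℤ ℤ {p | p.2.card = n ∧ p.1 + p.2.sum = d}

theorem mem_SA {i n d : ℕ} {x : Multiset ℕ →₀ ℤ} :
    x ∈ SA i n d ↔ ∀ l, x l ≠ 0 → l.card = n ∧ i + l.sum = d := by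
  rw [SA, Finsupp.mem_supported]
  constructor
  · intro h l hl
    exact h (Finsupp.mem_support_iff.2 hl)
  · intro h l hl
    exact h l (Finsupp.mem_support_iff.1 hl)

theorem mem_SB {n d : ℕ} {x : ℕ × Multiset ℕ →₀ ℤ} :
    x ∈ SB n d ↔ ∀ p, x p ≠ 0 → p.2.card = n ∧ p.1 + p.2.sum = d := by
  rw [SB, Finsupp.mem_supported]
  constructor
  · intro h l hl
    exact h (Finsupp.mem_support_iff.2 hl)
  · intro h l hl
    exact h l (Finsupp.mem_support_iff.1 hl)

theorem lmap_mem {α β : Type} (f : α → β) (S : Set α) (T : Set β) (h : ∀ a ∈ S, f a ∈ T)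
    {x : α →₀ ℤ} (hx : x ∈ Finsupp.supported ℤ ℤ S) :
    Finsupp.lmapDomain ℤ ℤ f x ∈ Finsupp.supported ℤ ℤ T := by
  classical
  rw [Finsupp.mem_supported] at hx ⊢
  rw [Finsupp.lmapDomain_apply]
  intro b hb
  have h1 := Finsupp.mapDomain_support hb
  obtain ⟨a, ha, rfl⟩ := Finset.mem_image.1 h1
  exact h a (hx ha)

theorem Psi_mem {i n d : ℕ} {w : ℕ × Multiset ℕ →₀ ℤ} (hw : w ∈ SB n d) :
    Psi i w ∈ SA i (n + 1) d := by
  rw [Psi, Finsupp.linearCombination_apply, Finsupp.sum]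
  refine Submodule.sum_mem _ fun p hp => Submodule.smul_mem _ _ ?_
  have h1 := mem_SB.1 hw p (Finsupp.mem_support_iff.1 hp)
  by_cases h : i ≤ p.1
  · rw [if_pos h, SA]
    refine Finsupp.single_mem_supported ℤ _ ?_
    show ((p.1 - i) ::ₘ p.2).card = n + 1 ∧ i + ((p.1 - i) ::ₘ p.2).sum = d
    rw [Multiset.card_cons, Multiset.sum_cons]
    omega
  · rw [if_neg h]
    exact Submodule.zero_mem _

theorem upU_mem {n d : ℕ} {w : ℕ × Multiset ℕ →₀ ℤ} (hw : w ∈ SB n d) :
    upU w ∈ SB n (d + (n + 1)) := by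
  refine lmap_mem _ _ _ ?_ hw
  rintro ⟨k, μ⟩ ⟨h1, h2⟩
  dsimp only at h1 h2
  show (μ.map Nat.succ).card = n ∧ k + 1 + (μ.map Nat.succ).sum = d + (n + 1)
  rw [Multiset.card_map]
  have h3 : (μ.map Nat.succ).sum = μ.sum + μ.card := by
    have : μ.map Nat.succ = μ.map (fun a => a + 1) := rfl
    rw [this, Multiset.sum_map_add, Multiset.map_id', Multiset.map_const', Multiset.sum_replicate,
      smul_eq_mul, mul_one]
  rw [h3]
  omega

theorem map_succ_sum (μ : Multiset ℕ) : (μ.map Nat.succ).sum = μ.sum + μ.card := by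
  have : μ.map Nat.succ = μ.map (fun a => a + 1) := rfl
  rw [this, Multiset.sum_map_add, Multiset.map_id', Multiset.map_const', Multiset.sum_replicate,
    smul_eq_mul, mul_one]

theorem zeroT_mem {n d : ℕ} {x : Multiset ℕ →₀ ℤ} (hx : x ∈ SA 0 n d) : zeroT x ∈ SB n d :=
  lmap_mem (fun m : Multiset ℕ => ((0 : ℕ), m)) {l : Multiset ℕ | l.card = n ∧ 0 + l.sum = d}
    {p : ℕ × Multiset ℕ | p.2.card = n ∧ p.1 + p.2.sum = d} (fun _ h => h) hx

theorem upZ_mem {n d : ℕ} {w : ℕ × Multiset ℕ →₀ ℤ} (hw : w ∈ SB n d) :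
    upZ w ∈ SB (n + 1) (d + 1) := by
  refine lmap_mem _ _ _ ?_ hw
  rintro ⟨k, μ⟩ ⟨h1, h2⟩
  dsimp only at h1 h2
  show (0 ::ₘ μ).card = n + 1 ∧ k + 1 + (0 ::ₘ μ).sum = d + 1
  rw [Multiset.card_cons, Multiset.sum_cons]
  omega

theorem upS_mem {n d : ℕ} {w : ℕ × Multiset ℕ →₀ ℤ} (hw : w ∈ SB n d) :
    upS w ∈ SB n (d + 1) := by
  refine lmap_mem _ _ _ ?_ hw
  rintro ⟨k, μ⟩ ⟨h1, h2⟩
  dsimp only at h1 h2
  show μ.card = n ∧ k + 1 + μ.sum = d + 1
  omega

theorem lowE_mem {i n d : ℕ} {x : Multiset ℕ →₀ ℤ} (hx : x ∈ SA i n (d + n)) :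
    lowE x ∈ SA i n d := by
  rw [mem_SA] at hx ⊢
  intro l hl
  obtain ⟨h1, h2⟩ := hx _ (by rwa [lowE_apply] at hl)
  rw [Multiset.card_map] at h1
  rw [map_succ_sum] at h2
  omega

theorem lowE_zero {i n d : ℕ} {x : Multiset ℕ →₀ ℤ} (hx : x ∈ SA i n d) (h : d < n) :
    lowE x = 0 := by
  ext l
  by_contra hl
  obtain ⟨h1, h2⟩ := mem_SA.1 hx _ (by rwa [lowE_apply] at hl)
  rw [Multiset.card_map] at h1
  rw [map_succ_sum] at h2
  omega

theorem remZ_mem {i n d : ℕ} {x : Multiset ℕ →₀ ℤ} (hx : x ∈ SA i (n + 1) d) :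
    remZ x ∈ SA i n d := by
  rw [mem_SA] at hx ⊢
  intro l hl
  obtain ⟨h1, h2⟩ := hx _ (by rwa [remZ_apply] at hl)
  rw [Multiset.card_cons] at h1
  rw [Multiset.sum_cons] at h2
  omega

theorem ALG_aux (n : ℕ) : ∀ (d : ℕ) (τ : ℕ → Multiset ℕ →₀ ℤ),
    (∀ i ≤ n, τ i ∈ SA i (n + 1) d) → ∃ w ∈ SB n d, ∀ i ≤ n, Psi i w = τ i := by
  induction n with
  | zero =>
    intro d
    induction d using Nat.strong_induction_on with
    | _ d ihd =>
    intro τ hτ
    obtain ⟨w, hw, hwτ⟩ : ∃ w ∈ SB 0 d, ∀ i ≤ 0, lowE (Psi i w) = lowE (τ i) := by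
      rcases Nat.lt_or_ge d (0 + 1) with h | h
      · refine ⟨0, Submodule.zero_mem _, fun i hi => ?_⟩
        rw [lowE_zero (hτ i hi) h, map_zero, map_zero]
      · obtain ⟨w, hw, h1⟩ := ihd (d - (0 + 1)) (by omega) (fun i => lowE (τ i)) (fun i hi =>
          lowE_mem (by rw [show d - (0 + 1) + (0 + 1) = d by omega]; exact hτ i hi))
        refine ⟨upU w, ?_, fun i hi => ?_⟩
        · have := upU_mem hw
          rwa [show d - (0 + 1) + (0 + 1) = d by omega] at this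
        · rw [lowE_Psi_upU, h1 i hi]
    have hρ : ∀ i ≤ 0, addZ (remZ (τ i - Psi i w)) = τ i - Psi i w := fun i hi =>
      addZ_remZ _ (by rw [map_sub, hwτ i hi, sub_self])
    refine ⟨w + zeroT (remZ (τ 0 - Psi 0 w)), Submodule.add_mem _ hw (zeroT_mem (remZ_mem
      (Submodule.sub_mem _ (hτ 0 le_rfl) (Psi_mem hw)))), fun i hi => ?_⟩
    obtain rfl : i = 0 := by omega
    rw [map_add, Psi_zero_zeroT, hρ 0 le_rfl, add_sub_cancel]
  | succ n ihn =>
    intro d
    induction d using Nat.strong_induction_on with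
    | _ d ihd =>
    intro τ hτ
    obtain ⟨w, hw, hwτ⟩ : ∃ w ∈ SB (n + 1) d, ∀ i ≤ n + 1, lowE (Psi i w) = lowE (τ i) := by
      rcases Nat.lt_or_ge d (n + 1 + 1) with h | h
      · refine ⟨0, Submodule.zero_mem _, fun i hi => ?_⟩
        rw [lowE_zero (hτ i hi) h, map_zero, map_zero]
      · obtain ⟨w, hw, h1⟩ := ihd (d - (n + 1 + 1)) (by omega) (fun i => lowE (τ i)) (fun i hi =>
          lowE_mem (by rw [show d - (n + 1 + 1) + (n + 1 + 1) = d by omega]; exact hτ i hi))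
        refine ⟨upU w, ?_, fun i hi => ?_⟩
        · have := upU_mem hw
          rwa [show d - (n + 1 + 1) + (n + 1 + 1) = d by omega] at this
        · rw [lowE_Psi_upU, h1 i hi]
    have hρ : ∀ i ≤ n + 1, addZ (remZ (τ i - Psi i w)) = τ i - Psi i w := fun i hi =>
      addZ_remZ _ (by rw [map_sub, hwτ i hi, sub_self])
    have hρm : ∀ i ≤ n + 1, remZ (τ i - Psi i w) ∈ SA i (n + 1) d := fun i hi =>
      remZ_mem (Submodule.sub_mem _ (hτ i hi) (Psi_mem hw))
    obtain ⟨v, hv1, hv2, hv3⟩ : ∃ v, upZ v ∈ SB (n + 1) d ∧ Psi 0 (upS v) ∈ SA 0 (n + 1) d ∧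
        ∀ i ≤ n, Psi i v = remZ (τ (i + 1) - Psi (i + 1) w) := by
      rcases Nat.eq_zero_or_pos d with h | h
      · refine ⟨0, by rw [map_zero]; exact Submodule.zero_mem _,
          by rw [map_zero, map_zero]; exact Submodule.zero_mem _, fun i hi => ?_⟩
        rw [map_zero]
        symm
        ext l
        by_contra hl
        have := mem_SA.1 (hρm (i + 1) (by omega)) l hl
        omega
      · obtain ⟨v, hv, h1⟩ := ihn (d - 1) (fun i => remZ (τ (i + 1) - Psi (i + 1) w)) (fun i hi => by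
          rw [mem_SA]
          intro l hl
          have := mem_SA.1 (hρm (i + 1) (by omega)) l hl
          omega)
        refine ⟨v, ?_, ?_, h1⟩
        · have := upZ_mem hv
          rwa [show d - 1 + 1 = d by omega] at this
        · have := Psi_mem (i := 0) (upS_mem hv)
          rwa [show d - 1 + 1 = d by omega] at this
    refine ⟨w + upZ v + zeroT (remZ (τ 0 - Psi 0 w) - Psi 0 (upS v)),
      Submodule.add_mem _ (Submodule.add_mem _ hw hv1)
        (zeroT_mem (Submodule.sub_mem _ (hρm 0 (by omega)) hv2)), fun i hi => ?_⟩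
    rcases i with _ | i
    · rw [map_add, map_add, Psi_zero_zeroT, Psi_zero_upZ, map_sub, hρ 0 (by omega)]
      abel
    · rw [map_add, map_add, Psi_succ_zeroT, Psi_succ_upZ, hv3 i (by omega), hρ (i + 1) hi]
      abel

end AlgAux

open AlgAux in
/-- ALG. For all targets `τ 0, …, τ n` (combinations of multisets of size `n + 1`, `τ i` of sum
`d - i`) there is a combination `w` of pairs `(k, μ)`, `μ` of size `n`, `k + sum μ = d`, with
`Ψ_i w = τ i` for all `i ≤ n`.

Proof by induction on `n`, and for fixed `n` by strong induction on `d`. Let `V n` be the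
combinations of multisets of size `n`, `M n` those of pairs `(k, μ)` with `μ` of size `n`. Let `E`
be the operator that lowers all entries by one (on pairs: `k` and all entries of `μ`), and gives
`0` if an entry is `0`; let `U` raise all entries by one. `E ∘ U = id`, and `Ψ_i ∘ E = E ∘ Ψ_i` on
`M n` for all `i` (if `k - i ≥ 1`, or an entry of `μ` is zero, clear; if `k = i` then
`E {0} + … = 0` and `E (k, μ) = (k - 1, μ - 1)` with `k - 1 < i`; for `k = i = 0` both sides are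
`0`).
Step: given `τ`, the combinations `E τ i` have sum `d - i - (n+1)`, so by induction on `d` there
is `w'` of degree `d - (n+1)` with `Ψ_i w' = E τ i` (if `d < n + 1` then `E τ i = 0`; take
`w' = 0`). Let `w'' = U w'`, degree `d`. Then `E (τ i - Ψ_i w'') = E τ i - Ψ_i (E U w') = 0`, and
the kernel of `E` consists of the combinations of multisets that contain `0` (`E` is injective on
the multisets without `0`): `τ i - Ψ_i w'' = {0} + ρ i` with `ρ i ∈ V n` of sum `d - i`.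
If `n = 0`: `τ 0 - Ψ_0 w'' = {0} + ρ 0`, add `(0, ρ 0)`.
If `n ≥ 1`: by induction on `n` (with targets `ρ 1, …, ρ n` in `V n`, degree `d - 1`; if `d = 0`
all `ρ i`, `i ≥ 1`, are zero) there is `v ∈ M (n-1)` with `Ψ_i v = ρ (i+1)` for `i ≤ n - 1`. Put
`v' = ∑ v (k, σ) (k + 1, {0} + σ)`. Then `Ψ_(i+1) v' = {0} + Ψ_i v = {0} + ρ (i+1)` for
`0 ≤ i ≤ n - 1`, and `Ψ_0 v'` is a combination of multisets that contain `0`:
`Ψ_0 v' = {0} + π`. Finally `Ψ_0 (0, μ) = {0} + μ` and `Ψ_i (0, μ) = 0` for `i > 0`: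
`w = w'' + v' + (0, ρ 0 - π)`. -/
theorem ALG (n d : ℕ) (τ : ℕ → Multiset ℕ →₀ ℤ)
    (hτ : ∀ i ≤ n, ∀ l ∈ (τ i).support, l.card = n + 1 ∧ i + l.sum = d) :
    ∃ w : ℕ × Multiset ℕ →₀ ℤ, (∀ p ∈ w.support, p.2.card = n ∧ p.1 + p.2.sum = d) ∧
      ∀ i ≤ n, Psi i w = τ i := by
  obtain ⟨w, hw, h⟩ := ALG_aux n d τ (fun i hi => mem_SA.2 fun l hl =>
    hτ i hi l (Finsupp.mem_support_iff.2 hl))
  exact ⟨w, fun p hp => mem_SB.1 hw p (Finsupp.mem_support_iff.1 hp), h⟩

end Pool.Agent.Helper84.Sn
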