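import Pool.Agent.Helper84.Sn.Calc

/-! MP_ab4156_gt, layer (I3). Direct sum decompositions and the five lemma. -/

open Topology Filter Set

noncomputable section

namespace Pool.Agent.Helper84.Sn

open Pool.Agent.Helper1.Stab

variable {R : Biv} {K L M N Z W V U : LC}

/-! ### Isomorphisms (packet DEC-A) -/

/-- `x` is invertible -/
def Inv (x : R.Hom K L) : Prop := ∃ y : R.Hom L K, (BivData.comp _ x y) = one R K ∧ (BivData.comp _ y x) = one R L

theorem Inv.homeo (e : K ≃ₜ L) : Inv (R.J (PMap.ofHomeo e)) :=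
  ⟨R.J (PMap.ofHomeo e.symm), J_homeo e, J_homeo' e⟩
theorem Inv.one (K : LC) : Inv (one R K) := ⟨_, R.id_comp _, R.id_comp _⟩
theorem Inv.comp {x : R.Hom K L} {y : R.Hom L M} (hx : Inv x) (hy : Inv y) : Inv ((BivData.comp _ x y)) := by
  obtain ⟨x', h1, h2⟩ := hx
  obtain ⟨y', h3, h4⟩ := hy
  refine ⟨(BivData.comp _ y' x'), ?_, ?_⟩
  · rw [R.assoc, ← R.assoc y, h3, R.id_comp, h1]
  · rw [R.assoc, ← R.assoc x', h2, R.id_comp, h4]
theorem Inv.bx {x : R.Hom K L} {y : R.Hom Z W} (hx : Inv x) (hy : Inv y) : Inv ((bx x y)) := by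
  obtain ⟨x', h1, h2⟩ := hx
  obtain ⟨y', h3, h4⟩ := hy
  refine ⟨(Sn.bx x' y'), ?_, ?_⟩
  · rw [← bx_comp, h1, h3, one_bx_one]
  · rw [← bx_comp, h2, h4, one_bx_one]
theorem Inv.tens {x : R.Hom K L} (hx : Inv x) (Z : LC) : Inv (R.tens x Z) := by
  obtain ⟨x', h1, h2⟩ := hx
  refine ⟨R.tens x' Z, ?_, ?_⟩
  · rw [← R.tens_comp, h1, tens_one]
  · rw [← R.tens_comp, h2, tens_one]
theorem Inv.ltens {x : R.Hom K L} (hx : Inv x) (Z : LC) : Inv (R.ltens Z x) := by
  obtain ⟨x', h1, h2⟩ := hx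
  refine ⟨R.ltens Z x', ?_, ?_⟩
  · rw [← ltens_comp, h1, ltens_one]
  · rw [← ltens_comp, h2, ltens_one]
theorem Inv.cancel_left {x : R.Hom K L} (hx : Inv x) {y y' : R.Hom L M} (h : (BivData.comp _ x y) = (BivData.comp _ x y')) :
    y = y' := by
  obtain ⟨x', h1, h2⟩ := hx
  have h3 : R.J (PMap.id L) = (BivData.comp _ x' x) := h2.symm
  rw [← R.id_comp y, ← R.id_comp y', h3, R.assoc, R.assoc, h]
theorem Inv.cancel_right {x : R.Hom L M} (hx : Inv x) {y y' : R.Hom K L} (h : (BivData.comp _ y x) = (BivData.comp _ y' x)) :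
    y = y' := by
  obtain ⟨x', h1, h2⟩ := hx
  have h3 : R.J (PMap.id L) = (BivData.comp _ x x') := h1.symm
  rw [← R.comp_id y, ← R.comp_id y', h3, ← R.assoc, ← R.assoc, h]
theorem Inv.of_comp_left {x : R.Hom K L} {y : R.Hom L M} (hx : Inv x) (h : Inv ((BivData.comp _ x y))) : Inv y := by
  obtain ⟨x', h1, h2⟩ := hx
  have h3 : Inv x' := ⟨x, h2, h1⟩
  have h4 := h3.comp h
  rw [← R.assoc, h2, R.id_comp] at h4
  exact h4
theorem Inv.of_comp_right {x : R.Hom K L} {y : R.Hom L M} (hy : Inv y) (h : Inv ((BivData.comp _ x y))) :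
    Inv x := by
  obtain ⟨y', h1, h2⟩ := hy
  have h3 : Inv y' := ⟨y, h2, h1⟩
  have h4 := h.comp h3
  rw [R.assoc, h1, R.comp_id] at h4
  exact h4

/-! ### Decompositions (packet DEC-A) -/

/-- `K` is the direct sum of the `L i`, with projections `τ i`. -/
def IsDec {ι : Type} [Fintype ι] {L : ι → LC} (τ : ∀ i, R.Hom K (L i)) : Prop :=
  ∃ σ : ∀ i, R.Hom (L i) K, (∑ i, (BivData.comp _ (τ i) (σ i)) = one R K) ∧ (∀ i, (BivData.comp _ (σ i) (τ i)) = one R (L i)) ∧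
    ∀ i j, i ≠ j → (BivData.comp _ (σ i) (τ j)) = 0

/-- Yoneda. (⇒) clear. (⇐) surjectivity for `Z = K` gives `σ` with `∑ τ i ⬝ σ i = 1`; then
`∑ i, τ i ⬝ (σ i ⬝ τ j - δ i j) = 0` and injectivity for `Z = L j`. -/
theorem isDec_iff {ι : Type} [Fintype ι] {L : ι → LC} (τ : ∀ i, R.Hom K (L i)) :
    IsDec τ ↔ ∀ Z : LC, Function.Bijective (fun z : ∀ i, R.Hom (L i) Z => ∑ i, (BivData.comp _ (τ i) (z i))) := by
  classical
  constructor
  · rintro ⟨σ, h1, h2, h3⟩ Z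
    have key : ∀ (z : ∀ i, R.Hom (L i) Z) (j : ι), (BivData.comp _ (σ j) (∑ i, (BivData.comp _ (τ i) (z i)))) = z j := by
      intro z j
      rw [comp_sum, Finset.sum_eq_single j]
      · rw [← R.assoc, h2, R.id_comp]
      · intro i _ hi
        rw [← R.assoc, h3 j i (Ne.symm hi), zero_comp]
      · intro hj
        exact absurd (Finset.mem_univ j) hj
    refine ⟨fun z z' hz => ?_, fun x => ⟨fun i => (BivData.comp _ (σ i) x), ?_⟩⟩
    · funext j
      rw [← key z j, ← key z' j]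
      exact congrArg (fun w => (BivData.comp _ (σ j) w)) hz
    · show ∑ i, (BivData.comp _ (τ i) (BivData.comp _ (σ i) x)) = x
      simp_rw [← R.assoc]
      rw [← sum_comp, h1, R.id_comp]
  · intro h
    obtain ⟨σ, hσ⟩ := (h K).2 (one R K)
    have hσ' : ∑ i, (BivData.comp _ (τ i) (σ i)) = one R K := hσ
    have key : ∀ j, (fun i => (BivData.comp _ (σ i) (τ j))) =
        Function.update (fun i => (0 : R.Hom (L i) (L j))) j (one R (L j)) := by
      intro j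
      apply (h (L j)).1
      show ∑ i, (BivData.comp _ (τ i) (BivData.comp _ (σ i) (τ j))) = ∑ i, (BivData.comp _ (τ i) (Function.update (fun i => (0 : R.Hom (L i) (L j))) j (one R (L j)) i))
      simp_rw [← R.assoc]
      rw [← sum_comp, hσ', R.id_comp, Finset.sum_eq_single j]
      · rw [Function.update_self, R.comp_id]
      · intro i _ hi
        rw [Function.update_of_ne hi, comp_zero]
      · intro hj
        exact absurd (Finset.mem_univ j) hj
    refine ⟨σ, hσ', fun i => ?_, fun i j hij => ?_⟩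
    · have := congrFun (key i) i
      rwa [Function.update_self] at this
    · have := congrFun (key j) i
      rwa [Function.update_of_ne hij] at this

/-- every element on an empty space is zero -/
theorem hom_isEmpty_aux (h : IsEmpty K) (x : R.Hom K L) : x = 0 := by
  have h1 : PMap.id K = PMap.zero K K.plus := PMap.ext fun k => (h.false k).elim
  rw [← R.id_comp x, h1, R.J_zero, zero_comp]

section
variable {ι : Type} [Fintype ι] {L : ι → LC} {τ : ∀ i, R.Hom K (L i)}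

/-- an element of `R(M, K)` is determined by its components -/
theorem IsDec.ext (h : IsDec τ) {s s' : R.Hom M K} (hs : ∀ i, (BivData.comp _ s (τ i)) = (BivData.comp _ s' (τ i))) : s = s' := by
  obtain ⟨σ, h1, -, -⟩ := h
  have h2 : R.J (PMap.id K) = ∑ i, (BivData.comp _ (τ i) (σ i)) := h1.symm
  rw [← R.comp_id s, ← R.comp_id s', h2, comp_sum, comp_sum]
  refine Finset.sum_congr rfl fun i _ => ?_
  rw [← R.assoc, ← R.assoc, hs]

/-- an element of `R(K, Z)` is determined by its restrictions -/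
theorem IsDec.inj (h : IsDec τ) {z : ∀ i, R.Hom (L i) Z} (hz : ∑ i, (BivData.comp _ (τ i) (z i)) = 0) (i : ι) :
    z i = 0 := by
  have h1 := ((isDec_iff τ).1 h Z).1
  have h2 : z = fun _ => 0 := by
    apply h1
    show ∑ i, (BivData.comp _ (τ i) (z i)) = ∑ i, (BivData.comp _ (τ i) (0 : R.Hom (L i) Z))
    rw [hz]
    simp_rw [comp_zero]
    rw [Finset.sum_const_zero]
  exact congrFun h2 i

theorem IsDec.surj (h : IsDec τ) (x : R.Hom K Z) : ∃ z : ∀ i, R.Hom (L i) Z, x = ∑ i, (BivData.comp _ (τ i) (z i)) := by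
  obtain ⟨z, hz⟩ := ((isDec_iff τ).1 h Z).2 x
  exact ⟨z, hz.symm⟩

theorem IsDec.tens (h : IsDec τ) (Z : LC) : IsDec (fun i => R.tens (τ i) Z) := by
  obtain ⟨σ, h1, h2, h3⟩ := h
  refine ⟨fun i => R.tens (σ i) Z, ?_, fun i => ?_, fun i j hij => ?_⟩
  · simp_rw [← R.tens_comp]
    rw [← tens_sum, h1, tens_one]
  · rw [← R.tens_comp, h2, tens_one]
  · rw [← R.tens_comp, h3 i j hij, tens_zero]

theorem IsDec.ltens (h : IsDec τ) (Z : LC) : IsDec (fun i => R.ltens Z (τ i)) := by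
  obtain ⟨σ, h1, h2, h3⟩ := h
  refine ⟨fun i => R.ltens Z (σ i), ?_, fun i => ?_, fun i j hij => ?_⟩
  · simp_rw [← ltens_comp]
    rw [← ltens_sum, h1, ltens_one]
  · rw [← ltens_comp, h2, ltens_one]
  · rw [← ltens_comp, h3 i j hij, ltens_zero]

theorem IsDec.comp_left (h : IsDec τ) {a : R.Hom M K} (ha : Inv a) : IsDec (fun i => (BivData.comp _ a (τ i))) := by
  obtain ⟨σ, h1, h2, h3⟩ := h
  obtain ⟨a', k1, k2⟩ := ha
  have k3 : ∀ i j, (BivData.comp _ ((BivData.comp _ (σ i) a')) ((BivData.comp _ a (τ j)))) = (BivData.comp _ (σ i) (τ j)) := by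
    intro i j
    rw [R.assoc, ← R.assoc a', k2, R.id_comp]
  refine ⟨fun i => (BivData.comp _ (σ i) a'), ?_, fun i => ?_, fun i j hij => ?_⟩
  · have k4 : ∀ i, (BivData.comp _ ((BivData.comp _ a (τ i))) ((BivData.comp _ (σ i) a'))) = (BivData.comp _ a (BivData.comp _ ((BivData.comp _ (τ i) (σ i))) a')) := by
      intro i
      rw [R.assoc, ← R.assoc (τ i)]
    simp_rw [k4]
    rw [← comp_sum, ← sum_comp, h1, R.id_comp, k1]
  · rw [k3, h2]
  · rw [k3, h3 i j hij]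

theorem IsDec.of_comp_left {a : R.Hom M K} (ha : Inv a) (h : IsDec (fun i => (BivData.comp _ a (τ i)))) :
    IsDec τ := by
  obtain ⟨a', k1, k2⟩ := ha
  have k3 : Inv a' := ⟨a, k2, k1⟩
  have k4 := h.comp_left k3
  have k5 : (fun i => (BivData.comp _ a' (BivData.comp _ a (τ i)))) = τ := by
    funext i
    rw [← R.assoc, k2, R.id_comp]
  rwa [k5] at k4

theorem IsDec.comp_right (h : IsDec τ) {L' : ι → LC} {b : ∀ i, R.Hom (L i) (L' i)}
    (hb : ∀ i, Inv (b i)) : IsDec (fun i => (BivData.comp _ (τ i) (b i))) := by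
  obtain ⟨σ, h1, h2, h3⟩ := h
  choose b' k1 k2 using hb
  refine ⟨fun i => (BivData.comp _ (b' i) (σ i)), ?_, fun i => ?_, fun i j hij => ?_⟩
  · rw [← h1]
    refine Finset.sum_congr rfl fun i _ => ?_
    rw [R.assoc, ← R.assoc (b i), k1, R.id_comp]
  · rw [R.assoc, ← R.assoc (σ i), h2, R.id_comp, k2]
  · rw [R.assoc, ← R.assoc (σ i), h3 i j hij, zero_comp, comp_zero]

theorem IsDec.of_isEmpty (hK : IsEmpty K) (hL : ∀ i, IsEmpty (L i)) : IsDec τ :=
  ⟨fun _ => 0, (hom_isEmpty_aux hK _).trans (hom_isEmpty_aux hK _).symm,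
    fun i => (hom_isEmpty_aux (hL i) _).trans (hom_isEmpty_aux (hL i) _).symm,
    fun i _ _ => hom_isEmpty_aux (hL i) _⟩
end

/-- two summands -/
def IsDec2 (a : R.Hom K L) (b : R.Hom K M) : Prop :=
  ∃ (s : R.Hom L K) (t : R.Hom M K), (BivData.comp _ a s) + (BivData.comp _ b t) = one R K ∧ (BivData.comp _ s a) = one R L ∧
    (BivData.comp _ t b) = one R M ∧ (BivData.comp _ s b) = 0 ∧ (BivData.comp _ t a) = 0

/-- first summand and the decomposition of the second one -/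
theorem IsDec2.cons {a : R.Hom K L} {b : R.Hom K M} (h : IsDec2 a b) {n : ℕ}
    {Q : Fin (n + 1) → LC} (τ : ∀ i, R.Hom K (Q i)) (e : R.Hom L (Q 0)) (he : Inv e)
    (h0 : τ 0 = (BivData.comp _ a e)) (υ : ∀ i : Fin n, R.Hom M (Q i.succ)) (hυ : IsDec υ)
    (hs : ∀ i : Fin n, τ i.succ = (BivData.comp _ b (υ i))) : IsDec τ := by
  obtain ⟨s, t, h1, h2, h3, h4, h5⟩ := h
  obtain ⟨σ, g1, g2, g3⟩ := hυ
  obtain ⟨e', e1, e2⟩ := he
  have c00 : (BivData.comp _ ((BivData.comp _ e' s)) ((BivData.comp _ a e))) = one R (Q 0) := by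
    rw [R.assoc, ← R.assoc s, h2, R.id_comp, e2]
  have c0 : ∀ i : Fin n, (BivData.comp _ ((BivData.comp _ e' s)) ((BivData.comp _ b (υ i)))) = 0 := by
    intro i
    rw [R.assoc, ← R.assoc s, h4, zero_comp, comp_zero]
  have c1 : ∀ i : Fin n, (BivData.comp _ ((BivData.comp _ (σ i) t)) ((BivData.comp _ a e))) = 0 := by
    intro i
    rw [R.assoc, ← R.assoc t, h5, zero_comp, comp_zero]
  have c2 : ∀ i j : Fin n, (BivData.comp _ ((BivData.comp _ (σ i) t)) ((BivData.comp _ b (υ j)))) = (BivData.comp _ (σ i) (υ j)) := by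
    intro i j
    rw [R.assoc, ← R.assoc t, h3, R.id_comp]
  refine ⟨Fin.cases ((BivData.comp _ e' s)) (fun i => (BivData.comp _ (σ i) t)), ?_, ?_, ?_⟩
  · rw [Fin.sum_univ_succ]
    simp only [Fin.cases_zero, Fin.cases_succ]
    have k1 : (BivData.comp _ (τ 0) (BivData.comp _ e' s)) = (BivData.comp _ a s) := by
      rw [h0, R.assoc, ← R.assoc e, e1, R.id_comp]
    have k2 : ∀ i : Fin n, (BivData.comp _ (τ i.succ) (BivData.comp _ (σ i) t)) = (BivData.comp _ b (BivData.comp _ ((BivData.comp _ (υ i) (σ i))) t)) := by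
      intro i
      rw [hs, R.assoc, ← R.assoc (υ i)]
    rw [k1]
    simp_rw [k2]
    rw [← comp_sum, ← sum_comp, g1, R.id_comp, h1]
  · intro i
    refine Fin.cases ?_ (fun i => ?_) i
    · simp only [Fin.cases_zero]
      rw [h0, c00]
    · simp only [Fin.cases_succ]
      rw [hs, c2, g2]
  · intro i j
    refine Fin.cases (fun hij => ?_) (fun i => ?_) i
    · obtain ⟨j, rfl⟩ := Fin.exists_succ_eq.2 (Ne.symm hij)
      simp only [Fin.cases_zero]
      rw [hs, c0]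
    · refine Fin.cases (fun _ => ?_) (fun j hij => ?_) j
      · simp only [Fin.cases_succ]
        rw [h0, c1]
      · simp only [Fin.cases_succ]
        rw [hs, c2, g3 i j fun hc => hij (by rw [hc])]

/-- every element on an empty space is zero: `J (id) = J (zero)` -/
theorem hom_isEmpty (h : IsEmpty K) (x : R.Hom K L) : x = 0 := hom_isEmpty_aux h x

theorem isDec_unit_iff {τ : ∀ _ : Unit, R.Hom K L} : IsDec τ ↔ Inv (τ ()) := by
  constructor
  · rintro ⟨σ, h1, h2, -⟩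
    refine ⟨σ (), ?_, h2 ()⟩
    rw [← h1, Fintype.sum_unique]
  · rintro ⟨y, h1, h2⟩
    refine ⟨fun _ => y, ?_, fun i => h2, fun i j hij => absurd (Subsingleton.elim i j) hij⟩
    rw [Fintype.sum_unique]
    exact h1

/-! ### Mayer–Vietoris squares (packet DEC-B) -/

/-- The elements `iA : A → K`, `iB : B → K`, `cA : C → A`, `cB : C → B`, `δ : K → ℝ × C` of a
Mayer–Vietoris square. -/
structure MVS (R : Biv) {K A B C : LC} (iA : R.Hom A K) (iB : R.Hom B K) (cA : R.Hom C A)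
    (cB : R.Hom C B) (δ : R.Hom K (LC.R.prod C)) : Prop where
  comm : (BivData.comp _ cA iA) = (BivData.comp _ cB iB)
  δ_cA : (BivData.comp _ δ (R.ltens LC.R cA)) = 0
  δ_cB : (BivData.comp _ δ (R.ltens LC.R cB)) = 0
  ex1 : ∀ {Z : LC} (x : R.Hom K Z), (BivData.comp _ iA x) = 0 → (BivData.comp _ iB x) = 0 →
    ∃ y : R.Hom (LC.R.prod C) Z, x = (BivData.comp _ δ y)
  ex2 : ∀ {Z : LC} (a : R.Hom A Z) (b : R.Hom B Z), (BivData.comp _ cA a) = (BivData.comp _ cB b) →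
    ∃ x : R.Hom K Z, (BivData.comp _ iA x) = a ∧ (BivData.comp _ iB x) = b
  ex3 : ∀ {Z : LC} (y : R.Hom (LC.R.prod C) Z), (BivData.comp _ δ y) = 0 →
    ∃ (a : R.Hom (LC.R.prod A) Z) (b : R.Hom (LC.R.prod B) Z),
      y = (BivData.comp _ (R.ltens LC.R cA) a) - (BivData.comp _ (R.ltens LC.R cB) b)

/-- the standard square: `R.mv1`, `R.mv2`, `R.mv3`, `MV.delta_iCA`, `MV.delta_iCB` -/
theorem MVS.std (R : Biv) {K : LC} (u : C(K, ℝ)) : MVS R (R.J (MV.iA u)) (R.J (MV.iB u))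
    (R.J (MV.iCA u)) (R.J (MV.iCB u)) (R.J (MV.delta u)) := by
  refine ⟨?_, ?_, ?_, fun x h1 h2 => R.mv1 u x h1 h2, fun a b h => R.mv2 u a b h, fun y h => ?_⟩
  · rw [J_J, J_J]
    exact congrArg R.J (PMap.ext fun k => rfl)
  · rw [ltens_J, J_J, R.J_homotopic (MV.delta_iCA u), R.J_zero]
  · rw [ltens_J, J_J, R.J_homotopic (MV.delta_iCB u), R.J_zero]
  · rw [ltens_J, ltens_J]
    exact R.mv3 u y h

/-- transport along isomorphisms -/
theorem MVS.transport {K A B C A' B' C' : LC} {iA : R.Hom A K} {iB : R.Hom B K} {cA : R.Hom C A}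
    {cB : R.Hom C B} {δ : R.Hom K (LC.R.prod C)} (h : MVS R iA iB cA cB δ)
    {iA' : R.Hom A' K} {iB' : R.Hom B' K} {cA' : R.Hom C' A'} {cB' : R.Hom C' B'}
    {δ' : R.Hom K (LC.R.prod C')} {a : R.Hom A' A} {b : R.Hom B' B} {c : R.Hom C' C}
    (ha : Inv a) (hb : Inv b) (hc : Inv c) (h1 : iA' = (BivData.comp _ a iA)) (h2 : iB' = (BivData.comp _ b iB))
    (h3 : (BivData.comp _ cA' a) = (BivData.comp _ c cA)) (h4 : (BivData.comp _ cB' b) = (BivData.comp _ c cB)) (h5 : (BivData.comp _ δ' (R.ltens LC.R c)) = δ) :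
    MVS R iA' iB' cA' cB' δ' := by
  subst h1 h2
  refine ⟨?_, ?_, ?_, ?_, ?_, ?_⟩
  · rw [← R.assoc, ← R.assoc, h3, h4, R.assoc, R.assoc, h.comm]
  · refine (ha.ltens LC.R).cancel_right ?_
    rw [R.assoc, ← ltens_comp, h3, ltens_comp, ← R.assoc, h5, h.δ_cA, zero_comp]
  · refine (hb.ltens LC.R).cancel_right ?_
    rw [R.assoc, ← ltens_comp, h4, ltens_comp, ← R.assoc, h5, h.δ_cB, zero_comp]
  · intro Z x e1 e2
    have f1 : (BivData.comp _ iA x) = 0 := ha.cancel_left (by rw [← R.assoc, e1, comp_zero])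
    have f2 : (BivData.comp _ iB x) = 0 := hb.cancel_left (by rw [← R.assoc, e2, comp_zero])
    obtain ⟨y, hy⟩ := h.ex1 x f1 f2
    exact ⟨(BivData.comp _ (R.ltens LC.R c) y), by rw [← R.assoc, h5, hy]⟩
  · intro Z α β e
    obtain ⟨a', a1, a2⟩ := ha
    obtain ⟨b', b1, b2⟩ := hb
    have e' : (BivData.comp _ cA (BivData.comp _ a' α)) = (BivData.comp _ cB (BivData.comp _ b' β)) := by
      refine hc.cancel_left ?_
      rw [← R.assoc c, ← R.assoc c, ← h3, ← h4, R.assoc, R.assoc, ← R.assoc a, ← R.assoc b, a1, b1,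
        R.id_comp, R.id_comp, e]
    obtain ⟨x, x1, x2⟩ := h.ex2 _ _ e'
    refine ⟨x, ?_, ?_⟩
    · rw [R.assoc, x1, ← R.assoc, a1, R.id_comp]
    · rw [R.assoc, x2, ← R.assoc, b1, R.id_comp]
  · intro Z y e
    obtain ⟨c', c1, c2⟩ := hc
    have e' : (BivData.comp _ δ (BivData.comp _ (R.ltens LC.R c') y)) = 0 := by
      rw [← h5, R.assoc, ← R.assoc (R.ltens LC.R c), ← ltens_comp, c1, ltens_one, R.id_comp, e]
    obtain ⟨α, β, hαβ⟩ := h.ex3 _ e'
    refine ⟨(BivData.comp _ (R.ltens LC.R a) α), (BivData.comp _ (R.ltens LC.R b) β), ?_⟩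
    rw [← R.assoc, ← R.assoc, ← ltens_comp, ← ltens_comp, h3, h4, ltens_comp, ltens_comp, R.assoc,
      R.assoc, ← comp_sub, ← hαβ, ← R.assoc, ← ltens_comp, c1, ltens_one, R.id_comp]

/-! ### The five lemma (packet DEC-C) -/

/-- Five lemma. Injectivity: `∑ τK i ⬝ z i = 0`; compose with `iA`, `iB`: `jA i ⬝ z i = 0`,
`jB i ⬝ z i = 0`, so `z i = δ' i ⬝ y i`; `0 = ∑ τK i ⬝ δ' i ⬝ y i = δ ⬝ ∑ (ℝ × τC i) ⬝ y i`, so
`∑ (ℝ × τC i) ⬝ y i = (ℝ × cA) ⬝ a - (ℝ × cB) ⬝ b`; decompose `a`, `b` (with `IsDec.ltens`) and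
compare: `y i = (ℝ × dA i) ⬝ a i - (ℝ × dB i) ⬝ b i`, so `z i = δ' i ⬝ y i = 0`.
Surjectivity: decompose `iA ⬝ x`, `iB ⬝ x`; the components agree on `C'`, so they come from `z i`;
`x - ∑ τK i ⬝ z i = δ ⬝ y`, decompose `y`. -/
theorem five {ι : Type} [Fintype ι] {K A B C : LC} {iA : R.Hom A K} {iB : R.Hom B K}
    {cA : R.Hom C A} {cB : R.Hom C B} {δ : R.Hom K (LC.R.prod C)} (h : MVS R iA iB cA cB δ)
    {K' A' B' C' : ι → LC} {jA : ∀ i, R.Hom (A' i) (K' i)} {jB : ∀ i, R.Hom (B' i) (K' i)}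
    {dA : ∀ i, R.Hom (C' i) (A' i)} {dB : ∀ i, R.Hom (C' i) (B' i)}
    {δ' : ∀ i, R.Hom (K' i) (LC.R.prod (C' i))}
    (h' : ∀ i, MVS R (jA i) (jB i) (dA i) (dB i) (δ' i))
    (τK : ∀ i, R.Hom K (K' i)) (τA : ∀ i, R.Hom A (A' i)) (τB : ∀ i, R.Hom B (B' i))
    (τC : ∀ i, R.Hom C (C' i))
    (c1 : ∀ i, (BivData.comp _ iA (τK i)) = (BivData.comp _ (τA i) (jA i))) (c2 : ∀ i, (BivData.comp _ iB (τK i)) = (BivData.comp _ (τB i) (jB i)))
    (c3 : ∀ i, (BivData.comp _ cA (τA i)) = (BivData.comp _ (τC i) (dA i))) (c4 : ∀ i, (BivData.comp _ cB (τB i)) = (BivData.comp _ (τC i) (dB i)))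
    (c5 : ∀ i, (BivData.comp _ (τK i) (δ' i)) = (BivData.comp _ δ (R.ltens LC.R (τC i))))
    (hA : IsDec τA) (hB : IsDec τB) (hC : IsDec τC) : IsDec τK := by
  rw [isDec_iff]
  intro Z
  -- formulas for the sums
  have eA : ∀ w : ∀ i, R.Hom (K' i) Z, (BivData.comp _ iA (∑ i, (BivData.comp _ (τK i) (w i)))) = ∑ i, (BivData.comp _ (τA i) ((BivData.comp _ (jA i) (w i)))) := by
    intro w
    rw [comp_sum]
    refine Finset.sum_congr rfl fun i _ => ?_
    rw [← R.assoc, c1, R.assoc]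
  have eB : ∀ w : ∀ i, R.Hom (K' i) Z, (BivData.comp _ iB (∑ i, (BivData.comp _ (τK i) (w i)))) = ∑ i, (BivData.comp _ (τB i) ((BivData.comp _ (jB i) (w i)))) := by
    intro w
    rw [comp_sum]
    refine Finset.sum_congr rfl fun i _ => ?_
    rw [← R.assoc, c2, R.assoc]
  have eδ : ∀ y : ∀ i, R.Hom (LC.R.prod (C' i)) Z,
      (BivData.comp _ δ (∑ i, (BivData.comp _ (R.ltens LC.R (τC i)) (y i)))) = ∑ i, (BivData.comp _ (τK i) ((BivData.comp _ (δ' i) (y i)))) := by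
    intro y
    rw [comp_sum]
    refine Finset.sum_congr rfl fun i _ => ?_
    rw [← R.assoc, ← c5, R.assoc]
  have eCA : ∀ w : ∀ i, R.Hom (A' i) Z, (BivData.comp _ cA (∑ i, (BivData.comp _ (τA i) (w i)))) = ∑ i, (BivData.comp _ (τC i) ((BivData.comp _ (dA i) (w i)))) := by
    intro w
    rw [comp_sum]
    refine Finset.sum_congr rfl fun i _ => ?_
    rw [← R.assoc, c3, R.assoc]
  have eCB : ∀ w : ∀ i, R.Hom (B' i) Z, (BivData.comp _ cB (∑ i, (BivData.comp _ (τB i) (w i)))) = ∑ i, (BivData.comp _ (τC i) ((BivData.comp _ (dB i) (w i)))) := by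
    intro w
    rw [comp_sum]
    refine Finset.sum_congr rfl fun i _ => ?_
    rw [← R.assoc, c4, R.assoc]
  have fCA : ∀ w : ∀ i, R.Hom (LC.R.prod (A' i)) Z,
      (BivData.comp _ (R.ltens LC.R cA) (∑ i, (BivData.comp _ (R.ltens LC.R (τA i)) (w i)))) =
        ∑ i, (BivData.comp _ (R.ltens LC.R (τC i)) ((BivData.comp _ (R.ltens LC.R (dA i)) (w i)))) := by
    intro w
    rw [comp_sum]
    refine Finset.sum_congr rfl fun i _ => ?_
    rw [← R.assoc, ← ltens_comp, c3, ltens_comp, R.assoc]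
  have fCB : ∀ w : ∀ i, R.Hom (LC.R.prod (B' i)) Z,
      (BivData.comp _ (R.ltens LC.R cB) (∑ i, (BivData.comp _ (R.ltens LC.R (τB i)) (w i)))) =
        ∑ i, (BivData.comp _ (R.ltens LC.R (τC i)) ((BivData.comp _ (R.ltens LC.R (dB i)) (w i)))) := by
    intro w
    rw [comp_sum]
    refine Finset.sum_congr rfl fun i _ => ?_
    rw [← R.assoc, ← ltens_comp, c4, ltens_comp, R.assoc]
  constructor
  · intro z z' hz
    have hz' : ∑ i, (BivData.comp _ (τK i) (z i)) = ∑ i, (BivData.comp _ (τK i) (z' i)) := hz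
    have hw : ∑ i, (BivData.comp _ (τK i) (z i - z' i)) = 0 := by
      simp_rw [comp_sub]
      rw [Finset.sum_sub_distrib, hz', sub_self]
    have hwA : ∀ i, (BivData.comp _ (jA i) (z i - z' i)) = 0 := by
      apply hA.inj
      rw [← eA (fun i => z i - z' i), hw, comp_zero]
    have hwB : ∀ i, (BivData.comp _ (jB i) (z i - z' i)) = 0 := by
      apply hB.inj
      rw [← eB (fun i => z i - z' i), hw, comp_zero]
    choose y hy using fun i => (h' i).ex1 (z i - z' i) (hwA i) (hwB i)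
    have h1 : (BivData.comp _ δ (∑ i, (BivData.comp _ (R.ltens LC.R (τC i)) (y i)))) = 0 := by
      rw [eδ, ← hw]
      refine Finset.sum_congr rfl fun i _ => ?_
      rw [hy i]
    obtain ⟨a, b, hab⟩ := h.ex3 _ h1
    obtain ⟨a', rfl⟩ := (hA.ltens LC.R).surj a
    obtain ⟨b', rfl⟩ := (hB.ltens LC.R).surj b
    rw [fCA, fCB] at hab
    have h2 : ∀ i, y i - ((BivData.comp _ (R.ltens LC.R (dA i)) (a' i)) - (BivData.comp _ (R.ltens LC.R (dB i)) (b' i))) = 0 := by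
      apply (hC.ltens LC.R).inj
      simp_rw [comp_sub]
      rw [Finset.sum_sub_distrib, Finset.sum_sub_distrib, hab, sub_self]
    funext i
    have h3 : z i - z' i = 0 := by
      rw [hy i, sub_eq_zero.1 (h2 i), comp_sub, ← R.assoc, ← R.assoc, (h' i).δ_cA, (h' i).δ_cB,
        zero_comp, zero_comp, sub_self]
    exact sub_eq_zero.1 h3
  · intro x
    obtain ⟨a, ha⟩ := hA.surj ((BivData.comp _ iA x))
    obtain ⟨b, hb⟩ := hB.surj ((BivData.comp _ iB x))
    have h1 : ∑ i, (BivData.comp _ (τC i) ((BivData.comp _ (dA i) (a i)) - (BivData.comp _ (dB i) (b i)))) = 0 := by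
      simp_rw [comp_sub]
      rw [Finset.sum_sub_distrib, ← eCA, ← eCB, ← ha, ← hb, ← R.assoc, ← R.assoc, h.comm, sub_self]
    have h2 : ∀ i, (BivData.comp _ (dA i) (a i)) = (BivData.comp _ (dB i) (b i)) := fun i => sub_eq_zero.1 (hC.inj h1 i)
    choose z hzA hzB using fun i => (h' i).ex2 (a i) (b i) (h2 i)
    have h3 : (BivData.comp _ iA (x - ∑ i, (BivData.comp _ (τK i) (z i)))) = 0 := by
      rw [comp_sub, eA, ha]
      simp_rw [hzA]
      rw [sub_self]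
    have h4 : (BivData.comp _ iB (x - ∑ i, (BivData.comp _ (τK i) (z i)))) = 0 := by
      rw [comp_sub, eB, hb]
      simp_rw [hzB]
      rw [sub_self]
    obtain ⟨y, hy⟩ := h.ex1 _ h3 h4
    obtain ⟨y', rfl⟩ := (hC.ltens LC.R).surj y
    refine ⟨fun i => z i + (BivData.comp _ (δ' i) (y' i)), ?_⟩
    show ∑ i, (BivData.comp _ (τK i) (z i + (BivData.comp _ (δ' i) (y' i)))) = x
    simp_rw [R.comp_add]
    rw [Finset.sum_add_distrib, ← eδ, ← hy, add_sub_cancel]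

end Pool.Agent.Helper84.Sn
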