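import Pool.Agent.Helper84.Sn.Dec

/-! MP_ab4156_gt, layer (I3). Closed subspaces and the local-to-global principle. -/

open Topology Filter Set TopologicalSpace

noncomputable section

namespace Pool.Agent.Helper84.Sn

open Pool.Agent.Helper1.Stab

/-- a closed subspace -/
abbrev cl (X : LC) (S : Closeds X) : LC := X.closed S S.isClosed

/-- the part `u ≤ 1` -/
def low {X : LC} (u : C(X, ℝ)) : Closeds X := ⟨{x | u x ≤ 1}, isClosed_le u.continuous continuous_const⟩
/-- the part `0 ≤ u` -/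
def upp {X : LC} (u : C(X, ℝ)) : Closeds X := ⟨{x | 0 ≤ u x}, isClosed_le continuous_const u.continuous⟩
/-- the part `0 ≤ u ≤ 1` -/
def mid {X : LC} (u : C(X, ℝ)) : Closeds X := low u ⊓ upp u

/-- the inclusion of closed subspaces -/
def inc {X : LC} {S T : Closeds X} (h : S ≤ T) : PMap (cl X S) (cl X T).plus :=
  PMap.ofProper (K := cl X S) (L := cl X T) (fun x => ⟨x.1, h x.2⟩)
    (Continuous.subtype_mk continuous_subtype_val _)
    (MV.proper_aux (g := Subtype.val) continuous_subtype_val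
      S.isClosed.isClosedEmbedding_subtypeVal.tendsto_cocompact)

variable {R : Biv} {X T F : LC}

/-! ### Mayer–Vietoris for closed subspaces (packet LT-A) -/

/-- The boundary map of `S`: `x ↦ (toReal (u x), x)` where `0 < u x < 1`. -/
def del (S : Closeds X) (u : C(X, ℝ)) :
    PMap (cl X S) (LC.R.prod (cl X (S ⊓ mid u))).plus :=
  PMap.comp (PMap.ltens LC.R (PMap.ofHomeo (K := MV.C (K := cl X S) ⟨fun x => u x.1,
      u.continuous.comp continuous_subtype_val⟩) (L := cl X (S ⊓ mid u))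
    { toFun := fun x => ⟨x.1.1, x.1.2, x.2.2, x.2.1⟩
      invFun := fun x => ⟨⟨x.1, x.2.1⟩, x.2.2.2, x.2.2.1⟩
      left_inv := fun _ => rfl
      right_inv := fun _ => rfl
      continuous_toFun := by
        exact Continuous.subtype_mk (continuous_subtype_val.comp continuous_subtype_val) _
      continuous_invFun := by
        exact Continuous.subtype_mk (Continuous.subtype_mk continuous_subtype_val _) _ }))
    (MV.delta (K := cl X S) ⟨fun x => u x.1, u.continuous.comp continuous_subtype_val⟩)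

theorem del_apply (S : Closeds X) (u : C(X, ℝ)) (x : cl X S) (h : 0 < u x.1 ∧ u x.1 < 1) :
    del S u x = (((MV.toReal (u x.1), ⟨x.1, x.2, h.2.le, h.1.le⟩) :
      LC.R.prod (cl X (S ⊓ mid u))) : OnePoint (LC.R.prod (cl X (S ⊓ mid u)))) := by
  have h1 : MV.deltaFun (K := cl X S)
      ⟨fun x => u x.1, u.continuous.comp continuous_subtype_val⟩ x =
      (((MV.toReal (u x.1), (⟨x, h.1.le, h.2.le⟩ :
        {k : cl X S | 0 ≤ u k.1 ∧ u k.1 ≤ 1})) :
        ℝ × {k : cl X S | 0 ≤ u k.1 ∧ u k.1 ≤ 1}) :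
        OnePoint (ℝ × {k : cl X S | 0 ≤ u k.1 ∧ u k.1 ≤ 1})) := dif_pos h
  change PMap.plus _ (MV.deltaFun (K := cl X S)
      ⟨fun x => u x.1, u.continuous.comp continuous_subtype_val⟩ x) = _
  rw [h1]
  rfl

theorem del_apply_infty (S : Closeds X) (u : C(X, ℝ)) (x : cl X S)
    (h : ¬ (0 < u x.1 ∧ u x.1 < 1)) : del S u x = OnePoint.infty := by
  have h1 : MV.deltaFun (K := cl X S)
      ⟨fun x => u x.1, u.continuous.comp continuous_subtype_val⟩ x = OnePoint.infty := dif_neg h
  change PMap.plus _ (MV.deltaFun (K := cl X S)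
      ⟨fun x => u x.1, u.continuous.comp continuous_subtype_val⟩ x) = _
  rw [h1]
  rfl

/-- `S ⊓ low u` as a part of `S` -/
def clA (S : Closeds X) (u : C(X, ℝ)) : cl X (S ⊓ low u) ≃ₜ MV.A (K := cl X S)
    ⟨fun x => u x.1, u.continuous.comp continuous_subtype_val⟩ where
  toFun x := ⟨⟨x.1, x.2.1⟩, x.2.2⟩
  invFun x := ⟨x.1.1, x.1.2, x.2⟩
  left_inv _ := rfl
  right_inv _ := rfl
  continuous_toFun := by
    exact Continuous.subtype_mk (Continuous.subtype_mk continuous_subtype_val _) _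
  continuous_invFun := by
    exact Continuous.subtype_mk (continuous_subtype_val.comp continuous_subtype_val) _

/-- `S ⊓ upp u` as a part of `S` -/
def clB (S : Closeds X) (u : C(X, ℝ)) : cl X (S ⊓ upp u) ≃ₜ MV.B (K := cl X S)
    ⟨fun x => u x.1, u.continuous.comp continuous_subtype_val⟩ where
  toFun x := ⟨⟨x.1, x.2.1⟩, x.2.2⟩
  invFun x := ⟨x.1.1, x.1.2, x.2⟩
  left_inv _ := rfl
  right_inv _ := rfl
  continuous_toFun := by
    exact Continuous.subtype_mk (Continuous.subtype_mk continuous_subtype_val _) _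
  continuous_invFun := by
    exact Continuous.subtype_mk (continuous_subtype_val.comp continuous_subtype_val) _

/-- `S ⊓ mid u` as a part of `S` -/
def clC (S : Closeds X) (u : C(X, ℝ)) : cl X (S ⊓ mid u) ≃ₜ MV.C (K := cl X S)
    ⟨fun x => u x.1, u.continuous.comp continuous_subtype_val⟩ where
  toFun x := ⟨⟨x.1, x.2.1⟩, x.2.2.2, x.2.2.1⟩
  invFun x := ⟨x.1.1, x.1.2, x.2.2, x.2.1⟩
  left_inv _ := rfl
  right_inv _ := rfl
  continuous_toFun := by
    exact Continuous.subtype_mk (Continuous.subtype_mk continuous_subtype_val _) _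
  continuous_invFun := by
    exact Continuous.subtype_mk (continuous_subtype_val.comp continuous_subtype_val) _

/-- Mayer–Vietoris square of a closed subspace: transport of `MVS.std` along the homeomorphisms of
iterated subtypes. -/
theorem MVS.closed (S : Closeds X) (u : C(X, ℝ)) :
    MVS R (R.J (inc (inf_le_left : S ⊓ low u ≤ S))) (R.J (inc (inf_le_left : S ⊓ upp u ≤ S)))
      (R.J (inc (inf_le_inf_left S inf_le_left : S ⊓ mid u ≤ S ⊓ low u)))
      (R.J (inc (inf_le_inf_left S inf_le_right : S ⊓ mid u ≤ S ⊓ upp u)))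
      (R.J (del S u)) := by
  refine MVS.transport (MVS.std R (K := cl X S)
    ⟨fun x => u x.1, u.continuous.comp continuous_subtype_val⟩)
    (a := R.J (PMap.ofHomeo (clA S u))) (b := R.J (PMap.ofHomeo (clB S u)))
    (c := R.J (PMap.ofHomeo (clC S u)))
    (Inv.homeo _) (Inv.homeo _) (Inv.homeo _) ?_ ?_ ?_ ?_ ?_
  · rw [J_J]
    rfl
  · rw [J_J]
    rfl
  · rw [J_J, J_J]
    rfl
  · rw [J_J, J_J]
    rfl
  · rw [ltens_J, J_J]
    congr 1
    ext x
    change PMap.plus (PMap.ltens LC.R (PMap.ofHomeo (clC S u)))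
      (PMap.plus (PMap.ltens LC.R (PMap.ofHomeo (clC S u).symm)) (MV.deltaFun (K := cl X S)
      ⟨fun x => u x.1, u.continuous.comp continuous_subtype_val⟩ x)) =
      MV.deltaFun (K := cl X S) ⟨fun x => u x.1, u.continuous.comp continuous_subtype_val⟩ x
    rcases MV.deltaFun (K := cl X S)
      ⟨fun x => u x.1, u.continuous.comp continuous_subtype_val⟩ x with _ | ⟨r, x⟩
    · rfl
    · rfl

/-- the function `u ∘ snd` on `L × S` -/
def lsnd (L : LC) (S : Closeds X) (u : C(X, ℝ)) : C(L.prod (cl X S), ℝ) :=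
  ⟨fun x => u x.2.1, u.continuous.comp (continuous_subtype_val.comp continuous_snd)⟩

/-- `L × (S ⊓ low u)` as a part of `L × S` -/
def lclA (L : LC) (S : Closeds X) (u : C(X, ℝ)) :
    L.prod (cl X (S ⊓ low u)) ≃ₜ MV.A (lsnd L S u) where
  toFun x := ⟨(x.1, ⟨x.2.1, x.2.2.1⟩), x.2.2.2⟩
  invFun x := (x.1.1, ⟨x.1.2.1, x.1.2.2, x.2⟩)
  left_inv _ := rfl
  right_inv _ := rfl
  continuous_toFun := by
    exact Continuous.subtype_mk (continuous_fst.prodMk
      (Continuous.subtype_mk (continuous_subtype_val.comp continuous_snd) _)) _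
  continuous_invFun := by
    exact (continuous_fst.comp continuous_subtype_val).prodMk
      (Continuous.subtype_mk (continuous_subtype_val.comp
        (continuous_snd.comp continuous_subtype_val)) _)

/-- `L × (S ⊓ upp u)` as a part of `L × S` -/
def lclB (L : LC) (S : Closeds X) (u : C(X, ℝ)) :
    L.prod (cl X (S ⊓ upp u)) ≃ₜ MV.B (lsnd L S u) where
  toFun x := ⟨(x.1, ⟨x.2.1, x.2.2.1⟩), x.2.2.2⟩
  invFun x := (x.1.1, ⟨x.1.2.1, x.1.2.2, x.2⟩)
  left_inv _ := rfl
  right_inv _ := rfl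
  continuous_toFun := by
    exact Continuous.subtype_mk (continuous_fst.prodMk
      (Continuous.subtype_mk (continuous_subtype_val.comp continuous_snd) _)) _
  continuous_invFun := by
    exact (continuous_fst.comp continuous_subtype_val).prodMk
      (Continuous.subtype_mk (continuous_subtype_val.comp
        (continuous_snd.comp continuous_subtype_val)) _)

/-- `L × (S ⊓ mid u)` as a part of `L × S` -/
def lclC (L : LC) (S : Closeds X) (u : C(X, ℝ)) :
    L.prod (cl X (S ⊓ mid u)) ≃ₜ MV.C (lsnd L S u) where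
  toFun x := ⟨(x.1, ⟨x.2.1, x.2.2.1⟩), x.2.2.2.2, x.2.2.2.1⟩
  invFun x := (x.1.1, ⟨x.1.2.1, x.1.2.2, x.2.2, x.2.1⟩)
  left_inv _ := rfl
  right_inv _ := rfl
  continuous_toFun := by
    exact Continuous.subtype_mk (continuous_fst.prodMk
      (Continuous.subtype_mk (continuous_subtype_val.comp continuous_snd) _)) _
  continuous_invFun := by
    exact (continuous_fst.comp continuous_subtype_val).prodMk
      (Continuous.subtype_mk (continuous_subtype_val.comp
        (continuous_snd.comp continuous_subtype_val)) _)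

/-- Mayer–Vietoris square of the product with a space `L`: `MVS.std` for `L × S` and the function
`u ∘ snd`, and the homeomorphisms `MV.A (u ∘ snd) = L × A`, … -/
theorem MVS.ltens_closed (L : LC) (S : Closeds X) (u : C(X, ℝ)) :
    MVS R (R.ltens L (R.J (inc (inf_le_left : S ⊓ low u ≤ S))))
      (R.ltens L (R.J (inc (inf_le_left : S ⊓ upp u ≤ S))))
      (R.ltens L (R.J (inc (inf_le_inf_left S inf_le_left : S ⊓ mid u ≤ S ⊓ low u))))
      (R.ltens L (R.J (inc (inf_le_inf_left S inf_le_right : S ⊓ mid u ≤ S ⊓ upp u))))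
      ((BivData.comp _ (R.ltens L (R.J (del S u))) (R.J (PMap.ofHomeo (ll L LC.R (cl X (S ⊓ mid u))))))) := by
  refine MVS.transport (MVS.std R (lsnd L S u))
    (a := R.J (PMap.ofHomeo (lclA L S u))) (b := R.J (PMap.ofHomeo (lclB L S u)))
    (c := R.J (PMap.ofHomeo (lclC L S u)))
    (Inv.homeo _) (Inv.homeo _) (Inv.homeo _) ?_ ?_ ?_ ?_ ?_
  · rw [ltens_J, J_J]
    rfl
  · rw [ltens_J, J_J]
    rfl
  · rw [ltens_J, J_J, J_J]
    rfl
  · rw [ltens_J, J_J, J_J]
    rfl
  · rw [ltens_J, J_J, ltens_J, J_J]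
    congr 1
    ext x
    obtain ⟨l, x⟩ := x
    change PMap.plus (PMap.ltens LC.R (PMap.ofHomeo (lclC L S u)))
      (PMap.plus (PMap.ofHomeo (ll L LC.R (cl X (S ⊓ mid u))))
      (smashPt L (LC.R.prod (cl X (S ⊓ mid u)))
      ((l : OnePoint L), del S u x))) = MV.deltaFun (lsnd L S u) (l, x)
    by_cases h : 0 < u x.1 ∧ u x.1 < 1
    · have h1 : MV.deltaFun (lsnd L S u) (l, x) =
          (((MV.toReal (u x.1), (⟨(l, x), h.1.le, h.2.le⟩ :
            {k : L.prod (cl X S) | 0 ≤ u k.2.1 ∧ u k.2.1 ≤ 1})) :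
            ℝ × {k : L.prod (cl X S) | 0 ≤ u k.2.1 ∧ u k.2.1 ≤ 1}) :
            OnePoint (ℝ × {k : L.prod (cl X S) | 0 ≤ u k.2.1 ∧ u k.2.1 ≤ 1})) := dif_pos h
      rw [h1, del_apply S u x h]
      rfl
    · have h1 : MV.deltaFun (lsnd L S u) (l, x) = OnePoint.infty := dif_neg h
      rw [h1, del_apply_infty S u x h]
      rfl

/-! ### Local to global (packet LT-B) -/

/-- the part of `T` over `S` -/
abbrev ovr (p : C(T, X)) (S : Closeds X) : Closeds T := S.preimage p.continuous

/-- the graph `t ↦ (t, p t)` over `S` -/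
def gr (p : C(T, X)) (S : Closeds X) : PMap (cl T (ovr p S)) (T.prod (cl X S)).plus :=
  PMap.ofProper (K := cl T (ovr p S)) (L := T.prod (cl X S)) (fun t => (t.1, ⟨p t.1, t.2⟩))
    (by
      refine continuous_subtype_val.prodMk ?_
      exact Continuous.subtype_mk (p.continuous.comp continuous_subtype_val) _)
    (MV.proper_aux (g := Prod.fst) continuous_fst
      (ovr p S).isClosed.isClosedEmbedding_subtypeVal.tendsto_cocompact)

/-- the class `t ∈ R(T, L)` over `S`, as an element of `R(T over S, L × S)` -/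
def tau {L : LC} (p : C(T, X)) (t : R.Hom T L) (S : Closeds X) :
    R.Hom (cl T (ovr p S)) (L.prod (cl X S)) :=
  (BivData.comp _ (R.J (gr p S)) (R.tens t (cl X S)))

theorem ovr_mono (p : C(T, X)) {S S' : Closeds X} (h : S ≤ S') : ovr p S ≤ ovr p S' :=
  fun _ ht => h ht

/-- naturality of `tau` in the closed set -/
theorem tau_inc {L : LC} (p : C(T, X)) (t : R.Hom T L) {S S' : Closeds X} (h : S ≤ S') :
    (BivData.comp _ (R.J (inc (ovr_mono p h))) (tau p t S')) = (BivData.comp _ (tau p t S) (R.ltens L (R.J (inc h)))) := by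
  unfold tau
  rw [R.assoc, R.exch, ltens_J, ← R.assoc, ← R.assoc, ← R.J_comp, ← R.J_comp]
  congr 1

/-- the product with `ℝ × C`, reordered -/
theorem tens_ll {K L : LC} (t : R.Hom K L) (Z W : LC) :
    (BivData.comp _ (R.tens t (Z.prod W)) (R.J (PMap.ofHomeo (ll L Z W)))) =
      (BivData.comp _ (R.J (PMap.ofHomeo (ll K Z W))) (R.ltens Z (R.tens t W))) := by
  have h := bx_ll (R := R) t (one R Z) (one R W)
  rw [one_bx_one, bx_one, bx_one, one_bx] at h
  exact h

/-- the boundary map of the part over `S` -/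
def delo (p : C(T, X)) (S : Closeds X) (u : C(X, ℝ)) :
    PMap (cl T (ovr p S)) (LC.R.prod (cl T (ovr p (S ⊓ mid u)))).plus :=
  del (ovr p S) (u.comp p)

theorem delo_apply (p : C(T, X)) (S : Closeds X) (u : C(X, ℝ)) (t : cl T (ovr p S))
    (h : 0 < u (p t.1) ∧ u (p t.1) < 1) :
    delo p S u t = (((MV.toReal (u (p t.1)), ⟨t.1, t.2, h.2.le, h.1.le⟩) :
      LC.R.prod (cl T (ovr p (S ⊓ mid u)))) :
        OnePoint (LC.R.prod (cl T (ovr p (S ⊓ mid u))))) :=
  del_apply (ovr p S) (u.comp p) t h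

theorem delo_apply_infty (p : C(T, X)) (S : Closeds X) (u : C(X, ℝ)) (t : cl T (ovr p S))
    (h : ¬ (0 < u (p t.1) ∧ u (p t.1) < 1)) : delo p S u t = OnePoint.infty :=
  del_apply_infty (ovr p S) (u.comp p) t h

theorem MVS.over (R : Biv) (p : C(T, X)) (S : Closeds X) (u : C(X, ℝ)) :
    MVS R (R.J (inc (ovr_mono p (inf_le_left : S ⊓ low u ≤ S))))
      (R.J (inc (ovr_mono p (inf_le_left : S ⊓ upp u ≤ S))))
      (R.J (inc (ovr_mono p (inf_le_inf_left S inf_le_left : S ⊓ mid u ≤ S ⊓ low u))))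
      (R.J (inc (ovr_mono p (inf_le_inf_left S inf_le_right : S ⊓ mid u ≤ S ⊓ upp u))))
      (R.J (delo p S u)) :=
  MVS.closed (R := R) (ovr p S) (u.comp p)

/-- the two ways to the boundary are equal -/
theorem delo_gr (p : C(T, X)) (S : Closeds X) (u : C(X, ℝ)) :
    (PMap.ofHomeo (ll T LC.R (cl X (S ⊓ mid u)))).comp
      ((PMap.ltens T (del S u)).comp (gr p S)) =
    (PMap.ltens LC.R (gr p (S ⊓ mid u))).comp (delo p S u) := by
  ext t
  rw [PMap.comp_apply, PMap.comp_apply, PMap.comp_apply]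
  change (PMap.ofHomeo (ll T LC.R (cl X (S ⊓ mid u)))).plus
    (smashPt T _ ((t.1 : OnePoint T), del S u ⟨p t.1, t.2⟩)) = _
  by_cases h : 0 < u (p t.1) ∧ u (p t.1) < 1
  · rw [delo_apply p S u t h, del_apply S u ⟨p t.1, t.2⟩ h]
    rfl
  · rw [delo_apply_infty p S u t h, del_apply_infty S u ⟨p t.1, t.2⟩ h]
    rfl

/-- The local-to-global principle: `five` with the squares `MVS.closed (ovr p S) (u ∘ p)` for `T`
(the closed sets `ovr p (S ⊓ low u)` and `ovr p S ⊓ low (u ∘ p)` are equal) and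
`MVS.ltens_closed (L i) S u`. The conditions `c1`–`c4`: `J` of equal maps and `tens`/`ltens` of
elements in different factors commute (`R.exch`). Condition `c5`:
`gr ⬝ (t × S) ⬝ (L × del) ⬝ ll = gr ⬝ (T × del) ⬝ (t × (ℝ × C)) ⬝ ll`, and both sides are
`J (x ↦ (toReal (u (p x)), (x, p x))) ⬝ (ℝ × (t × C))`. -/
theorem LT {ι : Type} [Fintype ι] {L : ι → LC} (p : C(T, X)) (t : ∀ i, R.Hom T (L i))
    (S : Closeds X) (u : C(X, ℝ))
    (hA : IsDec (fun i => tau p (t i) (S ⊓ low u))) (hB : IsDec (fun i => tau p (t i) (S ⊓ upp u)))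
    (hC : IsDec (fun i => tau p (t i) (S ⊓ mid u))) : IsDec (fun i => tau p (t i) S) := by
  refine five (MVS.over R p S u) (fun i => MVS.ltens_closed (L i) S u)
    (fun i => tau p (t i) S) (fun i => tau p (t i) (S ⊓ low u)) (fun i => tau p (t i) (S ⊓ upp u))
    (fun i => tau p (t i) (S ⊓ mid u)) (fun i => tau_inc p (t i) _) (fun i => tau_inc p (t i) _)
    (fun i => tau_inc p (t i) _) (fun i => tau_inc p (t i) _) (fun i => ?_) hA hB hC
  unfold tau
  have e := congrArg R.J (delo_gr p S u)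
  rw [R.J_comp, R.J_comp, R.J_comp] at e
  rw [ltens_comp, R.assoc, ← R.assoc (R.tens (t i) (cl X S)), R.exch, R.assoc, tens_ll, ltens_J,
    ltens_J, ← R.assoc, ← R.assoc, e, R.assoc]

/-- Local triviality: `T` over `S` is `F × S`, and the classes `t i` over `S` are `f i × S` for a
decomposition `f` of `F`. -/
theorem LT_triv {ι : Type} [Fintype ι] {L : ι → LC} (p : C(T, X)) (t : ∀ i, R.Hom T (L i))
    (S : Closeds X) (h : F.prod (cl X S) ≃ₜ cl T (ovr p S)) (f : ∀ i, R.Hom F (L i))
    (hf : IsDec f)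
    (hc : ∀ i, (BivData.comp _ (R.J (PMap.ofHomeo (K := F.prod (cl X S)) (L := cl T (ovr p S)) h)) (tau p (t i) S)) = R.tens (f i) (cl X S)) : IsDec (fun i => tau p (t i) S) := by
  refine IsDec.of_comp_left (Inv.homeo h) ?_
  have h1 := hf.tens (cl X S)
  simp only [← hc] at h1
  exact h1

/-- the empty closed set -/
theorem LT_bot {ι : Type} [Fintype ι] {L : ι → LC} (p : C(T, X)) (t : ∀ i, R.Hom T (L i)) :
    IsDec (fun i => tau p (t i) (⊥ : Closeds X)) :=
  IsDec.of_isEmpty ⟨fun x => x.2⟩ fun _ => ⟨fun x => x.2.2⟩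

/-- the graph `t ↦ (t, p t)` -/
def gph (p : C(T, X)) : PMap T (T.prod X).plus :=
  PMap.ofProper (K := T) (L := T.prod X) (fun t => (t, p t)) (continuous_id.prodMk p.continuous)
    (MV.proper_aux (g := Prod.fst) continuous_fst tendsto_id)

/-- the whole space as a closed subspace -/
def topHomeo (X : LC) : cl X (⊤ : Closeds X) ≃ₜ X where
  toFun x := x.1
  invFun x := ⟨x, trivial⟩
  left_inv _ := rfl
  right_inv _ := rfl
  continuous_toFun := continuous_subtype_val
  continuous_invFun := Continuous.subtype_mk continuous_id _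

/-- passage from `⊤` to the whole space -/
theorem LT_top {ι : Type} [Fintype ι] {L : ι → LC} (p : C(T, X)) (t : ∀ i, R.Hom T (L i))
    (h : IsDec (fun i => tau p (t i) (⊤ : Closeds X))) :
    IsDec (fun i => (BivData.comp _ (R.J (gph p)) (R.tens (t i) X))) := by
  have h1 := (h.comp_left (Inv.homeo (R := R) (K := T) (L := cl T (ovr p ⊤))
    (topHomeo T).symm)).comp_right
    (fun i => (Inv.homeo (R := R) (topHomeo X)).ltens (L i))
  convert h1 using 2 with i
  unfold tau
  rw [R.assoc, R.assoc, R.exch, ltens_J, ← R.assoc, ← R.assoc, ← R.J_comp, ← R.J_comp]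
  congr 1

/-! ### Induction over a cover (packet LT-C) -/

/-- Induction over a finite cover of a compact Hausdorff space. Proof: choose finitely many open
sets `U 1, …, U k` that cover `X`; show by induction on `j` that `P S` holds for all closed
`S ⊆ U 1 ∪ … ∪ U j`. For the step let `C₁ = S \ U j`, `C₂ = S \ (U 1 ∪ … ∪ U (j-1))`: disjoint
closed sets, so by Urysohn there is `u : X → ℝ` with `u = -1` on `C₁` and `u = 2` on `C₂`. Then
`S ⊓ low u` is disjoint from `C₂`, hence `⊆ U 1 ∪ … ∪ U (j-1)`, and `S ⊓ upp u`, `S ⊓ mid u` are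
disjoint from `C₁`, hence `⊆ U j`. -/
theorem cover_ind [CompactSpace X] (P : Closeds X → Prop) (hbot : P ⊥)
    (hmv : ∀ (S : Closeds X) (u : C(X, ℝ)), P (S ⊓ low u) → P (S ⊓ upp u) → P (S ⊓ mid u) → P S)
    (hloc : ∀ x : X, ∃ U : Set X, IsOpen U ∧ x ∈ U ∧ ∀ S : Closeds X, (S : Set X) ⊆ U → P S)
    (S : Closeds X) : P S := by
  classical
  choose U hU hxU hP using hloc
  obtain ⟨t, ht⟩ := isCompact_univ.elim_finite_subcover U hU
    (fun x _ => mem_iUnion.2 ⟨x, hxU x⟩)
  have key : ∀ t : Finset X, ∀ S : Closeds X, (S : Set X) ⊆ ⋃ x ∈ t, U x → P S := by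
    intro t
    induction t using Finset.induction_on with
    | empty =>
      intro S hS
      have : S = ⊥ := by
        apply SetLike.coe_injective
        refine eq_empty_iff_forall_notMem.2 fun x hx => ?_
        simpa using hS hx
      rw [this]
      exact hbot
    | insert a t _ ih =>
      intro S hS
      have hO : IsOpen (⋃ x ∈ t, U x) := isOpen_biUnion fun x _ => hU x
      have hC1 : IsClosed ((S : Set X) \ U a) := S.isClosed.sdiff (hU a)
      have hC2 : IsClosed ((S : Set X) \ ⋃ x ∈ t, U x) := S.isClosed.sdiff hO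
      have hd : Disjoint ((S : Set X) \ U a) ((S : Set X) \ ⋃ x ∈ t, U x) := by
        rw [Set.disjoint_left]
        rintro x ⟨hxS, hxa⟩ ⟨-, hxt⟩
        have := hS hxS
        rw [Finset.set_biUnion_insert] at this
        exact this.elim hxa hxt
      obtain ⟨f, hf0, hf1, -⟩ := exists_continuous_zero_one_of_isClosed hC1 hC2 hd
      let u : C(X, ℝ) := ⟨fun x => 3 * f x - 1, by fun_prop⟩
      have hup : ∀ x ∈ S, 0 ≤ u x → x ∈ U a := by
        intro x hx hux
        by_contra hxa
        have h0 : f x = 0 := hf0 ⟨hx, hxa⟩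
        have h1 : u x = 3 * f x - 1 := rfl
        rw [h0] at h1
        linarith
      refine hmv S u (ih _ ?_) (hP a _ ?_) (hP a _ ?_)
      · rintro x ⟨hx, hux⟩
        by_contra hxt
        have h0 : f x = 1 := hf1 ⟨hx, hxt⟩
        have h1 : u x = 3 * f x - 1 := rfl
        have h2 : u x ≤ 1 := hux
        rw [h0] at h1
        linarith
      · rintro x ⟨hx, hux⟩
        exact hup x hx hux
      · rintro x ⟨hx, -, hux⟩
        exact hup x hx hux
  exact key t S fun x _ => ht (mem_univ x)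

/-- The form in which the local-to-global principle is used. -/
theorem LT_main {ι : Type} [Fintype ι] {L : ι → LC} [CompactSpace X] (p : C(T, X))
    (t : ∀ i, R.Hom T (L i))
    (hloc : ∀ x : X, ∃ U : Set X, IsOpen U ∧ x ∈ U ∧
      ∀ S : Closeds X, (S : Set X) ⊆ U → IsDec (fun i => tau p (t i) S)) :
    IsDec (fun i => (BivData.comp _ (R.J (gph p)) (R.tens (t i) X))) :=
  LT_top p t (cover_ind (fun S => IsDec (fun i => tau p (t i) S)) (LT_bot p t)
    (fun S u hA hB hC => LT p t S u hA hB hC) hloc ⊤)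

end Pool.Agent.Helper84.Sn
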