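import Pool.Agent.Helper84.Sn.Act
import Pool.Agent.Helper33.Sn.Cfb

/-! MP_ab4156_gt. Periodic theories and the second basis of `P = R ∧ BU₊`. -/

open Topology Filter Set

noncomputable section

namespace Pool.Agent.Helper84.Sn

open Pool.Agent.Helper1.Stab

/-! ### Invertible classes (packet PER-A) -/

/-- an invertible class `b ∈ R(V, pt)` with its inverse `c ∈ R(pt, V)` -/
structure Per (R : Biv) (V : LC) where
  b : R.Hom V LC.point
  c : R.Hom LC.point V
  bc : R.comp b c = R.J (PMap.id V)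
  cb : R.comp c b = R.J (PMap.id LC.point)

namespace Per
variable {R : Biv} {V W : LC}

/-- the point -/
def pt (R : Biv) : Per R LC.point := ⟨R.J (PMap.id _), R.J (PMap.id _), R.id_comp _, R.id_comp _⟩

/-- transport along a homeomorphism -/
def homeo (φ : V ≃ₜ W) (q : Per R W) : Per R V where
  b := R.comp (R.J (PMap.ofHomeo φ)) q.b
  c := R.comp q.c (R.J (PMap.ofHomeo φ.symm))
  bc := by rw [R.assoc, ← R.assoc q.b, q.bc, R.id_comp, J_homeo]
  cb := by
    rw [R.assoc, ← R.assoc (R.J (PMap.ofHomeo φ.symm)), J_homeo', R.id_comp, q.cb]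

/-- products -/
def prod (p : Per R V) (q : Per R W) : Per R (V.prod W) where
  b := R.comp (R.tens p.b W) (R.comp (R.J (PMap.ofHomeo (LC.lunit W))) q.b)
  c := R.comp q.c (R.comp (R.J (PMap.ofHomeo (LC.lunit W).symm)) (R.tens p.c W))
  bc := by
    rw [R.assoc, R.assoc, ← R.assoc q.b, q.bc, R.id_comp,
      ← R.assoc (R.J (PMap.ofHomeo (LC.lunit W))), J_homeo, R.id_comp, ← R.tens_comp, p.bc]
    exact tens_one V W
  cb := by
    rw [R.assoc, R.assoc, ← R.assoc (R.tens p.c W), ← R.tens_comp, p.cb]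
    have h1 : R.tens (R.J (PMap.id LC.point)) W = one R (LC.point.prod W) := tens_one LC.point W
    rw [h1, R.id_comp, ← R.assoc (R.J (PMap.ofHomeo (LC.lunit W).symm)), J_homeo', R.id_comp, q.cb]

/-- the powers `ℂ^i` -/
def cn (q : Per R LC.C) : ∀ i : ℕ, Per R (Cn i)
  | 0 => Per.pt R
  | i + 1 => (cn q i).prod q

/-- an inverse is unique -/
theorem c_eq_of_b_eq (p q : Per R V) (h : p.b = q.b) : p.c = q.c := by
  rw [← R.comp_id p.c, ← q.bc, ← R.assoc, ← h, p.cb, R.id_comp]

/-- `β^i × β^j = β^(i+j)`; induction on `j` -/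
theorem cn_add (q : Per R LC.C) (i j : ℕ) :
    ((cn q i).prod (cn q j)).b = R.comp (R.J (PMap.ofHomeo (CnAdd i j))) (cn q (i + j)).b := by
  induction j with
  | zero =>
    change R.comp (R.tens (cn q i).b LC.point) (R.comp (R.J (PMap.ofHomeo (LC.lunit LC.point)))
      (R.J (PMap.id LC.point))) = _
    rw [R.comp_id]
    exact R.tens_point (cn q i).b
  | succ j ih =>
    have h3 : R.comp (R.tens (R.tens (cn q i).b (Cn j)) LC.C)
        (R.J (PMap.ofHomeo (LC.mid LC.point (Cn j) LC.C))) =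
        R.comp (R.J (PMap.ofHomeo (LC.mid (Cn i) (Cn j) LC.C)))
          (R.tens (cn q i).b ((Cn j).prod LC.C)) := R.tens_tens (cn q i).b (Cn j) LC.C
    have h4 : R.tens (cn q i).b ((Cn j).prod LC.C) =
        R.comp (R.J (PMap.ofHomeo (LC.mid (Cn i) (Cn j) LC.C).symm))
          (R.comp (R.tens (R.tens (cn q i).b (Cn j)) LC.C)
            (R.J (PMap.ofHomeo (LC.mid LC.point (Cn j) LC.C)))) := by
      rw [h3, ← R.assoc, J_homeo', R.id_comp]
    have h5 : R.comp (R.J (PMap.ofHomeo (LC.mid LC.point (Cn j) LC.C)))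
        (R.J (PMap.ofHomeo (LC.lunit ((Cn j).prod LC.C)))) =
        R.tens (R.J (PMap.ofHomeo (LC.lunit (Cn j)))) LC.C := by
      rw [J_J, R.tens_J]
      refine congrArg R.J (PMap.ext fun k => ?_)
      rfl
    have h6 : R.comp (R.J (PMap.ofHomeo (LC.mid (Cn i) (Cn j) LC.C).symm))
          (R.tens (R.J (PMap.ofHomeo (CnAdd i j))) LC.C) =
        R.J (PMap.ofHomeo (CnAdd i (j + 1) : (Cn i).prod ((Cn j).prod LC.C) ≃ₜ
          (Cn (i + j)).prod LC.C)) := by
      rw [R.tens_J, J_J]
      refine congrArg R.J (PMap.ext fun k => ?_)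
      rfl
    have ih1 : R.comp (R.tens (cn q i).b (Cn j)) (R.comp (R.J (PMap.ofHomeo
        (LC.lunit (Cn j)))) (cn q j).b) = R.comp (R.J (PMap.ofHomeo (CnAdd i j)))
          (cn q (i + j)).b := ih
    have ih2 : R.comp (R.tens (R.tens (cn q i).b (Cn j)) LC.C) (R.comp (R.tens (R.J (PMap.ofHomeo
        (LC.lunit (Cn j)))) LC.C) (R.tens (cn q j).b LC.C)) =
        R.comp (R.tens (R.J (PMap.ofHomeo (CnAdd i j))) LC.C) (R.tens (cn q (i + j)).b LC.C) := by
      rw [← R.tens_comp, ← R.tens_comp, ← R.tens_comp, ih1]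
    have main : R.comp (R.tens (cn q i).b ((Cn j).prod LC.C)) (R.comp
        (R.J (PMap.ofHomeo (LC.lunit ((Cn j).prod LC.C)))) (R.comp (R.tens (cn q j).b LC.C)
          (R.comp (R.J (PMap.ofHomeo (LC.lunit LC.C))) q.b))) =
        R.comp (R.J (PMap.ofHomeo (CnAdd i (j + 1) : (Cn i).prod ((Cn j).prod LC.C) ≃ₜ
          (Cn (i + j)).prod LC.C))) (R.comp (R.tens (cn q (i + j)).b LC.C)
            (R.comp (R.J (PMap.ofHomeo (LC.lunit LC.C))) q.b)) := by
      rw [h4, R.assoc, R.assoc, ← R.assoc (R.J (PMap.ofHomeo (LC.mid LC.point (Cn j) LC.C))),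
        h5, ← R.assoc (R.tens (R.J (PMap.ofHomeo (LC.lunit (Cn j)))) LC.C),
        ← R.assoc (R.tens (R.tens (cn q i).b (Cn j)) LC.C), ih2, R.assoc, ← R.assoc, h6]
      rfl
    exact main

theorem cn_add' (q : Per R LC.C) (i j : ℕ) :
    ((cn q i).prod (cn q j)).c = R.comp (cn q (i + j)).c (R.J (PMap.ofHomeo (CnAdd i j).symm)) :=
  c_eq_of_b_eq ((cn q i).prod (cn q j)) (Per.homeo (CnAdd i j) (cn q (i + j))) (cn_add q i j)

end Per

/-! ### Normalised classes (packet PER-B) -/

section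
variable {R : Biv} (P : PRTheory R) (o : Orient R) {K L Z V W : LC}

/-- `P.inc` commutes with the action -/
theorem inc_act (a : R.Hom LC.point LC.point) (z : R.Hom K Z) :
    P.inc (act a z) = act (P := P.toBiv) (P.inc a) (P.inc z) := by
  unfold act
  rw [P.inc_comp, P.inc_comp, P.inc_comp, P.inc_J, P.inc_J, P.inc_tens]

theorem inc_zero : P.inc (0 : R.Hom K Z) = 0 := by
  have h := P.inc_add (0 : R.Hom K Z) 0
  rw [add_zero] at h
  exact left_eq_add.1 h

/-- `P.inc` as a homomorphism -/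
def incH (K Z : LC) : R.Hom K Z →+ P.Hom K Z := AddMonoidHom.mk' P.inc P.inc_add

theorem inc_ltens (x : R.Hom K L) (Z : LC) : P.inc (R.ltens Z x) = P.ltens Z (P.inc x) := by
  unfold BivData.ltens
  rw [P.inc_comp, P.inc_comp, P.inc_J, P.inc_J, P.inc_tens]

/-- the normalised class of `e ∈ P(V, pt)` -/
def nrm (p : Per R V) (e : P.Hom V LC.point) : P.Hom LC.point LC.point := P.comp (P.inc p.c) e

theorem nrm_spec (p : Per R V) (e : P.Hom V LC.point) : e = P.comp (P.inc p.b) (nrm P p e) := by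
  unfold nrm
  rw [← P.assoc, ← P.inc_comp, p.bc, P.inc_J, P.id_comp]

theorem nrm_homeo (φ : V ≃ₜ W) (q : Per R W) (e : P.Hom W LC.point) :
    nrm P (Per.homeo φ q) (P.comp (P.J (PMap.ofHomeo φ)) e) = nrm P q e := by
  unfold nrm
  have h : (Per.homeo φ q).c = R.comp q.c (R.J (PMap.ofHomeo φ.symm)) := rfl
  rw [h, P.inc_comp, P.inc_J, P.assoc, ← P.assoc (P.J (PMap.ofHomeo φ.symm)),
    J_homeo' (R := P.toBiv) φ, P.id_comp]

theorem nrm_mulPt (p : Per R V) (q : Per R W) (x : P.Hom V LC.point) (y : P.Hom W LC.point) :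
    nrm P (p.prod q) (P.mulPt x y) = P.comp (nrm P p x) (nrm P q y) := by
  unfold nrm PRTheory.mulPt
  have h : (p.prod q).c =
    R.comp q.c (R.comp (R.J (PMap.ofHomeo (LC.lunit W).symm)) (R.tens p.c W)) := rfl
  have h1 : P.comp (P.tens (P.inc p.c) W) (P.tens x W) = P.tens (P.comp (P.inc p.c) x) W :=
    (P.tens_comp _ _ _).symm
  have h2 : P.comp (P.ltens LC.point y) (P.J (PMap.ofHomeo (LC.lunit LC.point))) =
      P.comp (P.J (PMap.ofHomeo (LC.lunit W))) y := by
    have h3 := point_bx (R := P.toBiv) y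
    rw [one_bx] at h3
    exact h3
  rw [h, P.inc_comp, P.inc_comp, P.inc_J, P.inc_tens, P.assoc, P.assoc, P.assoc,
    ← P.assoc (P.tens (P.inc p.c) W) (P.tens x W), h1, h2, ← act_point (P := P.toBiv),
    act_comp' (P := P.toBiv)]
  rfl

/-- the normalised class `b̂_i` -/
def bh (q : Per R LC.C) (i : ℕ) : P.Hom LC.point LC.point := nrm P (Per.cn q i) (P.b o i)

theorem bh_zero (q : Per R LC.C) : bh P o q 0 = P.J (PMap.id LC.point) := by
  have h1 := P.toGBiv.bun_comp (K := LC.point) (L := LC.Pr (Fin 1) 1)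
    (ContinuousMap.const _ (Pr.line 0)) (ContinuousMap.id _)
  rw [ContinuousMap.id_comp, P.toGBiv.bun_const] at h1
  have h3 : P.b o 0 = P.comp (P.inc (o.b (Fin 1) 0))
    (P.toGBiv.bun (K := LC.Pr (Fin 1) 1) (ContinuousMap.id _)) := rfl
  have h4 : P.inc (o.b (Fin 1) 0) = P.J (PMap.ofPoint (K := LC.Pr (Fin 1) 1) (Pr.line 0)) :=
    (congrArg P.inc (o.b_zero (Fin 1) 0)).trans (P.inc_J _)
  have h5 : P.inc (Per.cn q 0).c = P.J (PMap.id LC.point) := P.inc_J _
  have h6 : bh P o q 0 = P.b o 0 :=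
    (congrArg (fun z : P.Hom LC.point (Cn 0) => P.comp z (P.b o 0)) h5).trans
      (P.id_comp (P.b o 0))
  rw [h6, h3, h4]
  exact h1

/-- products in `P(pt, pt)` -/
def prodL (f : ℕ → P.Hom LC.point LC.point) : List ℕ → P.Hom LC.point LC.point
  | [] => P.J (PMap.id LC.point)
  | i :: L => P.comp (f i) (prodL f L)

/-- the normalised class of `b_L` is the product of the `b̂_i`; induction on `L`, with
`Per.cn_add'`, `nrm_mulPt`, `comp_comm_point` -/
theorem nrm_bL (q : Per R LC.C) (L : List ℕ) :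
    nrm P (Per.cn q (deg L)) (P.bL o L) = prodL P (bh P o q) L := by
  induction L with
  | nil =>
    show P.comp (P.inc (R.J (PMap.id LC.point))) (P.J (PMap.id LC.point)) =
      P.J (PMap.id LC.point)
    rw [P.inc_J, P.id_comp]
  | cons i L ih =>
    show P.comp (P.inc (Per.cn q (deg L + i)).c)
      (P.comp (P.J (PMap.ofHomeo (CnAdd (deg L) i).symm)) (P.mulPt (P.bL o L) (P.b o i))) =
      P.comp (bh P o q i) (prodL P (bh P o q) L)
    rw [← P.assoc, ← P.inc_J, ← P.inc_comp, ← Per.cn_add']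
    refine (nrm_mulPt P (Per.cn q (deg L)) (Per.cn q i) (P.bL o L) (P.b o i)).trans ?_
    rw [ih, comp_comm_point (P := P.toBiv)]
    rfl

theorem act_prodL (f : ℕ → P.Hom LC.point LC.point) (L : List ℕ) (y : P.Hom K Z) :
    act (P := P.toBiv) (prodL P f L) y =
      ((L.map fun i => actH (P := P.toBiv) (f i) K Z).prod : AddMonoid.End (P.Hom K Z)) y := by
  induction L with
  | nil => exact act_one (P := P.toBiv) y
  | cons i L ih =>
    rw [List.map_cons, List.prod_cons]
    refine (act_act (P := P.toBiv) (f i) (prodL P f L) y).symm.trans ?_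
    rw [ih]
    rfl

/-- a term of the polynomial theorem through normalised classes: `x = inc p.b ⬝ nrm x`, and
`act_eq_right` -/
theorem term_eq {d : ℕ} (p : Per R (Cn d)) (c : R.Hom K ((Cn d).prod Z))
    (x : P.Hom (Cn d) LC.point) :
    P.term c x = act (P := P.toBiv) (nrm P p x)
      (P.inc (R.comp c (R.comp (R.tens p.b Z) (R.J (PMap.ofHomeo (LC.lunit Z)))))) := by
  have h1 : P.tens x Z = P.comp (P.tens (P.inc p.b) Z) (P.tens (nrm P p x) Z) := by
    rw [← P.tens_comp, ← nrm_spec]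
  unfold PRTheory.term
  rw [h1, act_eq_right (P := P.toBiv), P.inc_comp, P.inc_comp, P.inc_tens, P.inc_J, P.assoc,
    P.assoc, P.assoc, ← P.assoc (P.J (PMap.ofHomeo (LC.lunit Z)))
      (P.J (PMap.ofHomeo (LC.lunit Z).symm)), J_homeo (R := P.toBiv) (LC.lunit Z), P.id_comp]

/-! ### The two bases (packet PER-C) -/

/-- `c ↦ c ⬝ (β × Z) ⬝ lunit` is bijective -/
def basisEquiv54 (p : Per R V) (K Z : LC) : R.Hom K (V.prod Z) ≃+ R.Hom K Z where
  toFun c := R.comp c (R.comp (R.tens p.b Z) (R.J (PMap.ofHomeo (LC.lunit Z))))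
  invFun h := R.comp h (R.comp (R.J (PMap.ofHomeo (LC.lunit Z).symm)) (R.tens p.c Z))
  left_inv c := by
    show R.comp (R.comp c _) _ = c
    have h1 : R.comp (R.comp (R.tens p.b Z) (R.J (PMap.ofHomeo (LC.lunit Z))))
        (R.comp (R.J (PMap.ofHomeo (LC.lunit Z).symm)) (R.tens p.c Z)) =
        R.J (PMap.id (V.prod Z)) := by
      rw [R.assoc, ← R.assoc (R.J (PMap.ofHomeo (LC.lunit Z))),
        Helper39.Stab.J_homeo_symm R (LC.lunit Z), R.id_comp, ← R.tens_comp, p.bc,
        Helper39.Stab.tens_id R]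
    rw [R.assoc, h1, R.comp_id]
  right_inv h := by
    show R.comp (R.comp h _) _ = h
    have h1 : R.comp (R.comp (R.J (PMap.ofHomeo (LC.lunit Z).symm)) (R.tens p.c Z))
        (R.comp (R.tens p.b Z) (R.J (PMap.ofHomeo (LC.lunit Z)))) = R.J (PMap.id Z) := by
      rw [R.assoc, ← R.assoc (R.tens p.c Z), ← R.tens_comp, p.cb, Helper39.Stab.tens_id R,
        R.id_comp, Helper39.Stab.J_homeo_symm' R (LC.lunit Z)]
    rw [R.assoc, h1, R.comp_id]
  map_add' c c' := R.add_comp c c' _

theorem basisEquiv_apply54 (p : Per R V) (K Z : LC) (c : R.Hom K (V.prod Z)) :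
    basisEquiv54 p K Z c =
      R.comp c (R.comp (R.tens p.b Z) (R.J (PMap.ofHomeo (LC.lunit Z)))) := rfl

open Classical in
/-- finitely supported families of both sides -/
def famEquiv54 (q : Per R LC.C) (K Z : LC) :
    (PL →₀ R.Hom K Z) ≃+ (Π₀ L : PL, R.Hom K ((Cn (deg L.1)).prod Z)) :=
  (finsuppAddEquivDFinsupp (ι := PL) (M := R.Hom K Z)).trans
    (DFinsupp.mapRange.addEquiv fun L => (basisEquiv54 (Per.cn q (deg L.1)) K Z).symm)

/-- the first basis: `PRTheory.polynomial`, `term_eq`, `nrm_bL`, `act_prodL`; the map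
`c ↦ c ⬝ (β^d × Z) ⬝ lunit` from `R(K, ℂ^d × Z)` to `R(K, Z)` is bijective (and additive), so
finitely supported families of both sides correspond to each other -/
theorem basis1 (q : Per R LC.C) (K Z : LC) :
    Function.Bijective (fun f : PL1 →₀ R.Hom K Z => f.sum fun L h =>
      ((L.1.map fun i => actH (P := P.toBiv) (bh P o q i) K Z).prod :
        AddMonoid.End (P.Hom K Z)) (incH P K Z h)) := by
  classical
  have key : ∀ f : PL →₀ R.Hom K Z, (f.sum fun L h =>
      ((L.1.map fun i => actH (P := P.toBiv) (bh P o q i) K Z).prod :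
        AddMonoid.End (P.Hom K Z)) (incH P K Z h)) = PO7.psi P o K Z (famEquiv54 q K Z f) := by
    intro f
    have h1 : (Finsupp.liftAddHom (α := PL) fun L =>
        (((L.1.map fun i => actH (P := P.toBiv) (bh P o q i) K Z).prod :
          AddMonoid.End (P.Hom K Z)) : P.Hom K Z →+ P.Hom K Z).comp (incH P K Z)) =
        (PO7.psi P o K Z).comp (famEquiv54 q K Z).toAddMonoidHom := by
      refine Finsupp.addHom_ext fun L h => ?_
      rw [Finsupp.liftAddHom_apply_single]
      have h2 : famEquiv54 q K Z (Finsupp.single L h) =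
          DFinsupp.single L ((basisEquiv54 (Per.cn q (deg L.1)) K Z).symm h) := by
        show DFinsupp.mapRange (fun (i : PL) x => (basisEquiv54 (Per.cn q (deg i.1)) K Z).symm x)
          (fun i => map_zero (basisEquiv54 (Per.cn q (deg i.1)) K Z).symm)
          (Finsupp.single L h).toDFinsupp = _
        rw [Finsupp.toDFinsupp_single, DFinsupp.mapRange_single]
      show _ = PO7.psi P o K Z (famEquiv54 q K Z (Finsupp.single L h))
      rw [h2]
      unfold PO7.psi
      rw [DFinsupp.sumAddHom_single]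
      show _ = P.term ((basisEquiv54 (Per.cn q (deg L.1)) K Z).symm h) (P.bL o L.1)
      rw [term_eq P (Per.cn q (deg L.1)), nrm_bL, act_prodL, ← basisEquiv_apply54,
        AddEquiv.apply_symm_apply]
      rfl
    exact DFunLike.congr_fun h1 f
  have e : (fun f : PL1 →₀ R.Hom K Z => f.sum fun L h =>
      ((L.1.map fun i => actH (P := P.toBiv) (bh P o q i) K Z).prod :
        AddMonoid.End (P.Hom K Z)) (incH P K Z h)) =
      (PO7.psi P o K Z) ∘ (famEquiv54 q K Z) := funext key
  rw [e]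
  refine Function.Bijective.comp ⟨?_, PO7.psi_surj P o K Z⟩ (famEquiv54 q K Z).bijective
  rw [injective_iff_map_eq_zero]
  exact PO7.psi_inj P o K Z

/-- the normalised scalars of `x` -/
theorem nrm_x (q : Per R LC.C) (φ : V ≃ₜ (Cn 1).prod (Cn 1)) (x : P.Hom V LC.point)
    (qq : ∀ i : ℕ, R.Hom V (Cn i))
    (hx : x = (∑ i ∈ Finset.range 4, P.comp (P.inc (qq i)) (P.b o i)) -
        P.comp (P.J (PMap.ofHomeo φ)) (P.mulPt (P.b o 1) (P.b o 1))) :
    nrm P (Per.homeo φ ((Per.cn q 1).prod (Per.cn q 1))) x =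
      (∑ i ∈ Finset.range 4, P.comp (P.inc (R.comp
        (Per.homeo φ ((Per.cn q 1).prod (Per.cn q 1))).c (R.comp (qq i) (Per.cn q i).b)))
        (bh P o q i)) - P.comp (bh P o q 1) (bh P o q 1) := by
  have h1 : nrm P (Per.homeo φ ((Per.cn q 1).prod (Per.cn q 1)))
      (P.comp (P.J (PMap.ofHomeo φ)) (P.mulPt (P.b o 1) (P.b o 1))) =
      P.comp (bh P o q 1) (bh P o q 1) := by
    rw [nrm_homeo, nrm_mulPt]
    rfl
  have h2 : ∀ i, nrm P (Per.homeo φ ((Per.cn q 1).prod (Per.cn q 1)))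
      (P.comp (P.inc (qq i)) (P.b o i)) = P.comp (P.inc (R.comp
        (Per.homeo φ ((Per.cn q 1).prod (Per.cn q 1))).c (R.comp (qq i) (Per.cn q i).b)))
        (bh P o q i) := by
    intro i
    have h3 : P.b o i = P.comp (P.inc (Per.cn q i).b) (bh P o q i) :=
      nrm_spec P (Per.cn q i) (P.b o i)
    rw [nrm]
    conv_lhs => rw [h3]
    rw [P.inc_comp, P.inc_comp, P.assoc, P.assoc]
  have h4 : ∀ y z, nrm P (Per.homeo φ ((Per.cn q 1).prod (Per.cn q 1))) (y - z) =
      nrm P (Per.homeo φ ((Per.cn q 1).prod (Per.cn q 1))) y -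
        nrm P (Per.homeo φ ((Per.cn q 1).prod (Per.cn q 1))) z := by
    intro y z
    have h := P.comp_add (P.inc (Per.homeo φ ((Per.cn q 1).prod (Per.cn q 1))).c) (y - z) z
    rw [sub_add_cancel] at h
    exact eq_sub_of_add_eq h.symm
  have h5 : nrm P (Per.homeo φ ((Per.cn q 1).prod (Per.cn q 1)))
      (∑ i ∈ Finset.range 4, P.comp (P.inc (qq i)) (P.b o i)) =
      ∑ i ∈ Finset.range 4, nrm P (Per.homeo φ ((Per.cn q 1).prod (Per.cn q 1)))
        (P.comp (P.inc (qq i)) (P.b o i)) :=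
    map_sum (AddMonoidHom.mk' (fun y => nrm P (Per.homeo φ ((Per.cn q 1).prod (Per.cn q 1))) y)
      (fun y z => P.comp_add _ y z)) _ _
  rw [hx, h4, h1, h5]
  simp only [h2]

/-- the basis classes `x̂^k b̂_1^ε b̂_M` -/
def eA (xh : P.Hom LC.point LC.point) (q : Per R LC.C) (a : AIdx) : P.Hom LC.point LC.point :=
  P.comp (prodL P (fun _ => xh) (List.replicate a.1 0))
    (P.comp (if a.2.1 then bh P o q 1 else P.J (PMap.id LC.point)) (prodL P (bh P o q) a.2.2.1))

theorem eA_succ (q : Per R LC.C) (xh : P.Hom LC.point LC.point) (k : ℕ) (ε : Bool) (M : PL2) :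
    eA P o xh q (k + 1, ε, M) = P.comp xh (eA P o xh q (k, ε, M)) := by
  simp only [eA, List.replicate_succ, prodL]
  rw [P.assoc]

/-- the second basis: `FM` with `B i = actH (b̂ i)`, `c j = actH (inc (scalar j))` and
`c' j = actH (scalar j)` -/
theorem basis2 (q : Per R LC.C) (s : ℕ → R.Hom LC.point LC.point)
    (xh : P.Hom LC.point LC.point)
    (hx : xh = (∑ i ∈ Finset.range 4, P.comp (P.inc (s i)) (bh P o q i)) -
      P.comp (bh P o q 1) (bh P o q 1)) (K Z : LC) :
    Function.Bijective (fun f : AIdx →₀ R.Hom K Z => f.sum fun a h =>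
      act (P := P.toBiv) (eA P o xh q a) (P.inc h)) := by
  have key := FM (incH P K Z) (fun i => actH (P := P.toBiv) (bh P o q i) K Z)
    (fun j : Fin 4 => actH (P := P.toBiv) (P.inc (s j)) K Z)
    (fun j : Fin 4 => actH (P := R) (s j) K Z)
    (fun i j => by
      ext y
      exact act_comm (P := P.toBiv) _ _ y)
    (fun i j => by
      ext y
      exact act_comm (P := P.toBiv) _ _ y)
    (fun j h => (inc_act P (s j) h).symm)
    (basis1 P o q K Z) (actH (P := P.toBiv) xh K Z) (by
      ext y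
      change act (P := P.toBiv) xh y = act (P := P.toBiv) (P.inc (s 0)) y +
        act (P := P.toBiv) (P.inc (s 1)) (act (P := P.toBiv) (bh P o q 1) y) +
        act (P := P.toBiv) (P.inc (s 2)) (act (P := P.toBiv) (bh P o q 2) y) +
        act (P := P.toBiv) (P.inc (s 3)) (act (P := P.toBiv) (bh P o q 3) y) -
        act (P := P.toBiv) (bh P o q 1) (act (P := P.toBiv) (bh P o q 1) y)
      have h1 : act (P := P.toBiv) (∑ i ∈ Finset.range 4, P.comp (P.inc (s i)) (bh P o q i)) y =
          act (P := P.toBiv) xh y +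
          act (P := P.toBiv) (P.comp (bh P o q 1) (bh P o q 1)) y := by
        rw [← add_act, hx, sub_add_cancel]
      rw [Finset.sum_range_succ, Finset.sum_range_succ, Finset.sum_range_succ,
        Finset.sum_range_one, add_act, add_act, add_act, bh_zero, P.comp_id] at h1
      rw [act_act, act_act, act_act, act_act, h1, add_sub_cancel_right])
  have h2 : (fun f : AIdx →₀ R.Hom K Z => f.sum fun a h =>
      act (P := P.toBiv) (eA P o xh q a) (P.inc h)) = fun f : AIdx →₀ R.Hom K Z => f.sum fun a h =>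
      ((actH (P := P.toBiv) xh K Z) ^ a.1 * (if a.2.1 then actH (P := P.toBiv) (bh P o q 1) K Z
        else 1) * (a.2.2.1.map fun i => actH (P := P.toBiv) (bh P o q i) K Z).prod)
        (incH P K Z h) := by
    funext f
    refine Finsupp.sum_congr fun a _ => ?_
    unfold eA
    rw [← act_act, ← act_act, act_prodL, act_prodL, List.map_replicate, List.prod_replicate]
    cases a.2.1
    · simp only [Bool.false_eq_true, if_false, mul_one]
      rw [act_one]
      rfl
    · simp only [if_true]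
      rfl
  rw [h2]
  exact key

/-- the second basis as a homomorphism -/
def coefHom (q : Per R LC.C) (xh : P.Hom LC.point LC.point) (K Z : LC) :
    (AIdx →₀ R.Hom K Z) →+ P.Hom K Z :=
  Finsupp.liftAddHom fun a => (actH (P := P.toBiv) (eA P o xh q a) K Z : P.Hom K Z →+ P.Hom K Z).comp
    (incH P K Z)

theorem coefHom_single (q : Per R LC.C) (xh : P.Hom LC.point LC.point) (K Z : LC) (a : AIdx)
    (h : R.Hom K Z) : coefHom P o q xh K Z (Finsupp.single a h) =
      act (P := P.toBiv) (eA P o xh q a) (P.inc h) := by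
  unfold coefHom
  rw [Finsupp.liftAddHom_apply_single]
  rfl

theorem coefHom_nat (q : Per R LC.C) (xh : P.Hom LC.point LC.point) {K Z K' Z' : LC}
    (T : P.Hom K Z →+ P.Hom K' Z') (S : R.Hom K Z →+ R.Hom K' Z') (τ : AIdx → AIdx)
    (h : ∀ a z, T (act (P := P.toBiv) (eA P o xh q a) (P.inc z)) =
      act (P := P.toBiv) (eA P o xh q (τ a)) (P.inc (S z))) (f : AIdx →₀ R.Hom K Z) :
    T (coefHom P o q xh K Z f) =
      coefHom P o q xh K' Z' (Finsupp.mapDomain τ (Finsupp.mapRange S S.map_zero f)) := by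
  induction f using Finsupp.induction_linear with
  | zero => simp
  | add f g hf hg =>
    rw [map_add, map_add, hf, hg, Finsupp.mapRange_add S.map_add, Finsupp.mapDomain_add, map_add]
  | single a z =>
    rw [Finsupp.mapRange_single, Finsupp.mapDomain_single, coefHom_single, coefHom_single, h]

/-- The coefficients with respect to the second basis. They exist by `basis2`; the naturality
properties follow from uniqueness (`act_comp'`, `act_ltens`, `inc_comp`, `inc_ltens`), and
`cf_x` from `act x̂ (act (eA (k, ε, M)) z) = act (eA (k + 1, ε, M)) z`. -/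
theorem exists_coef (q : Per R LC.C) (s : ℕ → R.Hom LC.point LC.point)
    (xh : P.Hom LC.point LC.point)
    (hx : xh = (∑ i ∈ Finset.range 4, P.comp (P.inc (s i)) (bh P o q i)) -
      P.comp (bh P o q 1) (bh P o q 1)) :
    ∃ cf : ∀ K Z : LC, AIdx → (P.Hom K Z →+ R.Hom K Z),
      (∀ (K Z : LC) (y : P.Hom K Z), ∃ F : Finset AIdx,
        y = ∑ a ∈ F, act (P := P.toBiv) (eA P o xh q a) (P.inc (cf K Z a y))) ∧
      (∀ (K Z : LC) (a : AIdx) (h : R.Hom K Z),
        cf K Z a (act (P := P.toBiv) (eA P o xh q a) (P.inc h)) = h) ∧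
      (∀ (K Z : LC) (a a' : AIdx) (h : R.Hom K Z), a ≠ a' →
        cf K Z a (act (P := P.toBiv) (eA P o xh q a') (P.inc h)) = 0) ∧
      (∀ (K Z : LC) (k : ℕ) (ε : Bool) (M : PL2) (y : P.Hom K Z),
        cf K Z (k + 1, ε, M) (act (P := P.toBiv) xh y) = cf K Z (k, ε, M) y) ∧
      (∀ (K Z : LC) (ε : Bool) (M : PL2) (y : P.Hom K Z),
        cf K Z (0, ε, M) (act (P := P.toBiv) xh y) = 0) ∧
      (∀ (K K' Z : LC) (a : AIdx) (u : R.Hom K' K) (y : P.Hom K Z),
        cf K' Z a (P.comp (P.inc u) y) = R.comp u (cf K Z a y)) ∧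
      (∀ (K Z W : LC) (a : AIdx) (y : P.Hom K Z),
        cf (W.prod K) (W.prod Z) a (P.ltens W y) = R.ltens W (cf K Z a y)) := by
  let e : ∀ K Z : LC, (AIdx →₀ R.Hom K Z) ≃+ P.Hom K Z := fun K Z =>
    AddEquiv.ofBijective (coefHom P o q xh K Z) (basis2 P o q s xh hx K Z)
  have he : ∀ (K Z : LC) (y : P.Hom K Z), coefHom P o q xh K Z ((e K Z).symm y) = y :=
    fun K Z y => (e K Z).apply_symm_apply y
  have he' : ∀ (K Z : LC) (f : AIdx →₀ R.Hom K Z), (e K Z).symm (coefHom P o q xh K Z f) = f :=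
    fun K Z f => (e K Z).symm_apply_apply f
  have nat : ∀ {K Z K' Z' : LC} (T : P.Hom K Z →+ P.Hom K' Z') (S : R.Hom K Z →+ R.Hom K' Z')
      (τ : AIdx → AIdx), (∀ a z, T (act (P := P.toBiv) (eA P o xh q a) (P.inc z)) =
        act (P := P.toBiv) (eA P o xh q (τ a)) (P.inc (S z))) → ∀ y : P.Hom K Z,
      (e K' Z').symm (T y) = Finsupp.mapDomain τ (Finsupp.mapRange S S.map_zero ((e K Z).symm y)) := by
    intro K Z K' Z' T S τ h y
    rw [← he' K' Z' (Finsupp.mapDomain τ _), ← coefHom_nat P o q xh T S τ h, he]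
  refine ⟨fun K Z a => (Finsupp.applyAddHom a).comp (e K Z).symm.toAddMonoidHom,
    fun K Z y => ⟨((e K Z).symm y).support, ?_⟩, fun K Z a h => ?_, fun K Z a a' h haa => ?_,
    fun K Z k ε M y => ?_, fun K Z ε M y => ?_, fun K K' Z a u y => ?_, fun K Z W a y => ?_⟩
  · conv_lhs => rw [← he K Z y]
    rfl
  · change (e K Z).symm (act (P := P.toBiv) (eA P o xh q a) (P.inc h)) a = h
    rw [← coefHom_single P o q xh, he', Finsupp.single_eq_same]
  · change (e K Z).symm (act (P := P.toBiv) (eA P o xh q a') (P.inc h)) a = 0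
    rw [← coefHom_single P o q xh, he', Finsupp.single_eq_of_ne haa]
  · have h1 := nat (K := K) (Z := Z) (actH (P := P.toBiv) xh K Z : P.Hom K Z →+ P.Hom K Z)
      (AddMonoidHom.id _) (fun a => (a.1 + 1, a.2)) (by
        intro a z
        change act (P := P.toBiv) xh (act (P := P.toBiv) (eA P o xh q a) (P.inc z)) = _
        rw [act_act]
        obtain ⟨k, ε, M⟩ := a
        rw [← eA_succ]
        rfl) y
    change (e K Z).symm (act (P := P.toBiv) xh y) (k + 1, ε, M) = (e K Z).symm y (k, ε, M)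
    have h2 : (e K Z).symm (act (P := P.toBiv) xh y) = Finsupp.mapDomain (fun a => (a.1 + 1, a.2))
        (Finsupp.mapRange (AddMonoidHom.id _) (AddMonoidHom.map_zero _) ((e K Z).symm y)) := h1
    rw [h2]
    have hinj : Function.Injective (fun a : AIdx => ((a.1 + 1, a.2) : AIdx)) := by
      rintro ⟨k, a⟩ ⟨k', a'⟩ h
      simpa using h
    exact (Finsupp.mapDomain_apply hinj _ (k, ε, M)).trans rfl
  · have h1 := nat (K := K) (Z := Z) (actH (P := P.toBiv) xh K Z : P.Hom K Z →+ P.Hom K Z)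
      (AddMonoidHom.id _) (fun a => (a.1 + 1, a.2)) (by
        intro a z
        change act (P := P.toBiv) xh (act (P := P.toBiv) (eA P o xh q a) (P.inc z)) = _
        rw [act_act]
        obtain ⟨k, ε, M⟩ := a
        rw [← eA_succ]
        rfl) y
    change (e K Z).symm (act (P := P.toBiv) xh y) (0, ε, M) = 0
    have h2 : (e K Z).symm (act (P := P.toBiv) xh y) = Finsupp.mapDomain (fun a => (a.1 + 1, a.2))
        (Finsupp.mapRange (AddMonoidHom.id _) (AddMonoidHom.map_zero _) ((e K Z).symm y)) := h1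
    rw [h2]
    apply Finsupp.mapDomain_of_notMem_range
    rintro ⟨⟨k, a⟩, h⟩
    simp at h
  · have h1 := nat (K := K) (Z := Z) (K' := K') (Z' := Z)
      (AddMonoidHom.mk' (P.comp (P.inc u)) (P.comp_add _))
      (AddMonoidHom.mk' (R.comp u) (R.comp_add _)) _root_.id (by
        intro a z
        change P.comp (P.inc u) (act (P := P.toBiv) (eA P o xh q a) (P.inc z)) =
          act (P := P.toBiv) (eA P o xh q a) (P.inc (R.comp u z))
        rw [P.inc_comp]
        exact (act_comp' (P := P.toBiv) _ _ _).symm) y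
    change (e K' Z).symm (P.comp (P.inc u) y) a = R.comp u ((e K Z).symm y a)
    have h2 : (e K' Z).symm (P.comp (P.inc u) y) = Finsupp.mapDomain _root_.id
        (Finsupp.mapRange (AddMonoidHom.mk' (R.comp u) (R.comp_add _)) (AddMonoidHom.map_zero _)
          ((e K Z).symm y)) := h1
    rw [h2, Finsupp.mapDomain_id]
    rfl
  · have h1 := nat (K := K) (Z := Z) (K' := W.prod K) (Z' := W.prod Z)
      (AddMonoidHom.mk' (P.ltens W) (P.toBiv.ltens_add W))
      (AddMonoidHom.mk' (R.ltens W) (R.ltens_add W)) _root_.id (by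
        intro a z
        change P.ltens W (act (P := P.toBiv) (eA P o xh q a) (P.inc z)) =
          act (P := P.toBiv) (eA P o xh q a) (P.inc (R.ltens W z))
        rw [inc_ltens]
        exact act_ltens (P := P.toBiv) _ _ _) y
    change (e (W.prod K) (W.prod Z)).symm (P.ltens W y) a = R.ltens W ((e K Z).symm y a)
    have h2 : (e (W.prod K) (W.prod Z)).symm (P.ltens W y) = Finsupp.mapDomain _root_.id
        (Finsupp.mapRange (AddMonoidHom.mk' (R.ltens W) (R.ltens_add W)) (AddMonoidHom.map_zero _)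
          ((e K Z).symm y)) := h1
    rw [h2, Finsupp.mapDomain_id]
    rfl

/-! ### The coefficient of `b_1^n`, without periodicity (packet FF-A) -/

theorem deg_replicate (n : ℕ) : deg (List.replicate n 1) = n := by
  rw [deg_eq_sum, List.sum_replicate, smul_eq_mul, mul_one]

/-- The coefficients of the powers of `b_1`: `cf n y` is the coefficient of `b_[1, …, 1]` in
`PRTheory.polynomial` (transported by `CnCast (deg_replicate n)`). Multiplication with `b_1` sends
the term of `L` to the term of `1 :: L` (still sorted) with the new coordinate of `ℂ` after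
`ℂ^|L|`. -/
theorem exists_cfb :
    ∃ cf : ∀ (K Z : LC) (n : ℕ), P.Hom K Z →+ R.Hom K ((Cn n).prod Z),
      (∀ (K Z : LC) (h : R.Hom K Z), cf K Z 0 (P.inc h) =
        R.comp h (R.J (PMap.ofHomeo (LC.lunit Z).symm))) ∧
      (∀ (K Z : LC) (n : ℕ) (y : P.Hom K Z),
        cf ((Cn 1).prod K) Z (n + 1)
          (P.comp (P.tens (P.b o 1) K) (P.comp (P.J (PMap.ofHomeo (LC.lunit K))) y)) =
          R.comp (R.ltens (Cn 1) (cf K Z n y)) (R.J (PMap.ofHomeo (K := (Cn 1).prod ((Cn n).prod Z))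
            (L := (Cn (n + 1)).prod Z)
            { toFun := fun v => ((v.2.1, v.1.2), v.2.2)
              invFun := fun v => ((PUnit.unit, v.1.2), (v.1.1, v.2))
              left_inv := fun _ => rfl
              right_inv := fun _ => rfl
              continuous_toFun := by fun_prop
              continuous_invFun := by fun_prop }))) ∧
      (∀ (K K' Z : LC) (n : ℕ) (u : R.Hom K' K) (y : P.Hom K Z),
        cf K' Z n (P.comp (P.inc u) y) = R.comp u (cf K Z n y)) ∧
      (∀ (K Z W : LC) (n : ℕ) (y : P.Hom K Z),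
        cf (W.prod K) (W.prod Z) n (P.ltens W y) =
          R.comp (R.ltens W (cf K Z n y)) (R.J (PMap.ofHomeo (ll W (Cn n) Z)))) := by
  exact ⟨fun K Z n => Helper33.Sn.cfb P o K Z n, fun K Z h => Helper33.Sn.cfb_inc P o h,
    fun K Z n y => Helper33.Sn.cfb_mb P o n y, fun K K' Z n u y => Helper33.Sn.cfb_comp P o n u y,
    fun K Z W n y => Helper33.Sn.cfb_ltens P o n y⟩

end

end Pool.Agent.Helper84.Sn
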